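import Pool.Agent.H633R2.Ctr.Exch
import Pool.Agent.H633R2.GraphDefs

/-!
# The algorithm
-/

namespace Pool.Agent.H633R2.Ctr

/-- Adjacency in the graph of a matrix (`md = false`) or in its complement (`md = true`). -/
def adj (md : Bool) (M : List (List Bool)) (x y : ℕ) : Bool :=
  decide (x < M.length) && (decide (y < M.length) && (!(decide (x = y)) &&
    ((entry M x y || entry M y x) ^^ md)))

/-- The degree. -/
def dgr (md : Bool) (M : List (List Bool)) (x : ℕ) : ℕ :=
  ((List.range M.length).filter (fun y => adj md M x y)).length

/-- The vertices of small degree. -/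
def rl (md : Bool) (M : List (List Bool)) (D : ℕ) : List ℕ :=
  (List.range M.length).filter (fun x => decide (dgr md M x ≤ D))

/-- The vertices of large degree. -/
def bl (md : Bool) (M : List (List Bool)) (D : ℕ) : List ℕ :=
  (List.range M.length).filter (fun x => decide (D < dgr md M x))

/-- One step of breadth-first search. -/
def grow (md : Bool) (M : List (List Bool)) (R S : List ℕ) : List ℕ :=
  R.filter (fun x => decide (x ∈ S) || S.any (fun y => adj md M y x))

/-- Balls. -/
def bal (md : Bool) (M : List (List Bool)) (R : List ℕ) (j : ℕ) (S : List ℕ) : List ℕ :=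
  (grow md M R)^[j] (R.filter (fun x => decide (x ∈ S)))

/-- All lists of length `m` with members in a list. -/
def tuples : ℕ → List ℕ → List (List ℕ)
  | 0, _ => [[]]
  | m + 1, l => l.flatMap (fun x => (tuples m l).map (fun t => x :: t))

/-- The test for a pattern. -/
def isP (m : ℕ) (P : Bool) (X S : ℕ → ℕ → Bool) (f : List ℕ) : Bool :=
  (List.range m).all (fun i => (List.range m).all (fun j => decide (i = j) ||
    (!(S (f.getD i 0) (f.getD j 0)) &&
      !(X (f.getD i 0) (f.getD j 0) ^^ (decide (i = 0) || (decide (j = 0) || P))))))

/-- Members of patterns. -/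
def yob (a b : ℕ) (md : Bool) (M : List (List Bool)) (R : List ℕ) : List ℕ :=
  ((tuples (a + 1) R).filter (fun f => isP (a + 1) true (fun x y => adj md M x y)
    (fun x y => decide (x = y)) f)).flatten ++
  ((tuples (b + 1) R).filter (fun f => isP (b + 1) false (fun x y => adj md M x y)
    (fun x y => decide (x = y)) f)).flatten

/-- Common neighbours of sets of large vertices. -/
def ycn (md : Bool) (M : List (List Bool)) (R B : List ℕ) (D : ℕ) : List ℕ :=
  R.filter (fun y => decide ((R.filter (fun z => B.all (fun b =>
    !(adj md M y b) || adj md M z b))).length ≤ D))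

/-- The code of a ball. -/
def code (md : Bool) (M : List (List Bool)) (R B : List ℕ) (ρ v : ℕ) : List (List Bool) :=
  (bal md M R ρ [v]).map (fun x => decide (x = v) ::
    ((bal md M R ρ [v]).map (fun y => adj md M x y) ++ B.map (fun b => adj md M x b)))

/-- One step of the greedy choice of representatives. -/
def pstp (md : Bool) (M : List (List Bool)) (R B : List ℕ) (ρ t : ℕ) (U : List ℕ) (v : ℕ) :
    List ℕ :=
  bif (U.any (fun u => decide (code md M R B ρ u = code md M R B ρ v) &&
      decide (v ∈ bal md M R (2 * ρ) [u]))) ||
    decide (t ≤ (U.filter (fun u =>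
      decide (code md M R B ρ u = code md M R B ρ v))).length) then U else v :: U

/-- The representatives. -/
def pick (md : Bool) (M : List (List Bool)) (R B : List ℕ) (ρ t : ℕ) (Z : List ℕ) : List ℕ :=
  Z.foldl (pstp md M R B ρ t) []

/-- The vertices near the special vertices. -/
def nearl (a b : ℕ) (md : Bool) (M : List (List Bool)) (R B : List ℕ) (D ρ : ℕ) : List ℕ :=
  bal md M R ρ (yob a b md M R ++ ycn md M R B D)

/-- The candidate set. -/
def wset (a b : ℕ) (md : Bool) (M : List (List Bool)) (D ρ t : ℕ) : List ℕ :=
  bl md M D ++ (nearl a b md M (rl md M D) (bl md M D) D ρ ++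
    bal md M (rl md M D) (2 * ρ) (pick md M (rl md M D) (bl md M D) ρ t
      ((rl md M D).filter (fun x =>
        !(decide (x ∈ nearl a b md M (rl md M D) (bl md M D) D ρ))))))

/-- The edges inside a set. -/
def prs (M : List (List Bool)) (W : List ℕ) : List (ℕ × ℕ) :=
  (W.flatMap (fun x => W.map (fun y => (x, y)))).filter (fun e => adj false M e.1 e.2)

/-- One step of the enumeration. -/
def estp (P : List (ℕ × ℕ)) (cap : ℕ) (E : List (List (ℕ × ℕ))) : List (List (ℕ × ℕ)) :=
  (E.flatMap (fun l => l :: P.map (fun e => e :: l))).take cap

/-- The enumeration of the sets of at most `k` edges. -/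
def enu (P : List (ℕ × ℕ)) (cap k : ℕ) : List (List (ℕ × ℕ)) := (estp P cap)^[k] [[]]

/-- One step of the computation of the classes. -/
def lstp (l : List ℕ) (e : ℕ × ℕ) : List ℕ :=
  l.map (fun c => bif decide (c = l.getD e.1 0) then l.getD e.2 0 else c)

/-- The classes. -/
def labs (n : ℕ) (L : List (ℕ × ℕ)) : List ℕ := L.foldl lstp (List.range n)

/-- The test whether two vertices are in the same class. -/
def sam (l : List ℕ) (x y : ℕ) : Bool := decide (l.getD x 0 = l.getD y 0)

/-- Adjacency of classes. -/
def xad (md : Bool) (M : List (List Bool)) (l : List ℕ) (x y : ℕ) : Bool :=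
  !(sam l x y) && bif md then
    (List.range M.length).all (fun x' => (List.range M.length).all (fun y' =>
      !(sam l x x' && sam l y y') || adj true M x' y'))
  else (List.range M.length).any (fun x' => (List.range M.length).any (fun y' =>
      (sam l x x' && sam l y y') && adj false M x' y'))

/-- The test for solutions. -/
def chk (M : List (List Bool)) (k : ℕ) (L : List (ℕ × ℕ)) : Bool :=
  (decide (L.length ≤ k) && L.all (fun e => adj false M e.1 e.2)) &&
    (!((tuples 7 (List.range M.length)).any (fun f => isP 7 false
        (fun x y => xad false M (labs M.length L) x y) (fun x y => sam (labs M.length L) x y) f)) &&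
      !((tuples 4 (List.range M.length)).any (fun f => isP 4 false
        (fun x y => xad true M (labs M.length L) x y) (fun x y => sam (labs M.length L) x y) f)))

/-- The algorithm. -/
def alg (N r1 r2 : ℕ) (M : List (List Bool)) (k cap : ℕ) : Bool :=
  ((bif decide (M.length < N + 2 * k) then enu (prs M (List.range M.length)) cap k else []) ++
    (enu (prs M (wset 2 6 false M (r1 + 2 * k) (12 * k + 6) (2 * k + 1))) cap k ++
      enu (prs M (wset 5 3 true M (r2 + 2 * k) (12 * k + 6) (2 * k + 1))) cap k)).any
    (fun L => chk M k L)

end Pool.Agent.H633R2.Ctr
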