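import Pool.Agent.H633R2.Ctr.Alg

/-!
# The meaning of the functions of the algorithm
-/

namespace Pool.Agent.H633R2.Ctr

/-- The adjacency relation. -/
def Aj (md : Bool) (M : List (List Bool)) (x y : ℕ) : Prop := adj md M x y = true

theorem Aj_iff {md : Bool} {M : List (List Bool)} {x y : ℕ} : Aj md M x y ↔
    x < M.length ∧ y < M.length ∧ x ≠ y ∧ (((entry M x y || entry M y x) ^^ md) = true) := by
  unfold Aj adj
  simp only [Bool.and_eq_true, decide_eq_true_eq, Bool.not_eq_true', decide_eq_false_iff_not]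
  try rfl

theorem Aj_symm {md : Bool} {M : List (List Bool)} (x y : ℕ) (h : Aj md M x y) : Aj md M y x := by
  rw [Aj_iff] at *
  obtain ⟨h1, h2, h3, h4⟩ := h
  refine ⟨h2, h1, h3.symm, ?_⟩
  rwa [Bool.or_comm]

theorem Aj_irr {md : Bool} {M : List (List Bool)} (x : ℕ) : ¬ Aj md M x x := by
  rw [Aj_iff]
  exact fun h => h.2.2.1 rfl

theorem Aj_compl {M : List (List Bool)} {x y : ℕ} (hx : x < M.length) (hy : y < M.length)
    (hxy : x ≠ y) : Aj true M x y ↔ ¬ Aj false M x y := by
  rw [Aj_iff, Aj_iff]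
  cases (entry M x y || entry M y x) <;> simp [hx, hy, hxy]

theorem mem_rl {md : Bool} {M : List (List Bool)} {D x : ℕ} :
    x ∈ rl md M D ↔ x < M.length ∧ dgr md M x ≤ D := by
  simp [rl]

theorem mem_bl {md : Bool} {M : List (List Bool)} {D x : ℕ} :
    x ∈ bl md M D ↔ x < M.length ∧ D < dgr md M x := by
  simp [bl]

theorem nodup_rl (md : Bool) (M : List (List Bool)) (D : ℕ) : (rl md M D).Nodup :=
  List.nodup_range.filter _

theorem nodup_bl (md : Bool) (M : List (List Bool)) (D : ℕ) : (bl md M D).Nodup :=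
  List.nodup_range.filter _

theorem setting {md : Bool} {M : List (List Bool)} {a b r k : ℕ} (ha : 0 < a) (hb : 0 < b)
    (hr : RamseyNum a b r) : Setting md (Aj md M) (rl md M (r + 2 * k)).toFinset
      (bl md M (r + 2 * k)).toFinset a b r k where
  hA := Aj_symm
  irr := Aj_irr
  ha := ha
  hb := hb
  hr := hr
  hRB x hx hx' := by
    rw [List.mem_toFinset, mem_rl] at hx'
    rw [List.mem_toFinset, mem_bl] at hx
    omega
  hV x y h := by
    rw [List.mem_toFinset, mem_rl, List.mem_toFinset, mem_bl]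
    have := (Aj_iff.1 h).1
    omega
  hR x hx S hS := by
    rw [List.mem_toFinset, mem_rl] at hx
    refine le_trans ?_ hx.2
    unfold dgr
    rw [← List.toFinset_card_of_nodup (List.nodup_range.filter _)]
    refine Finset.card_le_card fun y hy => ?_
    rw [List.mem_toFinset, List.mem_filter, List.mem_range]
    exact ⟨(Aj_iff.1 (hS y hy)).2.1, hS y hy⟩
  hB x hx := by
    rw [List.mem_toFinset, mem_bl] at hx
    refine ⟨((List.range M.length).filter (fun y => adj md M x y)).toFinset, fun y hy => ?_, ?_⟩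
    · rw [List.mem_toFinset, List.mem_filter] at hy
      exact hy.2
    · rw [List.toFinset_card_of_nodup (List.nodup_range.filter _)]
      exact hx.2

theorem mem_bal {md : Bool} {M : List (List Bool)} {R : List ℕ} {j : ℕ} {S : List ℕ} {x : ℕ} :
    x ∈ bal md M R j S ↔ ∃ s ∈ S, s ∈ R ∧ wd (Aj md M) R.toFinset j s x := by
  induction j generalizing x with
  | zero =>
    simp only [bal, Function.iterate_zero, id_eq, List.mem_filter, decide_eq_true_eq]
    constructor
    · rintro ⟨h1, h2⟩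
      exact ⟨x, h2, h1, rfl⟩
    · rintro ⟨s, h1, h2, h3⟩
      have : x = s := h3
      exact ⟨this ▸ h2, this ▸ h1⟩
  | succ j ih =>
    have e : bal md M R (j + 1) S = grow md M R (bal md M R j S) := by
      unfold bal
      rw [Function.iterate_succ_apply']
    rw [e]
    unfold grow
    rw [List.mem_filter, Bool.or_eq_true, decide_eq_true_eq, List.any_eq_true, ih]
    constructor
    · rintro ⟨hx, h | ⟨y, hy, hyx⟩⟩
      · obtain ⟨s, h1, h2, h3⟩ := h
        exact ⟨s, h1, h2, Or.inl h3⟩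
      · obtain ⟨s, h1, h2, h3⟩ := ih.1 hy
        exact ⟨s, h1, h2, Or.inr ⟨List.mem_toFinset.2 hx, y, h3, hyx⟩⟩
    · rintro ⟨s, h1, h2, h3⟩
      have hxR : x ∈ R := List.mem_toFinset.1 (wd_mem (List.mem_toFinset.2 h2) h3)
      refine ⟨hxR, ?_⟩
      rcases h3 with h3 | ⟨_, y, h4, h5⟩
      · exact Or.inl ⟨s, h1, h2, h3⟩
      · exact Or.inr ⟨y, ih.2 ⟨s, h1, h2, h4⟩, h5⟩

theorem nodup_bal {md : Bool} {M : List (List Bool)} {R : List ℕ} (hR : R.Nodup) (j : ℕ)
    (S : List ℕ) : (bal md M R j S).Nodup := by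
  cases j with
  | zero => exact hR.filter _
  | succ j =>
    unfold bal
    rw [Function.iterate_succ_apply']
    exact hR.filter _

theorem mem_tuples {m : ℕ} {l f : List ℕ} :
    f ∈ tuples m l ↔ f.length = m ∧ ∀ x ∈ f, x ∈ l := by
  induction m generalizing f with
  | zero =>
    simp only [tuples, List.mem_singleton]
    constructor
    · rintro rfl
      simp
    · rintro ⟨h, _⟩
      exact List.length_eq_zero_iff.1 h
  | succ m ih =>
    simp only [tuples, List.mem_flatMap, List.mem_map]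
    constructor
    · rintro ⟨x, hx, t, ht, rfl⟩
      rw [ih] at ht
      refine ⟨by simp [ht.1], fun y hy => ?_⟩
      rcases List.mem_cons.1 hy with h | h
      · rw [h]; exact hx
      · exact ht.2 y h
    · rintro ⟨h1, h2⟩
      cases f with
      | nil => simp at h1
      | cons x t =>
        exact ⟨x, h2 x (by simp), t, ih.2 ⟨by simpa using h1, fun y hy => h2 y (by simp [hy])⟩,
          rfl⟩

theorem isP_iff {c : ℕ} {P : Bool} {X S : ℕ → ℕ → Bool} {f : List ℕ} :
    isP (c + 1) P X S f = true ↔ ∀ i j : Fin (c + 1), i ≠ j →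
      S (f.getD i 0) (f.getD j 0) = false ∧
      (X (f.getD i 0) (f.getD j 0) = true ↔ CH c (P = true) i j) := by
  unfold isP CH
  simp only [List.all_eq_true, List.mem_range, Bool.or_eq_true, decide_eq_true_eq,
    Bool.and_eq_true, Bool.not_eq_true']
  constructor
  · intro h i j hij
    have h1 := h i.1 i.2 j.1 j.2
    rcases h1 with h1 | ⟨h1, h2⟩
    · exact absurd (Fin.ext h1) hij
    · refine ⟨h1, ?_⟩
      have e1 : decide (i.1 = 0) = decide (i = 0) := by
        rw [decide_eq_decide]; exact ⟨fun h => Fin.ext h, fun h => by rw [h]; rfl⟩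
      have e2 : decide (j.1 = 0) = decide (j = 0) := by
        rw [decide_eq_decide]; exact ⟨fun h => Fin.ext h, fun h => by rw [h]; rfl⟩
      rw [e1, e2] at h2
      by_cases hi : i = 0 <;> by_cases hj : j = 0 <;>
        cases P <;> cases hX : X (f.getD (i : ℕ) 0) (f.getD (j : ℕ) 0) <;>
        simp_all
  · intro h i hi j hj
    by_cases hij : i = j
    · exact Or.inl hij
    · right
      obtain ⟨h1, h2⟩ := h ⟨i, hi⟩ ⟨j, hj⟩ (fun h => hij (congrArg Fin.val h))
      refine ⟨h1, ?_⟩
      simp only at h2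
      have e1 : (⟨i, hi⟩ : Fin (c + 1)) = 0 ↔ i = 0 := by
        rw [Fin.ext_iff]; rfl
      have e2 : (⟨j, hj⟩ : Fin (c + 1)) = 0 ↔ j = 0 := by
        rw [Fin.ext_iff]; rfl
      rw [e1, e2] at h2
      by_cases hi0 : i = 0 <;> by_cases hj0 : j = 0 <;>
        cases P <;> cases hX : X (f.getD i 0) (f.getD j 0) <;>
        simp_all

theorem exists_tuple {c : ℕ} {P : Bool} {X S : ℕ → ℕ → Bool} {l : List ℕ} {y : ℕ} :
    (∃ f ∈ tuples (c + 1) l, isP (c + 1) P X S f = true ∧ y ∈ f) ↔
      ∃ h : Fin (c + 1) → ℕ, (∀ i j, i ≠ j → S (h i) (h j) = false ∧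
        (X (h i) (h j) = true ↔ CH c (P = true) i j)) ∧ (∀ i, h i ∈ l) ∧ ∃ i, h i = y := by
  constructor
  · rintro ⟨f, hf, hP, hy⟩
    rw [mem_tuples] at hf
    rw [isP_iff] at hP
    refine ⟨fun i => f.getD i 0, hP, fun i => ?_, ?_⟩
    · have hi : (i : ℕ) < f.length := by rw [hf.1]; exact i.2
      show f.getD i 0 ∈ l
      rw [List.getD_eq_getElem _ _ hi]
      exact hf.2 _ (List.getElem_mem _)
    · obtain ⟨i, hi, h⟩ := List.getElem_of_mem hy
      refine ⟨⟨i, by rw [← hf.1]; exact hi⟩, ?_⟩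
      show f.getD i 0 = y
      rw [List.getD_eq_getElem _ _ hi, h]
  · rintro ⟨h, hP, hl, i, hi⟩
    have e : ∀ i : Fin (c + 1), (List.ofFn h).getD i 0 = h i := by
      intro i
      rw [List.getD_eq_getElem _ _ (by rw [List.length_ofFn]; exact i.2), List.getElem_ofFn]
    refine ⟨List.ofFn h, mem_tuples.2 ⟨by simp, fun x hx => ?_⟩, isP_iff.2 fun i j hij => ?_, ?_⟩
    · obtain ⟨i, rfl⟩ := (List.mem_ofFn' h x).1 hx
      exact hl i
    · rw [e, e]
      exact hP i j hij
    · rw [← hi]
      exact (List.mem_ofFn' h _).2 ⟨i, rfl⟩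

theorem mem_yob {a b : ℕ} {md : Bool} {M : List (List Bool)} {R : List ℕ} {y : ℕ} :
    y ∈ yob a b md M R ↔ y ∈ Yob (Aj md M) R.toFinset a b := by
  have key : ∀ (c : ℕ) (P : Bool), y ∈ ((tuples (c + 1) R).filter (fun f => isP (c + 1) P
      (fun x y => adj md M x y) (fun x y => decide (x = y)) f)).flatten ↔
      ∃ h : Fin (c + 1) → ℕ, (∀ i j, i ≠ j → h i ≠ h j ∧
        (Aj md M (h i) (h j) ↔ CH c (P = true) i j)) ∧ (∀ i, h i ∈ R.toFinset) ∧
          ∃ i, h i = y := by
    intro c P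
    rw [List.mem_flatten]
    have e1 : (∃ l ∈ ((tuples (c + 1) R).filter (fun f => isP (c + 1) P
        (fun x y => adj md M x y) (fun x y => decide (x = y)) f)), y ∈ l) ↔
        (∃ f ∈ tuples (c + 1) R, isP (c + 1) P (fun x y => adj md M x y)
          (fun x y => decide (x = y)) f = true ∧ y ∈ f) := by
      constructor
      · rintro ⟨l, hl, hy⟩
        rw [List.mem_filter] at hl
        exact ⟨l, hl.1, hl.2, hy⟩
      · rintro ⟨l, hl, hP, hy⟩
        exact ⟨l, List.mem_filter.2 ⟨hl, hP⟩, hy⟩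
    rw [e1, exists_tuple]
    simp only [decide_eq_false_iff_not, List.mem_toFinset]
    rfl
  unfold yob Yob
  rw [List.mem_append, key, key, Set.mem_ofPred_eq]
  constructor
  · rintro (h | h)
    · exact ⟨a, True, Or.inl ⟨rfl, rfl⟩, by simpa using h⟩
    · exact ⟨b, False, Or.inr ⟨rfl, rfl⟩, by simpa using h⟩
  · rintro ⟨c, P, ⟨rfl, rfl⟩ | ⟨rfl, rfl⟩, h⟩
    · exact Or.inl (by simpa using h)
    · exact Or.inr (by simpa using h)

theorem mem_ycn {md : Bool} {M : List (List Bool)} {R B : List ℕ} {D y : ℕ} (hR : R.Nodup) :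
    y ∈ ycn md M R B D ↔ y ∈ Ycn (Aj md M) R.toFinset B.toFinset D := by
  classical
  unfold ycn Ycn
  rw [List.mem_filter, Set.mem_ofPred_eq, List.mem_toFinset, decide_eq_true_eq]
  have e : (R.filter (fun z => B.all (fun b => !(adj md M y b) || adj md M z b))).length =
      (R.toFinset.filter (fun z => ∀ b ∈ B.toFinset, Aj md M y b → Aj md M z b)).card := by
    rw [← List.toFinset_card_of_nodup (hR.filter _)]
    congr 1
    ext z
    simp only [List.mem_toFinset, List.mem_filter, List.all_eq_true, Finset.mem_filter,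
      Bool.or_eq_true, Bool.not_eq_true', Aj]
    refine and_congr Iff.rfl (forall_congr' fun b => imp_congr Iff.rfl ?_)
    cases adj md M y b <;> simp
  rw [e]

end Pool.Agent.H633R2.Ctr
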