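import Pool.Agent.H633R2.Ctr.AlgA

/-!
# The candidate set is a candidate set
-/

namespace Pool.Agent.H633R2.Ctr

/-- The code of a list of vertices with a centre. -/
def lcode (adj : ℕ → ℕ → Bool) (B : List ℕ) (l : List ℕ) (v : ℕ) : List (List Bool) :=
  l.map (fun x => decide (x = v) :: (l.map (fun y => adj x y) ++ B.map (fun b => adj x b)))

theorem lcode_eq {ad : ℕ → ℕ → Bool} {B l l' : List ℕ} {v v' : ℕ}
    (h : lcode ad B l v = lcode ad B l' v') : l.length = l'.length ∧
      ∀ (i : ℕ) (hi : i < l.length) (hi' : i < l'.length), (l[i] = v ↔ l'[i] = v') ∧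
        (∀ (j : ℕ) (hj : j < l.length) (hj' : j < l'.length),
          ad l[i] l[j] = ad l'[i] l'[j]) ∧ ∀ b ∈ B, ad l[i] b = ad l'[i] b := by
  have hlen : l.length = l'.length := by
    have := congrArg List.length h
    simpa [lcode] using this
  refine ⟨hlen, fun i hi hi' => ?_⟩
  have h1 : (lcode ad B l v)[i]'(by simpa [lcode] using hi) =
      (lcode ad B l' v')[i]'(by simpa [lcode] using hi') := by
    simp only [h]
  simp only [lcode, List.getElem_map, List.cons.injEq, decide_eq_decide] at h1
  obtain ⟨h2, h3⟩ := h1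
  have h4 := List.append_inj h3 (by simp [hlen])
  refine ⟨h2, fun j hj hj' => ?_, ?_⟩
  · have h5 : (l.map (fun y => ad l[i] y))[j]'(by simpa using hj) =
        (l'.map (fun y => ad l'[i] y))[j]'(by simpa using hj') := by
      simp only [h4.1]
    simpa using h5
  · exact List.map_inj_left.1 h4.2

/-- Equal codes yield isomorphic balls. -/
theorem iso_of_lcode {ad : ℕ → ℕ → Bool} {B l l' : List ℕ} {v v' : ℕ} {R : Finset ℕ} {ρ : ℕ}
    (hl : l.Nodup) (hl' : l'.Nodup)
    (hm : ∀ x, x ∈ l ↔ wd (fun x y => ad x y = true) R ρ v x)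
    (hm' : ∀ x, x ∈ l' ↔ wd (fun x y => ad x y = true) R ρ v' x)
    (h : lcode ad B l v = lcode ad B l' v') :
    ∃ ι ι' : ℕ → ℕ, BallIso (fun x y => ad x y = true) R B.toFinset ρ v v' ι ι' := by
  obtain ⟨hlen, key⟩ := lcode_eq h
  have g1 : ∀ (l l' : List ℕ) (x : ℕ), l.length = l'.length → x ∈ l →
      l'.getD (l.idxOf x) 0 ∈ l' := by
    intro l l' x hlen hx
    have h1 : l.idxOf x < l'.length := by rw [← hlen]; exact List.idxOf_lt_length_of_mem hx
    rw [List.getD_eq_getElem _ _ h1]
    exact List.getElem_mem _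
  have g2 : ∀ (l l' : List ℕ) (x : ℕ), l'.Nodup → l.length = l'.length → x ∈ l →
      l.getD (l'.idxOf (l'.getD (l.idxOf x) 0)) 0 = x := by
    intro l l' x hl' hlen hx
    have h0 : l.idxOf x < l.length := List.idxOf_lt_length_of_mem hx
    have h1 : l.idxOf x < l'.length := by rw [← hlen]; exact h0
    rw [List.getD_eq_getElem _ _ h1, hl'.idxOf_getElem, List.getD_eq_getElem _ _ h0,
      List.getElem_idxOf]
  refine ⟨fun x => l'.getD (l.idxOf x) 0, fun x => l.getD (l'.idxOf x) 0,
    fun x hx => ?_, fun x hx => ?_, fun x y hx hy => ?_, fun x hx b hb => ?_, ?_⟩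
  · rw [← hm] at hx
    exact ⟨(hm' _).1 (g1 l l' x hlen hx), g2 l l' x hl' hlen hx⟩
  · rw [← hm'] at hx
    exact ⟨(hm _).1 (g1 l' l x hlen.symm hx), g2 l' l x hl hlen.symm hx⟩
  · rw [← hm] at hx hy
    have h0 : l.idxOf x < l.length := List.idxOf_lt_length_of_mem hx
    have h1 : l.idxOf y < l.length := List.idxOf_lt_length_of_mem hy
    have h0' : l.idxOf x < l'.length := by rw [← hlen]; exact h0
    have h1' : l.idxOf y < l'.length := by rw [← hlen]; exact h1
    have := (key _ h0 h0').2.1 _ h1 h1'
    rw [List.getElem_idxOf, List.getElem_idxOf] at this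
    show ad (l'.getD (l.idxOf x) 0) (l'.getD (l.idxOf y) 0) = true ↔ _
    rw [List.getD_eq_getElem _ _ h0', List.getD_eq_getElem _ _ h1', this]
  · rw [← hm] at hx
    have h0 : l.idxOf x < l.length := List.idxOf_lt_length_of_mem hx
    have h0' : l.idxOf x < l'.length := by rw [← hlen]; exact h0
    have := (key _ h0 h0').2.2 b (List.mem_toFinset.1 hb)
    rw [List.getElem_idxOf] at this
    show ad (l'.getD (l.idxOf x) 0) b = true ↔ _
    rw [List.getD_eq_getElem _ _ h0', this]
  · have hx : v ∈ l := (hm v).2 (wd_refl _ _)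
    have h0 : l.idxOf v < l.length := List.idxOf_lt_length_of_mem hx
    have h0' : l.idxOf v < l'.length := by rw [← hlen]; exact h0
    have := (key _ h0 h0').1.1 (List.getElem_idxOf _)
    show l'.getD (l.idxOf v) 0 = v'
    rw [List.getD_eq_getElem _ _ h0', this]

/-! ### The greedy choice -/

section

variable {C : Type} [DecidableEq C] (cd : ℕ → C) (nr : ℕ → ℕ → Bool) (t : ℕ)

/-- One step of the greedy choice. -/
def gst (U : List ℕ) (v : ℕ) : List ℕ :=
  bif (U.any (fun u => decide (cd u = cd v) && nr u v)) ||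
    decide (t ≤ (U.filter (fun u => decide (cd u = cd v))).length) then U else v :: U

theorem gst_cases (U : List ℕ) (v : ℕ) :
    (gst cd nr t U v = U ∧ ((∃ u ∈ U, cd u = cd v ∧ nr u v = true) ∨
      t ≤ (U.filter (fun u => decide (cd u = cd v))).length)) ∨
    (gst cd nr t U v = v :: U ∧ (∀ u ∈ U, cd u = cd v → nr u v = false) ∧
      (U.filter (fun u => decide (cd u = cd v))).length < t) := by
  unfold gst
  cases h : (U.any (fun u => decide (cd u = cd v) && nr u v)) ||
    decide (t ≤ (U.filter (fun u => decide (cd u = cd v))).length) with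
  | true =>
    left
    refine ⟨rfl, ?_⟩
    rw [Bool.or_eq_true, List.any_eq_true, decide_eq_true_eq] at h
    rcases h with ⟨u, hu, h⟩ | h
    · rw [Bool.and_eq_true, decide_eq_true_eq] at h
      exact Or.inl ⟨u, hu, h⟩
    · exact Or.inr h
  | false =>
    right
    refine ⟨rfl, ?_⟩
    rw [Bool.or_eq_false_iff, List.any_eq_false, decide_eq_false_iff_not] at h
    refine ⟨fun u hu huv => ?_, by omega⟩
    have := h.1 u hu
    rw [Bool.and_eq_true, decide_eq_true_eq] at this
    cases hn : nr u v with
    | true => exact absurd ⟨huv, hn⟩ this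
    | false => rfl

theorem fold_mem (Z : List ℕ) : ∀ u ∈ Z.foldl (gst cd nr t) [], u ∈ Z := by
  induction Z using List.reverseRecOn with
  | nil => simp
  | append_singleton Z v ih =>
    intro u hu
    rw [List.foldl_append, List.foldl_cons, List.foldl_nil] at hu
    rcases gst_cases cd nr t (Z.foldl (gst cd nr t) []) v with ⟨h, _⟩ | ⟨h, _⟩
    · rw [h] at hu
      exact List.mem_append_left _ (ih u hu)
    · rw [h, List.mem_cons] at hu
      rcases hu with hu | hu
      · rw [hu]; simp
      · exact List.mem_append_left _ (ih u hu)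

theorem fold_count (Z : List ℕ) (c : C) :
    ((Z.foldl (gst cd nr t) []).filter (fun u => decide (cd u = c))).length ≤ t := by
  induction Z using List.reverseRecOn with
  | nil => simp
  | append_singleton Z v ih =>
    rw [List.foldl_append, List.foldl_cons, List.foldl_nil]
    rcases gst_cases cd nr t (Z.foldl (gst cd nr t) []) v with ⟨h, _⟩ | ⟨h, _, h2⟩
    · rw [h]; exact ih
    · rw [h]
      by_cases hc : cd v = c
      · rw [List.filter_cons_of_pos (by simpa using hc)]
        rw [List.length_cons]
        rw [hc] at h2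
        exact h2
      · rw [List.filter_cons_of_neg (by simpa using hc)]
        exact ih

theorem fold_pair (Z : List ℕ) : (Z.foldl (gst cd nr t) []).Pairwise
    (fun v u => cd u = cd v → nr u v = false) := by
  induction Z using List.reverseRecOn with
  | nil => simp
  | append_singleton Z v ih =>
    rw [List.foldl_append, List.foldl_cons, List.foldl_nil]
    rcases gst_cases cd nr t (Z.foldl (gst cd nr t) []) v with ⟨h, _⟩ | ⟨h, h1, _⟩
    · rw [h]; exact ih
    · rw [h]
      exact List.pairwise_cons.2 ⟨h1, ih⟩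

theorem fold_skip (Z : List ℕ) : ∀ v ∈ Z, v ∉ Z.foldl (gst cd nr t) [] →
    (∃ u ∈ Z.foldl (gst cd nr t) [], cd u = cd v ∧ nr u v = true) ∨
      t ≤ ((Z.foldl (gst cd nr t) []).filter (fun u => decide (cd u = cd v))).length := by
  induction Z using List.reverseRecOn with
  | nil => simp
  | append_singleton Z w ih =>
    intro v hv
    rw [List.foldl_append, List.foldl_cons, List.foldl_nil]
    rw [List.mem_append, List.mem_singleton] at hv
    rcases gst_cases cd nr t (Z.foldl (gst cd nr t) []) w with ⟨h, h1⟩ | ⟨h, _, _⟩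
    · rw [h]
      intro hvU
      rcases hv with hv | hv
      · exact ih v hv hvU
      · rw [hv]; exact h1
    · rw [h]
      intro hvU
      rw [List.mem_cons, not_or] at hvU
      rcases hv with hv | hv
      · rcases ih v hv hvU.2 with ⟨u, hu, h2⟩ | h2
        · exact Or.inl ⟨u, List.mem_cons_of_mem _ hu, h2⟩
        · right
          refine h2.trans ?_
          by_cases hc : cd w = cd v
          · rw [List.filter_cons_of_pos (by simpa using hc), List.length_cons]
            exact Nat.le_succ _
          · rw [List.filter_cons_of_neg (by simpa using hc)]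
      · exact absurd hv hvU.1

end

theorem pick_eq (md : Bool) (M : List (List Bool)) (R B : List ℕ) (ρ t : ℕ) (Z : List ℕ) :
    pick md M R B ρ t Z = Z.foldl (gst (fun u => code md M R B ρ u)
      (fun u v => decide (v ∈ bal md M R (2 * ρ) [u])) t) [] := rfl

theorem code_eq (md : Bool) (M : List (List Bool)) (R B : List ℕ) (ρ v : ℕ) :
    code md M R B ρ v = lcode (fun x y => adj md M x y) B (bal md M R ρ [v]) v := rfl

/-- The candidate set of the algorithm. -/
theorem cand {a b : ℕ} {md : Bool} {M : List (List Bool)} {r k : ℕ} :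
    Cand (Aj md M) (rl md M (r + 2 * k)).toFinset (bl md M (r + 2 * k)).toFinset
      (Yob (Aj md M) (rl md M (r + 2 * k)).toFinset a b ∪
        Ycn (Aj md M) (rl md M (r + 2 * k)).toFinset (bl md M (r + 2 * k)).toFinset (r + 2 * k))
      k (12 * k + 6) (wset a b md M (r + 2 * k) (12 * k + 6) (2 * k + 1)).toFinset := by
  set D := r + 2 * k with hD
  set ρ := 12 * k + 6 with hρ
  set R := rl md M D with hR
  set B := bl md M D with hB
  set U := pick md M R B ρ (2 * k + 1) (R.filter (fun x =>
        !(decide (x ∈ nearl a b md M R B D ρ)))) with hU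
  have hnd : R.Nodup := nodup_rl md M D
  have hW : ∀ x, x ∈ (wset a b md M D ρ (2 * k + 1)).toFinset ↔ x ∈ B ∨
      x ∈ nearl a b md M R B D ρ ∨ x ∈ bal md M R (2 * ρ) U := by
    intro x
    rw [List.mem_toFinset]
    unfold wset
    rw [List.mem_append, List.mem_append]
  have hnear : ∀ x, x ∈ nearl a b md M R B D ρ ↔ ∃ y ∈ Yob (Aj md M) R.toFinset a b ∪
      Ycn (Aj md M) R.toFinset B.toFinset D, y ∈ R ∧ wd (Aj md M) R.toFinset ρ y x := by
    intro x
    unfold nearl
    rw [mem_bal]
    refine exists_congr fun y => ?_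
    rw [List.mem_append, mem_yob, mem_ycn hnd]
    rfl
  have hYR : ∀ y ∈ Yob (Aj md M) R.toFinset a b ∪ Ycn (Aj md M) R.toFinset B.toFinset D,
      y ∈ R := by
    rintro y (hy | hy)
    · obtain ⟨_, _, _, h, _, h1, i, rfl⟩ := hy
      exact List.mem_toFinset.1 (h1 i)
    · exact List.mem_toFinset.1 hy.1
  have hfar : ∀ v ∈ R, v ∉ nearl a b md M R B D ρ → ∀ y ∈ Yob (Aj md M) R.toFinset a b ∪
      Ycn (Aj md M) R.toFinset B.toFinset D, ¬ wd (Aj md M) R.toFinset ρ v y := by
    intro v hv hvn y hy h
    exact hvn ((hnear v).2 ⟨y, hy, hYR y hy, wd_symm Aj_symm (List.mem_toFinset.2 hv) h⟩)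
  have hUZ : ∀ u ∈ U, u ∈ R ∧ u ∉ nearl a b md M R B D ρ := by
    intro u hu
    rw [hU, pick_eq] at hu
    have := fold_mem _ _ _ _ u hu
    rw [List.mem_filter, Bool.not_eq_true', decide_eq_false_iff_not] at this
    exact this
  refine ⟨by omega, fun x hx => (hW x).2 (Or.inl (List.mem_toFinset.1 hx)), ?_, ?_⟩
  · intro v hv hvW y hy
    exact hfar v (List.mem_toFinset.1 hv) (fun h => hvW ((hW v).2 (Or.inr (Or.inl h)))) y hy
  · intro v hv hvW
    rw [List.mem_toFinset] at hv
    have hvn : v ∉ nearl a b md M R B D ρ := fun h => hvW ((hW v).2 (Or.inr (Or.inl h)))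
    have hvb : v ∉ bal md M R (2 * ρ) U := fun h => hvW ((hW v).2 (Or.inr (Or.inr h)))
    have hvfar : ∀ u ∈ U, ¬ wd (Aj md M) R.toFinset (2 * ρ) u v := by
      intro u hu h
      exact hvb (mem_bal.2 ⟨u, hu, (hUZ u hu).1, h⟩)
    have hvU : v ∉ U := fun h => hvfar v h (wd_refl _ _)
    have hskip := fold_skip (fun u => code md M R B ρ u)
      (fun u v => decide (v ∈ bal md M R (2 * ρ) [u])) (2 * k + 1)
      (R.filter (fun x => !(decide (x ∈ nearl a b md M R B D ρ)))) v
      (List.mem_filter.2 ⟨hv, by simpa using hvn⟩) hvU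
    rw [← pick_eq, ← hU] at hskip
    rcases hskip with ⟨u, hu, _, h2⟩ | hskip
    · exfalso
      rw [decide_eq_true_eq, mem_bal] at h2
      obtain ⟨s, hs, _, hw⟩ := h2
      rw [List.mem_singleton] at hs
      rw [hs] at hw
      exact hvfar u hu hw
    · have hpair := fold_pair (fun u => code md M R B ρ u)
        (fun u v => decide (v ∈ bal md M R (2 * ρ) [u])) (2 * k + 1)
        (R.filter (fun x => !(decide (x ∈ nearl a b md M R B D ρ))))
      rw [← pick_eq, ← hU] at hpair
      set Uv := U.filter (fun u => decide (code md M R B ρ u = code md M R B ρ v)) with hUv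
      have hUvm : ∀ u, u ∈ Uv ↔ u ∈ U ∧ code md M R B ρ u = code md M R B ρ v := by
        intro u
        rw [hUv, List.mem_filter, decide_eq_true_eq]
      have hp : Uv.Pairwise (fun u' u => ¬ wd (Aj md M) R.toFinset (2 * ρ) u u') := by
        have h1 : Uv.Pairwise (fun v u => code md M R B ρ u = code md M R B ρ v →
          decide (v ∈ bal md M R (2 * ρ) [u]) = false) := hpair.filter _
        refine (List.Pairwise.and_mem.1 h1).imp ?_
        rintro u' u ⟨hu', hu, h⟩ hw
        have h3 := h (((hUvm u).1 hu).2.trans ((hUvm u').1 hu').2.symm)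
        rw [decide_eq_false_iff_not, mem_bal] at h3
        exact h3 ⟨u, List.mem_singleton.2 rfl, (hUZ u ((hUvm u).1 hu).1).1, hw⟩
      have hnU : Uv.Nodup := by
        refine List.Pairwise.imp ?_ hp
        rintro u' u h rfl
        exact h (wd_refl _ _)
      refine ⟨Uv.toFinset, ?_, ?_, ?_⟩
      · rw [List.toFinset_card_of_nodup hnU]
        exact hskip
      · intro u hu
        rw [List.mem_toFinset, hUvm] at hu
        obtain ⟨huU, huc⟩ := hu
        obtain ⟨huR, hun⟩ := hUZ u huU
        refine ⟨List.mem_toFinset.2 huR, ?_, hfar u huR hun, fun h =>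
          hvfar u huU (wd_symm Aj_symm (List.mem_toFinset.2 hv) h), fun x hx => ?_⟩
        · refine iso_of_lcode (ad := fun x y => adj md M x y) (l := bal md M R ρ [v])
            (l' := bal md M R ρ [u]) (nodup_bal hnd _ _) (nodup_bal hnd _ _) ?_ ?_ ?_
          · intro x
            rw [mem_bal]
            constructor
            · rintro ⟨s, hs, _, h⟩
              rw [List.mem_singleton] at hs
              rw [hs] at h
              exact h
            · intro h
              exact ⟨v, List.mem_singleton.2 rfl, hv, h⟩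
          · intro x
            rw [mem_bal]
            constructor
            · rintro ⟨s, hs, _, h⟩
              rw [List.mem_singleton] at hs
              rw [hs] at h
              exact h
            · intro h
              exact ⟨u, List.mem_singleton.2 rfl, huR, h⟩
          · rw [← code_eq, ← code_eq]
            exact huc.symm
        · rw [hW]
          exact Or.inr (Or.inr (mem_bal.2 ⟨u, huU, huR, wd_mono (by omega) hx⟩))
      · intro u hu u' hu' hne h
        rw [List.mem_toFinset] at hu hu'
        have huR := (hUZ u ((hUvm u).1 hu).1).1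
        have hu'R := (hUZ u' ((hUvm u').1 hu').1).1
        have hp2 : Uv.Pairwise (fun u' u => ¬ wd (Aj md M) R.toFinset (2 * ρ) u u' ∧
            ¬ wd (Aj md M) R.toFinset (2 * ρ) u' u) := by
          refine (List.Pairwise.and_mem.1 hp).imp ?_
          rintro x y ⟨hx, hy, h⟩
          refine ⟨h, fun h' => h (wd_symm Aj_symm (List.mem_toFinset.2
            (hUZ x ((hUvm x).1 hx).1).1) h')⟩
        have hsym : Std.Symm (fun u' u => ¬ wd (Aj md M) R.toFinset (2 * ρ) u u' ∧
            ¬ wd (Aj md M) R.toFinset (2 * ρ) u' u) := ⟨fun x y h => ⟨h.2, h.1⟩⟩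
        have := hp2.forall hu hu' hne
        exact this.2 h

end Pool.Agent.H633R2.Ctr
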