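import Pool.Agent.H633R2.Ctr.AlgB

/-!
# The candidate set is small
-/

namespace Pool.Agent.H633R2.Ctr

/-- The number of codes. -/
def ncd (w : ℕ) : ℕ := (3 ^ w + 1) ^ w

/-- The bound for the candidate set. -/
def Wb (r k : ℕ) : ℕ :=
  2 * k + (2 * k * (r + 2 * k + 1) ^ 2 + 2 ^ (2 * k) * (r + 2 * k)) *
      (r + 2 * k + 1) ^ (12 * k + 6) +
    ((2 * k + 1) * ncd (1 + (r + 2 * k + 1) ^ (12 * k + 6) + 2 * k)) *
      (r + 2 * k + 1) ^ (2 * (12 * k + 6))

section

variable {md : Bool} {A : ℕ → ℕ → Prop} {R B : Finset ℕ} {a b r k : ℕ}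

theorem Setting.yob_near (S : Setting md A R B a b r k) {L : List (ℕ × ℕ)} {Vs : Finset ℕ}
    (hL : Good md A Vs a b k L) {y : ℕ} (hy : y ∈ Yob A R a b) :
    ∃ t ∈ tch L, t ∈ R ∧ wd A R 2 t y := by
  obtain ⟨c, P, hcP, h, hh, hR, i, rfl⟩ := hy
  by_cases hex : ∃ i0, h i0 ∈ tch L
  · obtain ⟨i0, hi0⟩ := hex
    refine ⟨h i0, hi0, hR i0, ?_⟩
    have h0 : ∀ j, j ≠ 0 → A (h 0) (h j) := fun j hj =>
      ((hh 0 j hj.symm).2).2 ⟨hj.symm, Or.inl rfl⟩
    have e1 : wd A R 1 (h i0) (h 0) := by
      by_cases hi : i0 = 0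
      · rw [hi]; exact wd_refl _ _
      · exact Or.inr ⟨hR 0, h i0, rfl, S.hA _ _ (h0 i0 hi)⟩
    by_cases hi : i = 0
    · rw [hi]; exact wd_mono (by omega) e1
    · exact wd_step e1 (hR i) (h0 i hi)
  · exfalso
    push Not at hex
    have hpat : Pat (CH c P) (XA md A (gen L)) (gen L) := by
      refine ⟨h, fun i j hij => ?_⟩
      have hne := (hh i j hij).1
      refine ⟨fun hg => hne (gen_single (hex i) hg), ?_⟩
      rw [XA_single (gen_equiv L) hne (fun z => gen_single (hex i)) (fun z => gen_single (hex j))]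
      exact (hh i j hij).2
    rcases hcP with ⟨rfl, rfl⟩ | ⟨rfl, rfl⟩
    · exact hL.cl hpat
    · exact hL.st hpat

open Classical in
theorem Setting.degR (S : Setting md A R B a b r k) :
    ∀ x ∈ R, (R.filter (fun y => A x y)).card ≤ r + 2 * k := fun x hx =>
  S.hR x hx _ fun y hy => (Finset.mem_filter.1 hy).2

open Classical in
theorem Setting.card_balls (S : Setting md A R B a b r k) (Y : Finset ℕ) (j : ℕ) :
    (R.filter (fun x => ∃ y ∈ Y, y ∈ R ∧ wd A R j y x)).card ≤
      Y.card * (r + 2 * k + 1) ^ j := by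
  have hsub : R.filter (fun x => ∃ y ∈ Y, y ∈ R ∧ wd A R j y x) ⊆
      Y.biUnion (fun y => if y ∈ R then R.filter (fun x => wd A R j y x) else ∅) := by
    intro x hx
    rw [Finset.mem_filter] at hx
    obtain ⟨hxR, y, hy, hyR, h⟩ := hx
    rw [Finset.mem_biUnion]
    refine ⟨y, hy, ?_⟩
    rw [if_pos hyR]
    exact Finset.mem_filter.2 ⟨hxR, h⟩
  refine (Finset.card_le_card hsub).trans (Finset.card_biUnion_le_card_mul _ _ _ ?_)
  intro y _
  by_cases hyR : y ∈ R
  · rw [if_pos hyR]
    exact card_ball S.degR hyR j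
  · rw [if_neg hyR]
    simp

open Classical in
theorem card_ycn (A : ℕ → ℕ → Prop) (R B : Finset ℕ) (D : ℕ) :
    (R.filter (fun y => y ∈ Ycn A R B D)).card ≤ 2 ^ B.card * D := by
  have h := Finset.card_le_mul_card_image (f := fun y => B.filter (fun b => A y b))
    (R.filter (fun y => y ∈ Ycn A R B D)) D (by
      intro S hS
      obtain ⟨y, hy, rfl⟩ := Finset.mem_image.1 hS
      rw [Finset.mem_filter] at hy
      refine le_trans (Finset.card_le_card ?_) hy.2.2
      intro z hz
      rw [Finset.mem_filter, Finset.mem_filter] at hz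
      refine Finset.mem_filter.2 ⟨hz.1.1, fun b hb hyb => ?_⟩
      have : b ∈ B.filter (fun b => A z b) := by
        rw [hz.2]
        exact Finset.mem_filter.2 ⟨hb, hyb⟩
      exact (Finset.mem_filter.1 this).2)
  refine h.trans ?_
  rw [Nat.mul_comm]
  refine Nat.mul_le_mul_right _ ?_
  rw [← Finset.card_powerset]
  refine Finset.card_le_card ?_
  intro S hS
  obtain ⟨y, _, rfl⟩ := Finset.mem_image.1 hS
  exact Finset.mem_powerset.2 (Finset.filter_subset _ _)

end

/-- Counting codes. -/
theorem card_codes (w : ℕ) (s : Finset (List (List Bool)))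
    (hs : ∀ c ∈ s, c.length ≤ w ∧ ∀ row ∈ c, row.length ≤ w) : s.card ≤ ncd w := by
  classical
  have h1 : s.card ≤ (Finset.univ : Finset (Fin w → Option (Fin w → Option Bool))).card := by
    refine Finset.card_le_card_of_injOn
      (fun q => fun i : Fin w => (q[(i : ℕ)]?).map (fun row => fun j : Fin w => row[(j : ℕ)]?))
      (fun _ _ => Finset.mem_univ _) ?_
    intro q hc q' hc' h
    have hc1 := hs q hc
    have hc2 := hs q' hc'
    apply List.ext_getElem?
    intro i
    by_cases hi : i < w
    · have h2 := congrFun h ⟨i, hi⟩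
      simp only at h2
      cases hci : q[i]? with
      | none =>
        rw [hci] at h2
        cases hci' : q'[i]? with
        | none => rfl
        | some row' => rw [hci'] at h2; simp at h2
      | some row =>
        rw [hci] at h2
        cases hci' : q'[i]? with
        | none => rw [hci'] at h2; simp at h2
        | some row' =>
          rw [hci'] at h2
          simp only [Option.map_some, Option.some.injEq] at h2
          congr 1
          have hr1 := hc1.2 row (List.mem_of_getElem? hci)
          have hr2 := hc2.2 row' (List.mem_of_getElem? hci')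
          apply List.ext_getElem?
          intro j
          by_cases hj : j < w
          · exact congrFun h2 ⟨j, hj⟩
          · rw [List.getElem?_eq_none (by omega), List.getElem?_eq_none (by omega)]
    · rw [List.getElem?_eq_none (by omega), List.getElem?_eq_none (by omega)]
  refine h1.trans (le_of_eq ?_)
  simp [ncd]

theorem bal_length {md : Bool} {M : List (List Bool)} {a b r k : ℕ}
    (S : Setting md (Aj md M) (rl md M (r + 2 * k)).toFinset
      (bl md M (r + 2 * k)).toFinset a b r k) (Y : Finset ℕ) (l : List ℕ) (j : ℕ)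
      (hl : ∀ s ∈ l, s ∈ rl md M (r + 2 * k) → s ∈ Y) :
    (bal md M (rl md M (r + 2 * k)) j l).length ≤ Y.card * (r + 2 * k + 1) ^ j := by
  classical
  rw [← List.toFinset_card_of_nodup (nodup_bal (nodup_rl _ _ _) _ _)]
  refine le_trans (Finset.card_le_card ?_) (S.card_balls Y j)
  intro x hx
  rw [List.mem_toFinset, mem_bal] at hx
  obtain ⟨s, hs, hsR, h⟩ := hx
  exact Finset.mem_filter.2 ⟨wd_mem (List.mem_toFinset.2 hsR) h,
    s, hl s hs hsR, List.mem_toFinset.2 hsR, h⟩

theorem wset_length {md : Bool} {M : List (List Bool)} {a b r k : ℕ}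
    (S : Setting md (Aj md M) (rl md M (r + 2 * k)).toFinset
      (bl md M (r + 2 * k)).toFinset a b r k) {L : List (ℕ × ℕ)} {Vs : Finset ℕ}
    (hL : Good md (Aj md M) Vs a b k L) :
    (wset a b md M (r + 2 * k) (12 * k + 6) (2 * k + 1)).length ≤ Wb r k := by
  classical
  set D := r + 2 * k with hD
  set ρ := 12 * k + 6 with hρ
  set R := rl md M D with hR
  set B := bl md M D with hB
  set Z := R.filter (fun x => !(decide (x ∈ nearl a b md M R B D ρ))) with hZ
  have hnd : R.Nodup := nodup_rl md M D
  have hT : (tch L).card ≤ 2 * k := (card_tch L).trans (by have := hL.len; omega)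
  have hBc : B.toFinset.card ≤ 2 * k :=
    (Finset.card_le_card (fun x hx => S.hBT hL x hx)).trans hT
  have hBl : B.length ≤ 2 * k := by
    rw [← List.toFinset_card_of_nodup (nodup_bl md M D)]
    exact hBc
  -- the special vertices
  have h1 : (nearl a b md M R B D ρ).length ≤
      (2 * k * (D + 1) ^ 2 + 2 ^ (2 * k) * D) * (D + 1) ^ ρ := by
    unfold nearl
    refine (bal_length S (R.toFinset.filter (fun x => ∃ y ∈ tch L, y ∈ R.toFinset ∧
      wd (Aj md M) R.toFinset 2 y x) ∪ R.toFinset.filter (fun y => y ∈ Ycn (Aj md M) R.toFinset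
        B.toFinset D)) _ ρ ?_).trans ?_
    · intro s hs hsR
      rw [List.mem_append, mem_yob, mem_ycn hnd] at hs
      rw [Finset.mem_union]
      rcases hs with hs | hs
      · obtain ⟨t, ht, htR, hw⟩ := S.yob_near hL hs
        exact Or.inl (Finset.mem_filter.2 ⟨List.mem_toFinset.2 hsR, t, ht, htR, hw⟩)
      · exact Or.inr (Finset.mem_filter.2 ⟨List.mem_toFinset.2 hsR, hs⟩)
    · refine Nat.mul_le_mul_right _ ((Finset.card_union_le _ _).trans (Nat.add_le_add ?_ ?_))
      · exact (S.card_balls (tch L) 2).trans (Nat.mul_le_mul_right _ hT)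
      · exact (card_ycn _ _ _ _).trans (Nat.mul_le_mul_right _
          (Nat.pow_le_pow_right (by omega) hBc))
  -- the representatives
  have hUR : ∀ u ∈ pick md M R B ρ (2 * k + 1) Z, u ∈ R := by
    intro u hu
    rw [pick_eq] at hu
    exact (List.mem_filter.1 (fold_mem _ _ _ _ u hu)).1
  have hUnd : (pick md M R B ρ (2 * k + 1) Z).Nodup := by
    have hp := fold_pair (fun u => code md M R B ρ u)
      (fun u v => decide (v ∈ bal md M R (2 * ρ) [u])) (2 * k + 1) Z
    rw [← pick_eq] at hp
    refine (List.Pairwise.and_mem.1 hp).imp ?_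
    rintro x y ⟨hx, _, h⟩ rfl
    have h3 := h rfl
    rw [decide_eq_false_iff_not, mem_bal] at h3
    exact h3 ⟨x, List.mem_singleton.2 rfl, hUR x hx, wd_refl _ _⟩
  have h2 : (pick md M R B ρ (2 * k + 1) Z).toFinset.card ≤
      (2 * k + 1) * ncd (1 + (D + 1) ^ ρ + 2 * k) := by
    have e1 := Finset.card_le_mul_card_image (f := fun u => code md M R B ρ u)
      (pick md M R B ρ (2 * k + 1) Z).toFinset (2 * k + 1) (by
        intro c _
        have := fold_count (fun u => code md M R B ρ u)
          (fun u v => decide (v ∈ bal md M R (2 * ρ) [u])) (2 * k + 1) Z c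
        rw [← pick_eq] at this
        refine le_trans (le_of_eq ?_) this
        rw [← List.toFinset_card_of_nodup (hUnd.filter _)]
        congr 1
        ext u
        simp only [Finset.mem_filter, List.mem_toFinset, List.mem_filter, decide_eq_true_eq])
    refine e1.trans (Nat.mul_le_mul_left _ (card_codes _ _ ?_))
    intro c hc
    obtain ⟨u, hu, rfl⟩ := Finset.mem_image.1 hc
    rw [List.mem_toFinset] at hu
    have hb : (bal md M R ρ [u]).length ≤ (D + 1) ^ ρ := by
      have := bal_length S {u} [u] ρ (fun s hs _ => by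
        rw [List.mem_singleton] at hs
        rw [hs]
        exact Finset.mem_singleton_self _)
      simpa using this
    refine ⟨by simp only [code, List.length_map]; omega, fun row hrow => ?_⟩
    simp only [code, List.mem_map] at hrow
    obtain ⟨x, _, rfl⟩ := hrow
    simp only [List.length_cons, List.length_append, List.length_map]
    omega
  have h3 : (bal md M R (2 * ρ) (pick md M R B ρ (2 * k + 1) Z)).length ≤
      ((2 * k + 1) * ncd (1 + (D + 1) ^ ρ + 2 * k)) * (D + 1) ^ (2 * ρ) :=
    (bal_length S _ _ _ (fun s hs _ => List.mem_toFinset.2 hs)).trans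
      (Nat.mul_le_mul_right _ h2)
  unfold wset Wb
  rw [List.length_append, List.length_append]
  exact Nat.add_le_add (Nat.add_le_add hBl h1 |>.trans le_rfl) h3 |> fun h => by
    rw [Nat.add_assoc] at h
    exact h

end Pool.Agent.H633R2.Ctr
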