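import Pool.Agent.H633R2.Ctr.AlgC

/-!
# Enumeration and test of candidate solutions
-/

namespace Pool.Agent.H633R2.Ctr

theorem enu_spec (P : List (ℕ × ℕ)) (cap : ℕ) : ∀ j : ℕ, (P.length + 1) ^ j ≤ cap →
    (enu P cap j).length ≤ (P.length + 1) ^ j ∧
      ∀ L : List (ℕ × ℕ), L.length ≤ j → (∀ e ∈ L, e ∈ P) → L ∈ enu P cap j := by
  intro j
  induction j with
  | zero =>
    intro _
    refine ⟨by simp [enu], fun L hL _ => ?_⟩
    rw [Nat.le_zero, List.length_eq_zero_iff] at hL
    rw [hL]
    simp [enu]
  | succ j ih =>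
    intro hcap
    have h1 : (P.length + 1) ^ j ≤ cap :=
      (Nat.pow_le_pow_right (Nat.succ_pos _) (Nat.le_succ j)).trans hcap
    obtain ⟨h2, h3⟩ := ih h1
    have e : enu P cap (j + 1) = estp P cap (enu P cap j) := by
      unfold enu
      rw [Function.iterate_succ_apply']
    have hlen : ((enu P cap j).flatMap (fun l => l :: P.map (fun e => e :: l))).length =
        (enu P cap j).length * (P.length + 1) := by
      simp [List.length_flatMap]
    have hle : ((enu P cap j).flatMap (fun l => l :: P.map (fun e => e :: l))).length ≤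
        (P.length + 1) ^ (j + 1) := by
      rw [hlen, pow_succ]
      exact Nat.mul_le_mul_right _ h2
    have e2 : enu P cap (j + 1) =
        (enu P cap j).flatMap (fun l => l :: P.map (fun e => e :: l)) := by
      rw [e]
      unfold estp
      exact List.take_of_length_le (hle.trans hcap)
    refine ⟨by rw [e2]; exact hle, fun L hL hLP => ?_⟩
    rw [e2, List.mem_flatMap]
    cases L with
    | nil => exact ⟨[], h3 [] (Nat.zero_le _) (by simp), by simp⟩
    | cons e0 L =>
      refine ⟨L, h3 L (by simpa using hL) (fun e he => hLP e (List.mem_cons_of_mem _ he)), ?_⟩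
      rw [List.mem_cons]
      exact Or.inr (List.mem_map.2 ⟨e0, hLP e0 (by simp), rfl⟩)

theorem gen_mono {V : Type} {L L' : List (V × V)} (h : ∀ e ∈ L, e ∈ L') {x y : V}
    (hxy : gen L x y) : gen L' x y := by
  induction hxy with
  | rel x y h1 => exact Relation.EqvGen.rel _ _ (h _ h1)
  | refl x => exact Relation.EqvGen.refl _
  | symm x y _ ih => exact Relation.EqvGen.symm _ _ ih
  | trans x y z _ _ ih1 ih2 => exact Relation.EqvGen.trans _ _ _ ih1 ih2

theorem labs_length (n : ℕ) (L : List (ℕ × ℕ)) : (labs n L).length = n := by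
  unfold labs
  induction L using List.reverseRecOn with
  | nil => simp
  | append_singleton L e ih =>
    rw [List.foldl_append, List.foldl_cons, List.foldl_nil]
    unfold lstp at *
    rw [List.length_map]
    exact ih

theorem labs_append (n : ℕ) (L : List (ℕ × ℕ)) (e : ℕ × ℕ) :
    labs n (L ++ [e]) = lstp (labs n L) e := by
  unfold labs
  rw [List.foldl_append, List.foldl_cons, List.foldl_nil]

theorem lstp_getD (l : List ℕ) (e : ℕ × ℕ) {x : ℕ} (hx : x < l.length) :
    (lstp l e).getD x 0 = if l.getD x 0 = l.getD e.1 0 then l.getD e.2 0 else l.getD x 0 := by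
  unfold lstp
  rw [List.getD_eq_getElem _ _ (by rw [List.length_map]; exact hx), List.getElem_map,
    List.getD_eq_getElem l 0 hx]
  by_cases h : l[x] = l.getD e.1 0 <;> simp [h]

/-- The labels describe the classes. -/
theorem labs_iff (n : ℕ) (L : List (ℕ × ℕ)) (hL : ∀ e ∈ L, e.1 < n ∧ e.2 < n) {x y : ℕ}
    (hx : x < n) (hy : y < n) : (labs n L).getD x 0 = (labs n L).getD y 0 ↔ gen L x y := by
  induction L using List.reverseRecOn generalizing x y with
  | nil =>
    have e : labs n [] = List.range n := rfl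
    rw [e, List.getD_eq_getElem _ _ (by simpa using hx), List.getD_eq_getElem _ _ (by simpa using hy),
      List.getElem_range, List.getElem_range]
    constructor
    · intro h
      rw [h]
      exact (gen_equiv _).refl _
    · intro h
      exact gen_single (L := []) (by simp [tch]) h
  | append_singleton L e ih =>
    have hL' : ∀ e ∈ L, e.1 < n ∧ e.2 < n := fun e he => hL e (List.mem_append_left _ he)
    have he := hL e (by simp)
    have hlen := labs_length n L
    have key : ∀ {x : ℕ}, x < n → (labs n (L ++ [e])).getD x 0 =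
        if (labs n L).getD x 0 = (labs n L).getD e.1 0 then (labs n L).getD e.2 0
        else (labs n L).getD x 0 := by
      intro x hx
      rw [labs_append, lstp_getD _ _ (by rw [hlen]; exact hx)]
    have hm : ∀ {x y : ℕ}, gen L x y → gen (L ++ [e]) x y := fun h =>
      gen_mono (fun e he => List.mem_append_left _ he) h
    have hee : gen (L ++ [e]) e.1 e.2 := Relation.EqvGen.rel _ _ (by simp)
    have hE := gen_equiv (L ++ [e])
    constructor
    · intro h
      rw [key hx, key hy] at h
      by_cases h1 : (labs n L).getD x 0 = (labs n L).getD e.1 0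
      · by_cases h2 : (labs n L).getD y 0 = (labs n L).getD e.1 0
        · exact hm ((ih hL' hx hy).1 (h1.trans h2.symm))
        · rw [if_pos h1, if_neg h2] at h
          have g1 := hm ((ih hL' hx he.1).1 h1)
          have g2 := hm ((ih hL' he.2 hy).1 h)
          exact hE.trans (hE.trans g1 hee) g2
      · by_cases h2 : (labs n L).getD y 0 = (labs n L).getD e.1 0
        · rw [if_neg h1, if_pos h2] at h
          have g1 := hm ((ih hL' hy he.1).1 h2)
          have g2 := hm ((ih hL' hx he.2).1 h)
          exact hE.trans g2 (hE.trans (hE.symm hee) (hE.symm g1))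
        · rw [if_neg h1, if_neg h2] at h
          exact hm ((ih hL' hx hy).1 h)
    · intro h
      have hgen : ∀ x y, gen (L ++ [e]) x y → x = y ∨ (x < n ∧ y < n ∧
          (labs n (L ++ [e])).getD x 0 = (labs n (L ++ [e])).getD y 0) := by
        intro x y h
        induction h with
        | rel x y h1 =>
          right
          have h2 := hL _ h1
          refine ⟨h2.1, h2.2, ?_⟩
          rw [key h2.1, key h2.2]
          rw [List.mem_append, List.mem_singleton] at h1
          rcases h1 with h1 | h1
          · have h3 := (ih hL' h2.1 h2.2).2 (Relation.EqvGen.rel _ _ h1)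
            simp only at h3
            rw [h3]
          · have e1 : x = e.1 := by rw [← h1]
            have e2 : y = e.2 := by rw [← h1]
            rw [e1, e2, if_pos rfl]
            split_ifs <;> rfl
        | refl x => exact Or.inl rfl
        | symm x y _ ih' =>
          rcases ih' with ih' | ⟨h1, h2, h3⟩
          · exact Or.inl ih'.symm
          · exact Or.inr ⟨h2, h1, h3.symm⟩
        | trans x y z _ _ ih1 ih2 =>
          rcases ih1 with rfl | ⟨h1, h2, h3⟩
          · exact ih2
          · rcases ih2 with rfl | ⟨h4, h5, h6⟩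
            · exact Or.inr ⟨h1, h2, h3⟩
            · exact Or.inr ⟨h1, h5, h3.trans h6⟩
      rcases hgen x y h with rfl | ⟨_, _, h3⟩
      · rfl
      · exact h3

theorem gen_lt {n : ℕ} {L : List (ℕ × ℕ)} (hL : ∀ e ∈ L, e.1 < n ∧ e.2 < n) {x y : ℕ}
    (h : gen L x y) (hx : x < n) : y < n := by
  have key : ∀ x y, gen L x y → x = y ∨ (x < n ∧ y < n) := by
    intro x y h
    induction h with
    | rel x y h1 => exact Or.inr (hL _ h1)
    | refl x => exact Or.inl rfl
    | symm x y _ ih =>
      rcases ih with ih | ih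
      · exact Or.inl ih.symm
      · exact Or.inr ⟨ih.2, ih.1⟩
    | trans x y z _ _ ih1 ih2 =>
      rcases ih1 with rfl | ih1
      · exact ih2
      · rcases ih2 with rfl | ih2
        · exact Or.inr ih1
        · exact Or.inr ⟨ih1.1, ih2.2⟩
  rcases key x y h with h | h
  · exact h ▸ hx
  · exact h.2

theorem sam_iff {n : ℕ} {L : List (ℕ × ℕ)} (hL : ∀ e ∈ L, e.1 < n ∧ e.2 < n) {x y : ℕ}
    (hx : x < n) (hy : y < n) : sam (labs n L) x y = true ↔ gen L x y := by
  unfold sam
  rw [decide_eq_true_eq, labs_iff n L hL hx hy]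

theorem xad_iff {md : Bool} {M : List (List Bool)} {L : List (ℕ × ℕ)}
    (hL : ∀ e ∈ L, e.1 < M.length ∧ e.2 < M.length) {x y : ℕ} (hx : x < M.length)
    (hy : y < M.length) : xad md M (labs M.length L) x y = true ↔
      XA md (Aj md M) (gen L) x y := by
  unfold xad XA
  rw [Bool.and_eq_true, Bool.not_eq_true', ← Bool.not_eq_true, sam_iff hL hx hy]
  refine and_congr Iff.rfl ?_
  cases md with
  | true =>
    simp only [cond_true, List.all_eq_true, List.mem_range, Bool.or_eq_true, Bool.not_eq_true',
      Bool.and_eq_false_iff]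
    constructor
    · intro h
      refine ⟨fun _ x' y' hx' hy' => ?_, fun h => by simp at h⟩
      have h1 := gen_lt hL hx' hx
      have h2 := gen_lt hL hy' hy
      rcases h x' h1 y' h2 with (h3 | h3) | h3
      · have := (sam_iff hL hx h1).2 hx'
        rw [h3] at this
        simp at this
      · have := (sam_iff hL hy h2).2 hy'
        rw [h3] at this
        simp at this
      · exact h3
    · rintro ⟨h, _⟩ x' h1 y' h2
      cases h3 : sam (labs M.length L) x x' with
      | false => exact Or.inl (Or.inl rfl)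
      | true =>
        cases h4 : sam (labs M.length L) y y' with
        | false => exact Or.inl (Or.inr rfl)
        | true => exact Or.inr (h trivial x' y' ((sam_iff hL hx h1).1 h3) ((sam_iff hL hy h2).1 h4))
  | false =>
    simp only [cond_false, List.any_eq_true, List.mem_range, Bool.and_eq_true]
    constructor
    · rintro ⟨x', h1, y', h2, ⟨h3, h4⟩, h5⟩
      exact ⟨fun h => by simp at h, fun _ => ⟨x', y', (sam_iff hL hx h1).1 h3,
        (sam_iff hL hy h2).1 h4, h5⟩⟩
    · rintro ⟨_, h⟩
      obtain ⟨x', y', h3, h4, h5⟩ := h trivial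
      have h1 := gen_lt hL h3 hx
      have h2 := gen_lt hL h4 hy
      exact ⟨x', h1, y', h2, ⟨(sam_iff hL hx h1).2 h3, (sam_iff hL hy h2).2 h4⟩, h5⟩

/-- The members of a pattern are vertices. -/
theorem pat_lt {md : Bool} {M : List (List Bool)} {L : List (ℕ × ℕ)}
    (hL : ∀ e ∈ L, e.1 < M.length ∧ e.2 < M.length) {x y : ℕ}
    (h : XA md (Aj md M) (gen L) x y) : x < M.length ∧ y < M.length := by
  have hE := gen_equiv L
  cases md with
  | true =>
    have := Aj_iff.1 (h.2.1 rfl x y (hE.refl _) (hE.refl _))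
    exact ⟨this.1, this.2.1⟩
  | false =>
    obtain ⟨x', y', h1, h2, h3⟩ := h.2.2 rfl
    have := Aj_iff.1 h3
    exact ⟨gen_lt hL (hE.symm h1) this.1, gen_lt hL (hE.symm h2) this.2.1⟩

theorem any_iff_pat {md : Bool} {M : List (List Bool)} {L : List (ℕ × ℕ)}
    (hL : ∀ e ∈ L, e.1 < M.length ∧ e.2 < M.length) {c : ℕ} (hc : 0 < c) (P : Bool) :
    (tuples (c + 1) (List.range M.length)).any (fun f => isP (c + 1) P
        (fun x y => xad md M (labs M.length L) x y) (fun x y => sam (labs M.length L) x y) f) =
      true ↔ Pat (CH c (P = true)) (XA md (Aj md M) (gen L)) (gen L) := by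
  rw [List.any_eq_true]
  have e1 : (∃ f ∈ tuples (c + 1) (List.range M.length), isP (c + 1) P
        (fun x y => xad md M (labs M.length L) x y) (fun x y => sam (labs M.length L) x y) f =
          true) ↔ ∃ h : Fin (c + 1) → ℕ, (∀ i j, i ≠ j →
            sam (labs M.length L) (h i) (h j) = false ∧
        (xad md M (labs M.length L) (h i) (h j) = true ↔ CH c (P = true) i j)) ∧
        (∀ i, h i ∈ List.range M.length) := by
    constructor
    · rintro ⟨f, hf, hP⟩
      have hlen := (mem_tuples.1 hf).1
      obtain ⟨h, h1, h2, _⟩ := exists_tuple.1 ⟨f, hf, hP, List.getElem_mem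
        (show 0 < f.length by omega)⟩
      exact ⟨h, h1, h2⟩
    · rintro ⟨h, h1, h2⟩
      obtain ⟨f, hf, hP, _⟩ := exists_tuple.2 ⟨h, h1, h2, 0, rfl⟩
      exact ⟨f, hf, hP⟩
  rw [e1]
  constructor
  · rintro ⟨h, h1, h2⟩
    have h2' : ∀ i, h i < M.length := fun i => List.mem_range.1 (h2 i)
    refine ⟨h, fun i j hij => ?_⟩
    obtain ⟨h3, h4⟩ := h1 i j hij
    rw [← Bool.not_eq_true, sam_iff hL (h2' i) (h2' j)] at h3
    rw [xad_iff hL (h2' i) (h2' j)] at h4
    exact ⟨h3, h4⟩
  · rintro ⟨h, h1⟩
    have h0 : ∀ i, i ≠ 0 → h 0 < M.length ∧ h i < M.length := fun i hi =>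
      pat_lt hL (((h1 0 i hi.symm).2).2 ⟨hi.symm, Or.inl rfl⟩)
    have h2' : ∀ i, h i < M.length := by
      intro i
      by_cases hi : i = 0
      · rw [hi]
        exact (h0 ⟨1, by omega⟩ (fun h => by
          have := congrArg Fin.val h
          simp at this)).1
      · exact (h0 i hi).2
    refine ⟨h, fun i j hij => ?_, fun i => List.mem_range.2 (h2' i)⟩
    rw [← Bool.not_eq_true, sam_iff hL (h2' i) (h2' j), xad_iff hL (h2' i) (h2' j)]
    exact h1 i j hij

/-- Solutions of the problem for two forbidden graphs. -/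
structure Sol (M : List (List Bool)) (k : ℕ) (L : List (ℕ × ℕ)) : Prop where
  len : L.length ≤ k
  ed : ∀ e ∈ L, Aj false M e.1 e.2
  st : ¬ Pat (CH 6 False) (XA false (Aj false M) (gen L)) (gen L)
  cw : ¬ Pat (CH 3 False) (XA true (Aj true M) (gen L)) (gen L)

theorem chk_iff {M : List (List Bool)} {k : ℕ} {L : List (ℕ × ℕ)} :
    chk M k L = true ↔ Sol M k L := by
  unfold chk
  rw [Bool.and_eq_true, Bool.and_eq_true, Bool.and_eq_true, Bool.not_eq_true', Bool.not_eq_true',
    ← Bool.not_eq_true, ← Bool.not_eq_true, decide_eq_true_eq, List.all_eq_true]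
  constructor
  · rintro ⟨⟨h1, h2⟩, h3, h4⟩
    have hL : ∀ e ∈ L, e.1 < M.length ∧ e.2 < M.length := fun e he =>
      ⟨(Aj_iff.1 (h2 e he)).1, (Aj_iff.1 (h2 e he)).2.1⟩
    rw [any_iff_pat hL (by omega)] at h3 h4
    exact ⟨h1, h2, by simpa using h3, by simpa using h4⟩
  · rintro ⟨h1, h2, h3, h4⟩
    have hL : ∀ e ∈ L, e.1 < M.length ∧ e.2 < M.length := fun e he =>
      ⟨(Aj_iff.1 (h2 e he)).1, (Aj_iff.1 (h2 e he)).2.1⟩
    rw [any_iff_pat hL (by omega), any_iff_pat hL (by omega)]
    exact ⟨⟨h1, h2⟩, by simpa using h3, by simpa using h4⟩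

end Pool.Agent.H633R2.Ctr
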