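import Pool.Agent.H633R2.Ctr.AlgD

/-!
# Correctness of the algorithm
-/

namespace Pool.Agent.H633R2.Ctr

section

variable {M : List (List Bool)} {k : ℕ} {L : List (ℕ × ℕ)}

theorem xa_compl (hL : ∀ e ∈ L, e.1 < M.length ∧ e.2 < M.length) {x y : ℕ} (hx : x < M.length)
    (hy : y < M.length) (hxy : ¬ gen L x y) :
    XA true (Aj true M) (gen L) x y ↔ ¬ XA false (Aj false M) (gen L) x y := by
  constructor
  · rintro ⟨_, h1, _⟩ ⟨_, _, h2⟩
    obtain ⟨x', y', h3, h4, h5⟩ := h2 rfl
    have h6 := Aj_iff.1 h5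
    exact (Aj_compl h6.1 h6.2.1 h6.2.2.1).1 (h1 rfl x' y' h3 h4) h5
  · intro h
    refine ⟨hxy, fun _ x' y' h3 h4 => ?_, fun h => by simp at h⟩
    have hne : x' ≠ y' := by
      rintro rfl
      exact hxy ((gen_equiv L).trans h3 ((gen_equiv L).symm h4))
    rw [Aj_compl (gen_lt hL h3 hx) (gen_lt hL h4 hy) hne]
    exact fun h5 => h ⟨hxy, fun h => by simp at h, fun _ => ⟨x', y', h3, h4, h5⟩⟩

theorem Sol.lt (h : Sol M k L) : ∀ e ∈ L, e.1 < M.length ∧ e.2 < M.length := fun e he =>
  ⟨(Aj_iff.1 (h.ed e he)).1, (Aj_iff.1 (h.ed e he)).2.1⟩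

/-- The structure of quotients with many vertices. -/
theorem Sol.structure' {N : ℕ} (hN : RamseyNum 19 19 N) (h : Sol M k L)
    (hn : N + 2 * k ≤ M.length) : ¬ Pat (CH 2 True) (XA false (Aj false M) (gen L)) (gen L) ∨
      ¬ Pat (CH 5 True) (XA true (Aj true M) (gen L)) (gen L) := by
  classical
  by_contra hcon
  push Not at hcon
  obtain ⟨⟨f, hf⟩, g, hg⟩ := hcon
  have hL := h.lt
  have hE := gen_equiv L
  have hf' : ∀ i j, i ≠ j → ¬ gen L (f i) (f j) ∧ XA false (Aj false M) (gen L) (f i) (f j) :=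
    fun i j hij => ⟨(hf i j hij).1, (hf i j hij).2.2 ⟨hij, Or.inr (Or.inr trivial)⟩⟩
  have hg' : ∀ i j, i ≠ j → ¬ gen L (g i) (g j) ∧ XA true (Aj true M) (gen L) (g i) (g j) :=
    fun i j hij => ⟨(hg i j hij).1, (hg i j hij).2.2 ⟨hij, Or.inr (Or.inr trivial)⟩⟩
  have hfl : ∀ i, f i < M.length := by
    intro i
    by_cases hi : i = 0
    · rw [hi]; exact (pat_lt hL (hf' 0 1 (by decide)).2).1
    · exact (pat_lt hL (hf' 0 i (Ne.symm hi)).2).2
  have hgl : ∀ i, g i < M.length := by
    intro i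
    by_cases hi : i = 0
    · rw [hi]; exact (pat_lt hL (hg' 0 1 (by decide)).2).1
    · exact (pat_lt hL (hg' 0 i (Ne.symm hi)).2).2
  have hScard : N ≤ (Finset.range M.length \ tch L).card := by
    have h1 := Finset.le_card_sdiff (tch L) (Finset.range M.length)
    rw [Finset.card_range] at h1
    have h2 := card_tch L
    have h3 := h.len
    omega
  have hunt : ∀ x ∈ Finset.range M.length \ tch L, x < M.length ∧ ∀ z, gen L x z → x = z := by
    intro x hx
    rw [Finset.mem_sdiff, Finset.mem_range] at hx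
    exact ⟨hx.1, fun z => gen_single hx.2⟩
  rcases hN (Aj false M) Aj_symm _ hScard with ⟨K, hKS, hKc, hKA⟩ | ⟨K, hKS, hKc, hKA⟩
  · -- a large clique
    have hbad : ∀ i : Fin 6, (K.filter (fun x => gen L x (g i) ∨
        XA true (Aj true M) (gen L) (g i) x)).card ≤ 3 := by
      intro i
      have h1 : (K.filter (fun x => gen L x (g i))).card ≤ 1 := by
        rw [Finset.card_le_one]
        intro x hx y hy
        rw [Finset.mem_filter] at hx hy
        exact (hunt x (hKS hx.1)).2 _ (hE.trans hx.2 (hE.symm hy.2))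
      have h2 : (K.filter (fun x => XA true (Aj true M) (gen L) (g i) x)).card ≤ 2 := by
        by_contra hc
        push Not at hc
        obtain ⟨K', hK', hK'c⟩ := Finset.exists_subset_card_eq (show 3 ≤ _ from hc)
        refine h.cw (pat_of_nbrs Aj_symm hE (g i) K' hK'c False
          (fun y hy => (hunt y (hKS (Finset.mem_filter.1 (hK' hy)).1)).2)
          (fun y hy => (Finset.mem_filter.1 (hK' hy)).2) fun y hy z hz hyz => ?_)
        have hy' := (Finset.mem_filter.1 (hK' hy)).1
        have hz' := (Finset.mem_filter.1 (hK' hz)).1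
        refine iff_of_false (fun hc => ?_) id
        exact (Aj_compl (hunt y (hKS hy')).1 (hunt z (hKS hz')).1 hyz).1 hc (hKA y hy' z hz' hyz)
      rw [Finset.filter_or]
      exact (Finset.card_union_le _ _).trans (Nat.add_le_add h1 h2)
    obtain ⟨x, hxK, hx⟩ : ∃ x ∈ K, ∀ i : Fin 6, ¬ gen L x (g i) ∧
        ¬ XA true (Aj true M) (gen L) (g i) x := by
      by_contra hc
      push Not at hc
      have hsub : K ⊆ (Finset.univ : Finset (Fin 6)).biUnion (fun i => K.filter (fun x =>
          gen L x (g i) ∨ XA true (Aj true M) (gen L) (g i) x)) := by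
        intro x hx
        obtain ⟨i, hi⟩ := hc x hx
        rw [Finset.mem_biUnion]
        refine ⟨i, Finset.mem_univ _, Finset.mem_filter.2 ⟨hx, ?_⟩⟩
        by_cases h1 : gen L x (g i)
        · exact Or.inl h1
        · exact Or.inr (hi h1)
      have h1 := (Finset.card_le_card hsub).trans
        (Finset.card_biUnion_le_card_mul _ _ 3 (fun i _ => hbad i))
      rw [hKc] at h1
      simp at h1
    have hxl := (hunt x (hKS hxK)).1
    refine h.st ⟨Fin.cons x g, fun i j => ?_⟩
    refine Fin.cases ?_ (fun i => ?_) i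
    · refine Fin.cases ?_ (fun j => ?_) j
      · intro h; exact absurd rfl h
      · intro _
        rw [Fin.cons_zero, Fin.cons_succ]
        refine ⟨(hx j).1, iff_of_true ?_ ⟨(Fin.succ_ne_zero j).symm, Or.inl rfl⟩⟩
        by_contra hc
        refine (hx j).2 (XA.symm' Aj_symm hE ?_)
        exact (xa_compl hL hxl (hgl j) (hx j).1).2 hc
    · refine Fin.cases ?_ (fun j => ?_) j
      · intro _
        rw [Fin.cons_zero, Fin.cons_succ]
        refine ⟨fun h => (hx i).1 (hE.symm h), iff_of_true ?_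
          ⟨Fin.succ_ne_zero i, Or.inr (Or.inl rfl)⟩⟩
        by_contra hc
        exact (hx i).2 ((xa_compl hL (hgl i) hxl (fun h => (hx i).1 (hE.symm h))).2 hc)
      · intro hij
        have hij' : i ≠ j := fun h => hij (by rw [h])
        rw [Fin.cons_succ, Fin.cons_succ]
        refine ⟨(hg' i j hij').1, iff_of_false ?_ ?_⟩
        · exact (xa_compl hL (hgl i) (hgl j) (hg' i j hij').1).1 (hg' i j hij').2
        · rintro ⟨_, h | h | h⟩
          · exact Fin.succ_ne_zero i h
          · exact Fin.succ_ne_zero j h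
          · exact h
  · -- a large independent set
    have hbad : ∀ i : Fin 3, (K.filter (fun x => gen L x (f i) ∨
        XA false (Aj false M) (gen L) (f i) x)).card ≤ 6 := by
      intro i
      have h1 : (K.filter (fun x => gen L x (f i))).card ≤ 1 := by
        rw [Finset.card_le_one]
        intro x hx y hy
        rw [Finset.mem_filter] at hx hy
        exact (hunt x (hKS hx.1)).2 _ (hE.trans hx.2 (hE.symm hy.2))
      have h2 : (K.filter (fun x => XA false (Aj false M) (gen L) (f i) x)).card ≤ 5 := by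
        by_contra hc
        push Not at hc
        obtain ⟨K', hK', hK'c⟩ := Finset.exists_subset_card_eq (show 6 ≤ _ from hc)
        refine h.st (pat_of_nbrs Aj_symm hE (f i) K' hK'c False
          (fun y hy => (hunt y (hKS (Finset.mem_filter.1 (hK' hy)).1)).2)
          (fun y hy => (Finset.mem_filter.1 (hK' hy)).2) fun y hy z hz hyz => ?_)
        have hy' := (Finset.mem_filter.1 (hK' hy)).1
        have hz' := (Finset.mem_filter.1 (hK' hz)).1
        exact iff_of_false (hKA y hy' z hz' hyz) id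
      rw [Finset.filter_or]
      exact (Finset.card_union_le _ _).trans (Nat.add_le_add h1 h2)
    obtain ⟨x, hxK, hx⟩ : ∃ x ∈ K, ∀ i : Fin 3, ¬ gen L x (f i) ∧
        ¬ XA false (Aj false M) (gen L) (f i) x := by
      by_contra hc
      push Not at hc
      have hsub : K ⊆ (Finset.univ : Finset (Fin 3)).biUnion (fun i => K.filter (fun x =>
          gen L x (f i) ∨ XA false (Aj false M) (gen L) (f i) x)) := by
        intro x hx
        obtain ⟨i, hi⟩ := hc x hx
        rw [Finset.mem_biUnion]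
        refine ⟨i, Finset.mem_univ _, Finset.mem_filter.2 ⟨hx, ?_⟩⟩
        by_cases h1 : gen L x (f i)
        · exact Or.inl h1
        · exact Or.inr (hi h1)
      have h1 := (Finset.card_le_card hsub).trans
        (Finset.card_biUnion_le_card_mul _ _ 6 (fun i _ => hbad i))
      rw [hKc] at h1
      simp at h1
    have hxl := (hunt x (hKS hxK)).1
    refine h.cw ⟨Fin.cons x f, fun i j => ?_⟩
    refine Fin.cases ?_ (fun i => ?_) i
    · refine Fin.cases ?_ (fun j => ?_) j
      · intro h; exact absurd rfl h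
      · intro _
        rw [Fin.cons_zero, Fin.cons_succ]
        refine ⟨(hx j).1, iff_of_true ?_ ⟨(Fin.succ_ne_zero j).symm, Or.inl rfl⟩⟩
        exact (xa_compl hL hxl (hfl j) (hx j).1).2 (fun hc => (hx j).2 (XA.symm' Aj_symm hE hc))
    · refine Fin.cases ?_ (fun j => ?_) j
      · intro _
        rw [Fin.cons_zero, Fin.cons_succ]
        refine ⟨fun h => (hx i).1 (hE.symm h), iff_of_true ?_
          ⟨Fin.succ_ne_zero i, Or.inr (Or.inl rfl)⟩⟩
        exact (xa_compl hL (hfl i) hxl (fun h => (hx i).1 (hE.symm h))).2 (hx i).2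
      · intro hij
        have hij' : i ≠ j := fun h => hij (by rw [h])
        rw [Fin.cons_succ, Fin.cons_succ]
        refine ⟨(hf' i j hij').1, iff_of_false ?_ ?_⟩
        · rw [xa_compl hL (hfl i) (hfl j) (hf' i j hij').1, not_not]
          exact (hf' i j hij').2
        · rintro ⟨_, h | h | h⟩
          · exact Fin.succ_ne_zero i h
          · exact Fin.succ_ne_zero j h
          · exact h

theorem Sol.good_false (h : Sol M k L) {Vs : Finset ℕ}
    (hc : ¬ Pat (CH 2 True) (XA false (Aj false M) (gen L)) (gen L)) :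
    Good false (Aj false M) Vs 2 6 k L :=
  ⟨fun e he => ⟨fun h => by simp at h, fun _ => h.ed e he⟩, h.len, hc, h.st⟩

theorem Sol.good_true (h : Sol M k L) {Vs : Finset ℕ} (hV : ∀ x, x < M.length → x ∈ Vs)
    (hc : ¬ Pat (CH 5 True) (XA true (Aj true M) (gen L)) (gen L)) :
    Good true (Aj true M) Vs 5 3 k L :=
  ⟨fun e he => ⟨fun _ => by
    have h1 := Aj_iff.1 (h.ed e he)
    exact ⟨hV _ h1.1, hV _ h1.2.1, h1.2.2.1, fun h2 =>
      (Aj_compl h1.1 h1.2.1 h1.2.2.1).1 h2 (h.ed e he)⟩, fun h => by simp at h⟩, h.len, hc, h.cw⟩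

theorem Sol.of_good_false {Vs : Finset ℕ} (h : Good false (Aj false M) Vs 2 6 k L) :
    Sol M k L := by
  have hed : ∀ e ∈ L, Aj false M e.1 e.2 := fun e he => (h.ed e he).2 rfl
  have hL : ∀ e ∈ L, e.1 < M.length ∧ e.2 < M.length := fun e he =>
    ⟨(Aj_iff.1 (hed e he)).1, (Aj_iff.1 (hed e he)).2.1⟩
  refine ⟨h.len, hed, h.st, ?_⟩
  rintro ⟨f, hf⟩
  apply h.cl
  have hl : ∀ i : Fin 3, f i.succ < M.length := fun i =>
    (pat_lt hL ((hf 0 i.succ (Fin.succ_ne_zero i).symm).2.2
      ⟨(Fin.succ_ne_zero i).symm, Or.inl rfl⟩)).2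
  refine ⟨fun i => f i.succ, fun i j hij => ?_⟩
  have hij' : i.succ ≠ j.succ := fun h => hij (Fin.succ_injective _ h)
  obtain ⟨h1, h2⟩ := hf i.succ j.succ hij'
  refine ⟨h1, iff_of_true ?_ ⟨hij, Or.inr (Or.inr trivial)⟩⟩
  have h3 : ¬ XA true (Aj true M) (gen L) (f i.succ) (f j.succ) := by
    rw [h2]
    rintro ⟨_, h | h | h⟩
    · exact Fin.succ_ne_zero i h
    · exact Fin.succ_ne_zero j h
    · exact h
  rwa [xa_compl hL (hl i) (hl j) h1, not_not] at h3

theorem Sol.of_good_true {Vs : Finset ℕ} (hV : ∀ x ∈ Vs, x < M.length)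
    (h : Good true (Aj true M) Vs 5 3 k L) : Sol M k L := by
  have hed : ∀ e ∈ L, Aj false M e.1 e.2 := by
    intro e he
    obtain ⟨h1, h2, h3, h4⟩ := (h.ed e he).1 rfl
    by_contra hc
    exact h4 ((Aj_compl (hV _ h1) (hV _ h2) h3).2 hc)
  have hL : ∀ e ∈ L, e.1 < M.length ∧ e.2 < M.length := fun e he =>
    ⟨(Aj_iff.1 (hed e he)).1, (Aj_iff.1 (hed e he)).2.1⟩
  refine ⟨h.len, hed, ?_, h.st⟩
  rintro ⟨f, hf⟩
  apply h.cl
  have hl : ∀ i : Fin 6, f i.succ < M.length := fun i =>
    (pat_lt hL ((hf 0 i.succ (Fin.succ_ne_zero i).symm).2.2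
      ⟨(Fin.succ_ne_zero i).symm, Or.inl rfl⟩)).2
  refine ⟨fun i => f i.succ, fun i j hij => ?_⟩
  have hij' : i.succ ≠ j.succ := fun h => hij (Fin.succ_injective _ h)
  obtain ⟨h1, h2⟩ := hf i.succ j.succ hij'
  refine ⟨h1, iff_of_true ?_ ⟨hij, Or.inr (Or.inr trivial)⟩⟩
  rw [xa_compl hL (hl i) (hl j) h1, h2]
  rintro ⟨_, h | h | h⟩
  · exact Fin.succ_ne_zero i h
  · exact Fin.succ_ne_zero j h
  · exact h

theorem prs_length (M : List (List Bool)) (W : List ℕ) : (prs M W).length ≤ W.length ^ 2 := by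
  unfold prs
  refine (List.length_filter_le _ _).trans ?_
  simp [List.length_flatMap, sq]

theorem mem_prs {M : List (List Bool)} {W : List ℕ} {e : ℕ × ℕ} (h1 : e.1 ∈ W) (h2 : e.2 ∈ W)
    (h3 : Aj false M e.1 e.2) : e ∈ prs M W := by
  unfold prs
  exact List.mem_filter.2 ⟨List.mem_flatMap.2 ⟨e.1, h1, List.mem_map.2 ⟨e.2, h2, rfl⟩⟩, h3⟩

theorem mem_enu_of {W : List ℕ} {cap B : ℕ} (hW : W.length ≤ B)
    (hcap : (B ^ 2 + 1) ^ k ≤ cap) (hlen : L.length ≤ k) (hed : ∀ e ∈ L, Aj false M e.1 e.2)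
    (hLW : ∀ x ∈ tch L, x ∈ W) : L ∈ enu (prs M W) cap k := by
  refine (enu_spec (prs M W) cap k ?_).2 L hlen fun e he => mem_prs
    (hLW _ (mem_tch.2 ⟨e, he, Or.inl rfl⟩)) (hLW _ (mem_tch.2 ⟨e, he, Or.inr rfl⟩)) (hed e he)
  refine le_trans (Nat.pow_le_pow_left ?_ k) hcap
  exact Nat.add_le_add_right ((prs_length M W).trans (Nat.pow_le_pow_left hW 2)) 1

end

/-- The algorithm is correct. -/
theorem alg_spec {N r1 r2 : ℕ} (hN : RamseyNum 19 19 N) (h1 : RamseyNum 2 6 r1)
    (h2 : RamseyNum 5 3 r2) (M : List (List Bool)) (k cap : ℕ)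
    (hc0 : ((N + 2 * k) ^ 2 + 1) ^ k ≤ cap) (hc1 : ((Wb r1 k) ^ 2 + 1) ^ k ≤ cap)
    (hc2 : ((Wb r2 k) ^ 2 + 1) ^ k ≤ cap) :
    alg N r1 r2 M k cap = true ↔ ∃ L, Sol M k L := by
  unfold alg
  rw [List.any_eq_true]
  constructor
  · rintro ⟨L, _, hL⟩
    exact ⟨L, chk_iff.1 hL⟩
  · rintro ⟨L, hL⟩
    have hRB : ∀ md r x, x ∈ (rl md M (r + 2 * k)).toFinset ∪ (bl md M (r + 2 * k)).toFinset ↔
        x < M.length := by
      intro md r x
      rw [Finset.mem_union, List.mem_toFinset, List.mem_toFinset, mem_rl, mem_bl]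
      omega
    by_cases hn : M.length < N + 2 * k
    · refine ⟨L, ?_, chk_iff.2 hL⟩
      rw [List.mem_append]
      left
      rw [show decide (M.length < N + 2 * k) = true from decide_eq_true hn, cond_true]
      refine mem_enu_of (B := N + 2 * k) (by rw [List.length_range]; omega) hc0 hL.len hL.ed ?_
      intro x hx
      obtain ⟨e, he, h | h⟩ := mem_tch.1 hx
      · rw [h, List.mem_range]; exact (hL.lt e he).1
      · rw [h, List.mem_range]; exact (hL.lt e he).2
    · push Not at hn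
      rcases hL.structure' hN hn with h | h
      · have S := setting (md := false) (M := M) (k := k) (by omega : 0 < 2) (by omega : 0 < 6) h1
        have hG : Good false (Aj false M) ((rl false M (r1 + 2 * k)).toFinset ∪
          (bl false M (r1 + 2 * k)).toFinset) 2 6 k L := hL.good_false h
        obtain ⟨L', hL', hW⟩ := exchange S cand _ L hG rfl
        have hS := Sol.of_good_false hL'
        refine ⟨L', ?_, chk_iff.2 hS⟩
        rw [List.mem_append, List.mem_append]
        refine Or.inr (Or.inl (mem_enu_of (wset_length S hL') hc1 hS.len hS.ed ?_))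
        exact fun x hx => List.mem_toFinset.1 (hW x hx)
      · have S := setting (md := true) (M := M) (k := k) (by omega : 0 < 5) (by omega : 0 < 3) h2
        have hG : Good true (Aj true M) ((rl true M (r2 + 2 * k)).toFinset ∪
          (bl true M (r2 + 2 * k)).toFinset) 5 3 k L :=
          hL.good_true (fun x hx => (hRB _ _ _).2 hx) h
        obtain ⟨L', hL', hW⟩ := exchange S cand _ L hG rfl
        have hS := Sol.of_good_true (fun x hx => (hRB _ _ _).1 hx) hL'
        refine ⟨L', ?_, chk_iff.2 hS⟩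
        rw [List.mem_append, List.mem_append]
        refine Or.inr (Or.inr (mem_enu_of (wset_length S hL') hc2 hS.len hS.ed ?_))
        exact fun x hx => List.mem_toFinset.1 (hW x hx)

end Pool.Agent.H633R2.Ctr
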