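import Pool.Agent.H633R2.Ctr.AlgPoly

/-!
# The problem for the two forbidden graphs is fixed-parameter tractable
-/

namespace Pool.Agent.NPC.H633

open Pool.Agent.H633R2 Pool.Agent.H633R2.Ctr

/-- A bound for powers. -/
def pw (x y : ℕ) : ℕ := 2 ^ (x * y)

theorem le_pw (x y : ℕ) : x ^ y ≤ pw x y := by
  unfold pw
  rw [pow_mul]
  exact Nat.pow_le_pow_left Nat.lt_two_pow_self.le y

/-- A bound for the number of codes. -/
def ncu (w : ℕ) : ℕ := pw (pw 3 w + 1) w

theorem ncd_le (w : ℕ) : ncd w ≤ ncu w := by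
  unfold ncd ncu
  exact (Nat.pow_le_pow_left (Nat.add_le_add_right (le_pw 3 w) 1) w).trans (le_pw _ _)

theorem pw_mono {x x' y y' : ℕ} (hx : x ≤ x') (hy : y ≤ y') : pw x y ≤ pw x' y' :=
  Nat.pow_le_pow_right (by omega) (Nat.mul_le_mul hx hy)

theorem ncu_mono {w w' : ℕ} (h : w ≤ w') : ncu w ≤ ncu w' :=
  pw_mono (Nat.add_le_add_right (pw_mono le_rfl h) 1) h

/-- A bound for the size of the candidate set. -/
def Wu (r k : ℕ) : ℕ :=
  2 * k + (2 * k * pw (r + 2 * k + 1) 2 + 2 ^ (2 * k) * (r + 2 * k)) *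
      pw (r + 2 * k + 1) (12 * k + 6) +
    ((2 * k + 1) * ncu (1 + pw (r + 2 * k + 1) (12 * k + 6) + 2 * k)) *
      pw (r + 2 * k + 1) (2 * (12 * k + 6))

theorem Wb_le (r k : ℕ) : Wb r k ≤ Wu r k := by
  unfold Wb Wu
  refine Nat.add_le_add (Nat.add_le_add le_rfl ?_) ?_
  · refine Nat.mul_le_mul (Nat.add_le_add_right (Nat.mul_le_mul_left _ (le_pw _ _)) _) (le_pw _ _)
  · refine Nat.mul_le_mul (Nat.mul_le_mul_left _ ((ncd_le _).trans (ncu_mono ?_))) (le_pw _ _)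
    exact Nat.add_le_add_right (Nat.add_le_add_left (le_pw _ _) _) _

/-- The bound for the number of candidates. -/
def capb (N r1 r2 k : ℕ) : ℕ :=
  pw ((N + 2 * k) * (N + 2 * k) + 1) k + pw (Wu r1 k * Wu r1 k + 1) k +
    pw (Wu r2 k * Wu r2 k + 1) k

theorem pow_sq_le {x y : ℕ} (h : x ≤ y) (k : ℕ) : (x ^ 2 + 1) ^ k ≤ pw (y * y + 1) k := by
  refine (Nat.pow_le_pow_left ?_ k).trans (le_pw _ _)
  rw [sq]
  exact Nat.add_le_add_right (Nat.mul_le_mul h h) 1

theorem UF.pw {F G : ℕ → ℕ} (hF : UF F) (hG : UF G) : UF (fun n => pw (F n) (G n)) :=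
  UF.two_pow (UF.mul hF hG)

theorem UF.ncu {F : ℕ → ℕ} (hF : UF F) : UF (fun n => ncu (F n)) :=
  UF.pw (UF.add (UF.pw (UF.const 3) hF) (UF.const 1)) hF

theorem UF.Wu (r : ℕ) : UF (fun k => Wu r k) := by
  have h2k : UF (fun k => 2 * k) := UF.mul (UF.const 2) UF.id
  have hD : UF (fun k => r + 2 * k) := UF.add (UF.const r) h2k
  have hD1 : UF (fun k => r + 2 * k + 1) := UF.add hD (UF.const 1)
  have hρ : UF (fun k => 12 * k + 6) := UF.add (UF.mul (UF.const 12) UF.id) (UF.const 6)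
  have hs := UF.pw hD1 hρ
  unfold H633.Wu
  refine UF.add (UF.add h2k (UF.mul (UF.add (UF.mul h2k (UF.pw hD1 (UF.const 2)))
    (UF.mul (UF.two_pow h2k) hD)) hs)) (UF.mul (UF.mul (UF.add h2k (UF.const 1)) (UF.ncu ?_))
      (UF.pw hD1 (UF.mul (UF.const 2) hρ)))
  exact UF.add (UF.add (UF.const 1) hs) h2k

theorem UF.capb (N r1 r2 : ℕ) : UF (fun k => capb N r1 r2 k) := by
  have h2k : UF (fun k => 2 * k) := UF.mul (UF.const 2) UF.id
  have hN : UF (fun k => N + 2 * k) := UF.add (UF.const N) h2k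
  have hW : ∀ r, UF (fun k => H633.pw (H633.Wu r k * H633.Wu r k + 1) k) := fun r =>
    UF.pw (UF.add (UF.mul (UF.Wu r) (UF.Wu r)) (UF.const 1)) UF.id
  unfold H633.capb
  exact UF.add (UF.add (UF.pw (UF.add (UF.mul hN hN) (UF.const 1)) UF.id) (hW r1)) (hW r2)

/-- The problem for the two forbidden graphs is fixed-parameter tractable. -/
theorem isFpt_sol : IsFpt (fun x : List (List Bool) × ℕ => x.2)
    (fun x => ∃ L, Sol x.1 x.2 L) := by
  obtain ⟨N, hN⟩ := ramsey 19 19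
  obtain ⟨r1, h1⟩ := ramsey 2 6
  obtain ⟨r2, h2⟩ := ramsey 5 3
  refine ⟨fun x => alg N r1 r2 x.1 x.2 (capb N r1 r2 x.2), ?_, fun x => ?_⟩
  · have hp : Poly (fun y : (List (List Bool) × ℕ) × List Unit × List Unit =>
        alg N r1 r2 y.1.1 y.2.1.length y.2.2.length) :=
      poly_alg N r1 r2 (Poly.fst (Poly.fst Poly.id)) (UPoly.length (Poly.fst (Poly.snd Poly.id)))
        (UPoly.length (Poly.snd (Poly.snd Poly.id)))
    have hk : Poly (fun x : List (List Bool) × ℕ => x.2) := Poly.snd Poly.id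
    have h3 := FptTime.poly_comp hp ((FptTime.of_poly (κ := fun x : List (List Bool) × ℕ => x.2)
      Poly.id).pair ((UF.pad UF.id hk).pair (UF.pad (UF.capb N r1 r2) hk)))
    simpa only [List.length_replicate] using h3
  · refine alg_spec hN h1 h2 x.1 x.2 _ ?_ ?_ ?_
    · have := pow_sq_le (le_refl (N + 2 * x.2)) x.2
      unfold H633.capb
      omega
    · have := pow_sq_le (Wb_le r1 x.2) x.2
      unfold H633.capb
      omega
    · have := pow_sq_le (Wb_le r2 x.2) x.2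
      unfold H633.capb
      omega

end Pool.Agent.NPC.H633
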