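import Pool.Agent.H633R2.Ctr.AlgE
import Pool.Agent.H633R2.FptPad

/-!
# The algorithm runs in polynomial time in the size of the padded input
-/

namespace Pool.Agent.NPC.H633

open Pool.Agent.H633R2 Pool.Agent.H633R2.Ctr

section

variable {α β : Type} [TEnc α] [TEnc β]

theorem sz_filter_le (p : β → Bool) (l : List β) : sz (l.filter p) ≤ sz l := by
  induction l with
  | nil => simp
  | cons b l ih =>
    cases h : p b
    · rw [List.filter_cons_of_neg (by simpa using h)]
      simp only [sz_list_cons]
      omega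
    · rw [List.filter_cons_of_pos h]
      simp only [sz_list_cons]
      omega

theorem poly_ent {M : α → List (List Bool)} {i j : α → ℕ} (hM : Poly M) (hi : Poly i)
    (hj : Poly j) : Poly (fun a => entry (M a) (i a) (j a)) :=
  Poly.getD (Poly.getD hM hi (Poly.const [])) hj (Poly.const false)

theorem Poly.iterU {s : α → β} {F : α → β → β} {n : α → ℕ} (hn : UPoly n) (hs : Poly s)
    (hF : Poly (fun p : α × β => F p.1 p.2)) (q : Polynomial ℕ)
    (hq : ∀ a, ∀ k ≤ n a, sz ((F a)^[k] (s a)) ≤ q.eval (sz a)) :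
    Poly (fun a => (F a)^[n a] (s a)) := by
  have h : Poly (fun a => (F a)^[(List.replicate (n a) ()).length] (s a)) :=
    Poly.iterLen (l := fun a => List.replicate (n a) ()) hn hs hF q
      (fun a k hk => hq a k (by simpa using hk))
  exact h.congr fun a => by rw [List.length_replicate]

variable {M : α → List (List Bool)} {R B S Z : α → List ℕ} {x y D t : α → ℕ} {j k : α → ℕ}

theorem poly_adj (md : Bool) (hM : Poly M) (hx : Poly x) (hy : Poly y) :
    Poly (fun a => adj md (M a) (x a) (y a)) := by
  unfold adj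
  exact Poly.and (Poly.decide_lt hx (Poly.length hM)) (Poly.and (Poly.decide_lt hy (Poly.length hM))
    (Poly.and (Poly.not (Poly.decide_eq hx hy)) (Poly.xor (Poly.or (poly_ent hM hx hy)
      (poly_ent hM hy hx)) (Poly.const md))))

theorem p1 {γ : Type} [TEnc γ] : Poly (fun q : α × γ => q.1) := Poly.fst Poly.id

theorem p2 {γ : Type} [TEnc γ] : Poly (fun q : α × γ => q.2) := Poly.snd Poly.id

theorem poly_dgr (md : Bool) (hM : Poly M) (hx : Poly x) : Poly (fun a => dgr md (M a) (x a)) := by
  unfold dgr
  exact Poly.length (Poly.filter (p := fun a y => adj md (M a) (x a) y) (Poly.range_length hM)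
    (poly_adj md (hM.comp p1) (hx.comp p1) p2))

theorem poly_rl (md : Bool) (hM : Poly M) (hD : Poly D) : Poly (fun a => rl md (M a) (D a)) := by
  unfold rl
  exact Poly.filter (p := fun a x => decide (dgr md (M a) x ≤ D a)) (Poly.range_length hM)
    (Poly.decide_le (poly_dgr md (hM.comp p1) p2) (hD.comp p1))

theorem poly_bl (md : Bool) (hM : Poly M) (hD : Poly D) : Poly (fun a => bl md (M a) (D a)) := by
  unfold bl
  exact Poly.filter (p := fun a x => decide (D a < dgr md (M a) x)) (Poly.range_length hM)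
    (Poly.decide_lt (hD.comp p1) (poly_dgr md (hM.comp p1) p2))

theorem poly_grow (md : Bool) (hM : Poly M) (hR : Poly R) (hS : Poly S) :
    Poly (fun a => grow md (M a) (R a) (S a)) := by
  unfold grow
  refine Poly.filter (p := fun a x => decide (x ∈ S a) || (S a).any (fun y => adj md (M a) y x))
    hR (Poly.or (Poly.decide_mem p2 (hS.comp p1)) ?_)
  exact Poly.any (α := α × ℕ) (p := fun q y => adj md (M q.1) y q.2) (hS.comp p1)
    (poly_adj md (hM.comp (p1.comp p1)) p2 (p2.comp p1))

theorem poly_bal (md : Bool) (hM : Poly M) (hR : Poly R) (hj : UPoly j) (hS : Poly S) :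
    Poly (fun a => bal md (M a) (R a) (j a) (S a)) := by
  unfold bal
  obtain ⟨r, hr⟩ := hR.sz_le
  refine Poly.iterU (s := fun a => (R a).filter (fun x => decide (x ∈ S a)))
    (F := fun a s => grow md (M a) (R a) s) hj
    (Poly.filter (p := fun a x => decide (x ∈ S a)) hR (Poly.decide_mem p2 (hS.comp p1)))
    (poly_grow md (hM.comp p1) (hR.comp p1) p2) r ?_
  intro a k _
  cases k with
  | zero => exact (sz_filter_le _ _).trans (hr a)
  | succ k =>
    rw [Function.iterate_succ_apply']
    exact (sz_filter_le _ _).trans (hr a)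

theorem poly_tuples (m : ℕ) (hR : Poly R) : Poly (fun a => tuples m (R a)) := by
  induction m with
  | zero => exact Poly.const _
  | succ m ih =>
    simp only [tuples]
    refine Poly.flatMap (F := fun a x => (tuples m (R a)).map (fun t => x :: t)) hR ?_
    exact Poly.map (α := α × ℕ) (F := fun q t => q.2 :: t) (ih.comp p1)
      (Poly.cons (p2.comp p1) p2)

theorem poly_isP (m : ℕ) (P : Bool) {X Y : α → ℕ → ℕ → Bool} {f : α → List ℕ}
    (hX : Poly (fun q : α × ℕ × ℕ => X q.1 q.2.1 q.2.2))
    (hY : Poly (fun q : α × ℕ × ℕ => Y q.1 q.2.1 q.2.2)) (hf : Poly f) :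
    Poly (fun a => isP m P (X a) (Y a) (f a)) := by
  unfold isP
  refine Poly.all (p := fun a i => (List.range m).all (fun j => decide (i = j) ||
    (!(Y a ((f a).getD i 0) ((f a).getD j 0)) &&
      !(X a ((f a).getD i 0) ((f a).getD j 0) ^^ (decide (i = 0) || (decide (j = 0) || P))))))
    (Poly.const _) ?_
  refine Poly.all (α := α × ℕ) (p := fun q j => decide (q.2 = j) ||
    (!(Y q.1 ((f q.1).getD q.2 0) ((f q.1).getD j 0)) &&
      !(X q.1 ((f q.1).getD q.2 0) ((f q.1).getD j 0) ^^
        (decide (q.2 = 0) || (decide (j = 0) || P)))))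
    (Poly.const _) ?_
  have ha : Poly (fun q : (α × ℕ) × ℕ => q.1.1) := p1.comp p1
  have hi : Poly (fun q : (α × ℕ) × ℕ => q.1.2) := p2.comp p1
  have hj : Poly (fun q : (α × ℕ) × ℕ => q.2) := p2
  have hfi : Poly (fun q : (α × ℕ) × ℕ => (f q.1.1).getD q.1.2 0) :=
    Poly.getD (hf.comp ha) hi (Poly.const 0)
  have hfj : Poly (fun q : (α × ℕ) × ℕ => (f q.1.1).getD q.2 0) :=
    Poly.getD (hf.comp ha) hj (Poly.const 0)
  refine Poly.or (Poly.decide_eq hi hj) (Poly.and (Poly.not ?_) (Poly.not (Poly.xor ?_ ?_)))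
  · exact hY.comp (f := fun q : (α × ℕ) × ℕ =>
      (q.1.1, ((f q.1.1).getD q.1.2 0, (f q.1.1).getD q.2 0))) (Poly.pair ha (Poly.pair hfi hfj))
  · exact hX.comp (f := fun q : (α × ℕ) × ℕ =>
      (q.1.1, ((f q.1.1).getD q.1.2 0, (f q.1.1).getD q.2 0))) (Poly.pair ha (Poly.pair hfi hfj))
  · exact Poly.or (Poly.decide_eq hi (Poly.const 0)) (Poly.or (Poly.decide_eq hj (Poly.const 0))
      (Poly.const P))

theorem poly_yob (a' b' : ℕ) (md : Bool) (hM : Poly M) (hR : Poly R) :
    Poly (fun a => yob a' b' md (M a) (R a)) := by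
  have key : ∀ (m : ℕ) (P : Bool), Poly (fun a => ((tuples m (R a)).filter (fun f => isP m P
      (fun x y => adj md (M a) x y) (fun x y => decide (x = y)) f)).flatten) := by
    intro m P
    refine Poly.flatten (Poly.filter (p := fun a f => isP m P
      (fun x y => adj md (M a) x y) (fun x y => decide (x = y)) f) (poly_tuples m hR) ?_)
    refine poly_isP (α := α × List ℕ) m P (X := fun q x y => adj md (M q.1) x y)
      (Y := fun _ x y => decide (x = y)) ?_ ?_ p2
    · exact poly_adj md (hM.comp (p1.comp p1)) (p1.comp p2) (p2.comp p2)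
    · exact Poly.decide_eq (p1.comp p2) (p2.comp p2)
  unfold yob
  exact Poly.append (key _ _) (key _ _)

theorem poly_ycn (md : Bool) (hM : Poly M) (hR : Poly R) (hB : Poly B) (hD : Poly D) :
    Poly (fun a => ycn md (M a) (R a) (B a) (D a)) := by
  unfold ycn
  refine Poly.filter (p := fun a y => decide (((R a).filter (fun z => (B a).all (fun b =>
    !(adj md (M a) y b) || adj md (M a) z b))).length ≤ D a)) hR ?_
  refine Poly.decide_le (Poly.length ?_) (hD.comp p1)
  refine Poly.filter (α := α × ℕ) (p := fun q z => (B q.1).all (fun b =>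
    !(adj md (M q.1) q.2 b) || adj md (M q.1) z b)) (hR.comp p1) ?_
  refine Poly.all (α := (α × ℕ) × ℕ) (p := fun q b =>
    !(adj md (M q.1.1) q.1.2 b) || adj md (M q.1.1) q.2 b) (hB.comp (p1.comp p1)) ?_
  have ha : Poly (fun q : ((α × ℕ) × ℕ) × ℕ => q.1.1.1) := p1.comp (p1.comp p1)
  exact Poly.or (Poly.not (poly_adj md (hM.comp ha) (p2.comp (p1.comp p1)) p2))
    (poly_adj md (hM.comp ha) (p2.comp p1) p2)

theorem poly_code (md : Bool) (hM : Poly M) (hR : Poly R) (hB : Poly B) (hj : UPoly j)
    (hx : Poly x) : Poly (fun a => code md (M a) (R a) (B a) (j a) (x a)) := by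
  unfold code
  have hb : Poly (fun a => bal md (M a) (R a) (j a) [x a]) :=
    poly_bal md hM hR hj (Poly.cons hx (Poly.const []))
  refine Poly.map (F := fun a z => decide (z = x a) ::
    ((bal md (M a) (R a) (j a) [x a]).map (fun y => adj md (M a) z y) ++
      (B a).map (fun b => adj md (M a) z b))) hb ?_
  refine Poly.cons (Poly.decide_eq p2 (hx.comp p1)) (Poly.append ?_ ?_)
  · exact Poly.map (α := α × ℕ) (F := fun q y => adj md (M q.1) q.2 y) (hb.comp p1)
      (poly_adj md (hM.comp (p1.comp p1)) (p2.comp p1) p2)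
  · exact Poly.map (α := α × ℕ) (F := fun q y => adj md (M q.1) q.2 y) (hB.comp p1)
      (poly_adj md (hM.comp (p1.comp p1)) (p2.comp p1) p2)

theorem poly_pstp (md : Bool) (hM : Poly M) (hR : Poly R) (hB : Poly B) (hj : UPoly j)
    (ht : Poly t) (hS : Poly S) (hx : Poly x) :
    Poly (fun a => pstp md (M a) (R a) (B a) (j a) (t a) (S a) (x a)) := by
  unfold pstp
  have hc : Poly (fun q : α × ℕ => decide (code md (M q.1) (R q.1) (B q.1) (j q.1) q.2 =
      code md (M q.1) (R q.1) (B q.1) (j q.1) (x q.1))) :=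
    Poly.decide_eq (poly_code md (hM.comp p1) (hR.comp p1) (hB.comp p1) (hj.comp p1) p2)
      (poly_code md (hM.comp p1) (hR.comp p1) (hB.comp p1) (hj.comp p1) (hx.comp p1))
  refine Poly.cond (Poly.or ?_ ?_) hS (Poly.cons hx hS)
  · refine Poly.any (p := fun a u => decide (code md (M a) (R a) (B a) (j a) u =
      code md (M a) (R a) (B a) (j a) (x a)) &&
        decide (x a ∈ bal md (M a) (R a) (2 * j a) [u])) hS (Poly.and hc ?_)
    exact Poly.decide_mem (hx.comp p1) (poly_bal md (hM.comp p1) (hR.comp p1)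
      (UPoly.mul (UPoly.const 2) (hj.comp p1)) (Poly.cons p2 (Poly.const [])))
  · exact Poly.decide_le ht (Poly.length (Poly.filter (p := fun a u =>
      decide (code md (M a) (R a) (B a) (j a) u =
        code md (M a) (R a) (B a) (j a) (x a))) hS hc))

theorem poly_pick (md : Bool) (hM : Poly M) (hR : Poly R) (hB : Poly B) (hj : UPoly j)
    (ht : Poly t) (hZ : Poly Z) :
    Poly (fun a => pick md (M a) (R a) (B a) (j a) (t a) (Z a)) := by
  unfold pick
  obtain ⟨r, hr⟩ := hZ.sz_le
  have key : ∀ a, ∀ (l U : List ℕ), sz (l.foldl (pstp md (M a) (R a) (B a) (j a) (t a)) U) ≤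
      sz l + sz U := by
    intro a l
    induction l with
    | nil => intro U; simp
    | cons v l ih =>
      intro U
      rw [List.foldl_cons]
      refine (ih _).trans ?_
      have : sz (pstp md (M a) (R a) (B a) (j a) (t a) U v) ≤ sz U + sz v + 1 := by
        unfold pstp
        generalize (U.any (fun u => decide (code md (M a) (R a) (B a) (j a) u =
          code md (M a) (R a) (B a) (j a) v) &&
          decide (v ∈ bal md (M a) (R a) (2 * j a) [u])) ||
            decide (t a ≤ (U.filter (fun u => decide (code md (M a) (R a) (B a) (j a) u =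
          code md (M a) (R a) (B a) (j a) v))).length)) = c
        cases c
        · simp only [cond_false, sz_list_cons]; omega
        · simp only [cond_true]; omega
      simp only [sz_list_cons]
      omega
  refine Poly.foldl (l := Z) (s := fun _ => ([] : List ℕ))
    (F := fun a => pstp md (M a) (R a) (B a) (j a) (t a)) hZ (Poly.const _) ?_
    (r + Polynomial.C 1) ?_
  · exact poly_pstp md (hM.comp p1) (hR.comp p1) (hB.comp p1) (hj.comp p1) (ht.comp p1)
      (p1.comp p2) (p2.comp p2)
  · intro a k _
    refine (key a _ _).trans ?_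
    have h1 := Poly.sz_take_le (Z a) k
    have h2 := hr a
    simp only [sz_list_nil, Polynomial.eval_add, Polynomial.eval_C]
    omega

theorem poly_nearl (a' b' : ℕ) (md : Bool) (hM : Poly M) (hR : Poly R) (hB : Poly B)
    (hD : Poly D) (hj : UPoly j) :
    Poly (fun a => nearl a' b' md (M a) (R a) (B a) (D a) (j a)) := by
  unfold nearl
  exact poly_bal md hM hR hj (Poly.append (poly_yob a' b' md hM hR) (poly_ycn md hM hR hB hD))

theorem poly_wset (a' b' : ℕ) (md : Bool) (hM : Poly M) (hD : Poly D) (hj : UPoly j)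
    (ht : Poly t) : Poly (fun a => wset a' b' md (M a) (D a) (j a) (t a)) := by
  have hR := poly_rl md hM hD
  have hB := poly_bl md hM hD
  have hn := poly_nearl a' b' md hM hR hB hD hj
  unfold wset
  refine Poly.append hB (Poly.append hn (poly_bal md hM hR (UPoly.mul (UPoly.const 2) hj) ?_))
  refine poly_pick md hM hR hB hj ht ?_
  exact Poly.filter (p := fun a x => !(decide (x ∈ nearl a' b' md (M a) (rl md (M a) (D a))
    (bl md (M a) (D a)) (D a) (j a)))) hR (Poly.not (Poly.decide_mem p2 (hn.comp p1)))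

theorem poly_prs (hM : Poly M) (hS : Poly S) : Poly (fun a => prs (M a) (S a)) := by
  unfold prs
  refine Poly.filter (p := fun a e => adj false (M a) e.1 e.2) (Poly.flatMap (F := fun a x =>
    (S a).map (fun y => (x, y))) hS ?_) ?_
  · exact Poly.map (α := α × ℕ) (F := fun q y => (q.2, y)) (hS.comp p1)
      (Poly.pair (p2.comp p1) p2)
  · exact poly_adj false (hM.comp p1) (p1.comp p2) (p2.comp p2)

theorem zip_take (l : List β) (n : ℕ) :
    (l.zip (List.replicate n ())).map (fun p => p.1) = l.take n := by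
  induction l generalizing n with
  | nil => simp
  | cons b l ih =>
    cases n with
    | zero => simp
    | succ n => simp [List.replicate_succ, ih]

theorem poly_takeU {l : α → List β} {n : α → ℕ} (hl : Poly l) (hn : UPoly n) :
    Poly (fun a => (l a).take (n a)) := by
  have hn' : Poly (fun a => List.replicate (n a) ()) := hn
  exact (Poly.map (F := fun _ (p : β × Unit) => p.1) (Poly.zip hl hn') (p1.comp p2)).congr
    fun a => zip_take _ _

theorem poly_estp {P : α → List (ℕ × ℕ)} {cap : α → ℕ} {E : α → List (List (ℕ × ℕ))}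
    (hP : Poly P) (hcap : UPoly cap) (hE : Poly E) :
    Poly (fun a => estp (P a) (cap a) (E a)) := by
  unfold estp
  refine poly_takeU (Poly.flatMap (F := fun a l => l :: (P a).map (fun e => e :: l)) hE ?_) hcap
  exact Poly.cons p2 (Poly.map (α := α × List (ℕ × ℕ)) (F := fun q e => e :: q.2) (hP.comp p1)
    (Poly.cons p2 (p2.comp p1)))

theorem enu_sz (P : List (ℕ × ℕ)) (cap : ℕ) (s : ℕ) (hs : ∀ e ∈ P, sz e ≤ s) (j : ℕ) :
    (enu P cap j).length ≤ cap + 1 ∧ ∀ l ∈ enu P cap j, sz l ≤ j * (s + 1) + 1 := by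
  induction j with
  | zero => simp [enu]
  | succ j ih =>
    have e : enu P cap (j + 1) = estp P cap (enu P cap j) := by
      unfold enu
      rw [Function.iterate_succ_apply']
    rw [e]
    unfold estp
    refine ⟨(List.length_take_le _ _).trans (Nat.le_succ _), fun l hl => ?_⟩
    have h1 := List.mem_of_mem_take hl
    rw [List.mem_flatMap] at h1
    obtain ⟨l', hl', h2⟩ := h1
    have h3 := ih.2 l' hl'
    rw [List.mem_cons, List.mem_map] at h2
    rcases h2 with rfl | ⟨e, he, rfl⟩
    · rw [Nat.succ_mul]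
      omega
    · have := hs e he
      simp only [sz_list_cons]
      rw [Nat.succ_mul]
      omega

theorem poly_enu {P : α → List (ℕ × ℕ)} {cap : α → ℕ} (hP : Poly P) (hcap : UPoly cap)
    (hk : UPoly k) : Poly (fun a => enu (P a) (cap a) (k a)) := by
  unfold enu
  obtain ⟨r, hr⟩ := hP.sz_le
  obtain ⟨u, hu⟩ := Poly.sz_le (f := fun a => List.replicate (cap a) ()) hcap
  obtain ⟨v, hv⟩ := Poly.sz_le (f := fun a => List.replicate (k a) ()) hk
  refine Poly.iterU (s := fun _ => [[]]) (F := fun a E => estp (P a) (cap a) E) hk (Poly.const _)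
    (poly_estp (hP.comp p1) (hcap.comp p1) p2)
    ((u + 1) * (v * (r + 1) + 1 + 1) + 1) ?_
  intro a j hj
  have h1 := enu_sz (P a) (cap a) (sz (P a)) (fun e he => (sz_le_of_mem he).le) j
  have h2 := sz_le_length_mul (enu (P a) (cap a) j) (j * (sz (P a) + 1) + 1) h1.2
  have h3 := hr a
  have h4 := hu a
  have h5 := hv a
  rw [sz_replicate_unit] at h4 h5
  have h6 : cap a ≤ u.eval (sz a) := by omega
  have h7 : j ≤ v.eval (sz a) := by omega
  simp only [Polynomial.eval_add, Polynomial.eval_mul, Polynomial.eval_one]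
  refine h2.trans (Nat.add_le_add_right (Nat.mul_le_mul (h1.1.trans (by omega)) ?_) 1)
  exact Nat.add_le_add_right (Nat.add_le_add_right (Nat.mul_le_mul h7 (by omega)) 1) 1

theorem poly_lstp {l : α → List ℕ} {e : α → ℕ × ℕ} (hl : Poly l) (he : Poly e) :
    Poly (fun a => lstp (l a) (e a)) := by
  unfold lstp
  refine Poly.map (F := fun a c => bif decide (c = (l a).getD (e a).1 0) then
    (l a).getD (e a).2 0 else c) hl (Poly.cond (Poly.decide_eq p2 ?_) ?_ p2)
  · exact Poly.getD (hl.comp p1) ((p1.comp he).comp p1) (Poly.const 0)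
  · exact Poly.getD (hl.comp p1) ((p2.comp he).comp p1) (Poly.const 0)

theorem fold_lstp (n : ℕ) (L : List (ℕ × ℕ)) (l : List ℕ) (hl : l.length = n)
    (h : ∀ c ∈ l, c ≤ n) : (L.foldl lstp l).length = n ∧ ∀ c ∈ L.foldl lstp l, c ≤ n := by
  induction L generalizing l with
  | nil => exact ⟨hl, h⟩
  | cons e L ih =>
    rw [List.foldl_cons]
    refine ih _ ?_ ?_
    · unfold lstp
      rw [List.length_map, hl]
    · intro c hc
      unfold lstp at hc
      rw [List.mem_map] at hc
      obtain ⟨d, hd, rfl⟩ := hc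
      cases decide (d = l.getD e.1 0)
      · exact h d hd
      · rw [cond_true]
        by_cases he : e.2 < l.length
        · rw [List.getD_eq_getElem _ _ he]
          exact h _ (List.getElem_mem _)
        · rw [List.getD_eq_default _ _ (by omega)]
          exact Nat.zero_le _

theorem poly_labs {L : α → List (ℕ × ℕ)} (hM : Poly M) (hL : Poly L) :
    Poly (fun a => labs (M a).length (L a)) := by
  unfold labs
  obtain ⟨r, hr⟩ := hM.sz_le
  refine Poly.foldl (s := fun a => List.range (M a).length) (F := fun _ l e => lstp l e) hL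
    (Poly.range_length hM) (poly_lstp (p1.comp p2) (p2.comp p2))
    (r * (2 * (4 * r + 1) + 1) + 1) ?_
  intro a k _
  have h1 := fold_lstp (M a).length ((L a).take k) (List.range (M a).length) (by simp)
    (fun c hc => (List.mem_range.1 hc).le)
  have h2 := sz_le_length_mul (((L a).take k).foldl lstp (List.range (M a).length))
    (2 * (4 * (M a).length + 1)) (fun c hc => by
      have e1 := sz_nat_mono_le (h1.2 c hc)
      have e2 := sz_nat_le (M a).length
      have e3 := Poly.size_le_self (M a).length
      omega)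
  rw [h1.1] at h2
  refine h2.trans ?_
  have h3 := length_lt_sz (M a)
  have h4 := hr a
  have h5 : (M a).length ≤ r.eval (sz a) := by omega
  simp only [Polynomial.eval_add, Polynomial.eval_mul, Polynomial.eval_one,
    Polynomial.eval_ofNat]
  exact Nat.add_le_add_right (Nat.mul_le_mul h5 (by omega)) 1

theorem poly_sam {l : α → List ℕ} (hl : Poly l) (hx : Poly x) (hy : Poly y) :
    Poly (fun a => sam (l a) (x a) (y a)) := by
  unfold sam
  exact Poly.decide_eq (Poly.getD hl hx (Poly.const 0)) (Poly.getD hl hy (Poly.const 0))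

theorem poly_xad (md : Bool) {l : α → List ℕ} (hM : Poly M) (hl : Poly l) (hx : Poly x)
    (hy : Poly y) : Poly (fun a => xad md (M a) (l a) (x a) (y a)) := by
  unfold xad
  have ha : Poly (fun q : (α × ℕ) × ℕ => q.1.1) := p1.comp p1
  have hx' : Poly (fun q : (α × ℕ) × ℕ => q.1.2) := p2.comp p1
  have hs : Poly (fun q : (α × ℕ) × ℕ => sam (l q.1.1) (x q.1.1) q.1.2 &&
      sam (l q.1.1) (y q.1.1) q.2) :=
    Poly.and (poly_sam (hl.comp ha) (hx.comp ha) hx') (poly_sam (hl.comp ha) (hy.comp ha) p2)
  refine Poly.and (Poly.not (poly_sam hl hx hy)) ?_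
  cases md with
  | true =>
    simp only [cond_true]
    refine Poly.all (p := fun a x' => (List.range (M a).length).all (fun y' =>
      !(sam (l a) (x a) x' && sam (l a) (y a) y') || adj true (M a) x' y'))
      (Poly.range_length hM) ?_
    refine Poly.all (α := α × ℕ) (p := fun q y' => !(sam (l q.1) (x q.1) q.2 &&
      sam (l q.1) (y q.1) y') || adj true (M q.1) q.2 y') (Poly.range_length (hM.comp p1)) ?_
    exact Poly.or (Poly.not hs) (poly_adj true (hM.comp ha) hx' p2)
  | false =>
    simp only [cond_false]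
    refine Poly.any (p := fun a x' => (List.range (M a).length).any (fun y' =>
      (sam (l a) (x a) x' && sam (l a) (y a) y') && adj false (M a) x' y'))
      (Poly.range_length hM) ?_
    refine Poly.any (α := α × ℕ) (p := fun q y' => (sam (l q.1) (x q.1) q.2 &&
      sam (l q.1) (y q.1) y') && adj false (M q.1) q.2 y') (Poly.range_length (hM.comp p1)) ?_
    exact Poly.and hs (poly_adj false (hM.comp ha) hx' p2)

theorem poly_test (m : ℕ) (md P : Bool) {l : α → List ℕ} (hM : Poly M) (hl : Poly l) :
    Poly (fun a => (tuples m (List.range (M a).length)).any (fun f => isP m P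
      (fun x y => xad md (M a) (l a) x y) (fun x y => sam (l a) x y) f)) := by
  refine Poly.any (p := fun a f => isP m P
      (fun x y => xad md (M a) (l a) x y) (fun x y => sam (l a) x y) f)
      (poly_tuples m (Poly.range_length hM)) ?_
  refine poly_isP (α := α × List ℕ) m P (X := fun q x y => xad md (M q.1) (l q.1) x y)
      (Y := fun q x y => sam (l q.1) x y) ?_ ?_ p2
  · exact poly_xad md (hM.comp (p1.comp p1)) (hl.comp (p1.comp p1)) (p1.comp p2) (p2.comp p2)
  · exact poly_sam (hl.comp (p1.comp p1)) (p1.comp p2) (p2.comp p2)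

theorem poly_chk {L : α → List (ℕ × ℕ)} (hM : Poly M) (hk : Poly k) (hL : Poly L) :
    Poly (fun a => chk (M a) (k a) (L a)) := by
  have hl := poly_labs hM hL
  unfold chk
  refine Poly.and (Poly.and (Poly.decide_le (Poly.length hL) hk) ?_)
    (Poly.and (Poly.not (poly_test 7 false false hM hl)) (Poly.not (poly_test 4 true false hM hl)))
  exact Poly.all (p := fun a e => adj false (M a) e.1 e.2) hL
    (poly_adj false (hM.comp p1) (p1.comp p2) (p2.comp p2))

theorem poly_alg (N r1 r2 : ℕ) {cap : α → ℕ} (hM : Poly M) (hk : UPoly k) (hcap : UPoly cap) :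
    Poly (fun a => alg N r1 r2 (M a) (k a) (cap a)) := by
  have hk' := hk.toPoly
  have h2k := Poly.mul (Poly.const 2) hk'
  have hρ : UPoly (fun a => 12 * k a + 6) := UPoly.add (UPoly.mul (UPoly.const 12) hk)
    (UPoly.const 6)
  have ht : Poly (fun a => 2 * k a + 1) := Poly.add h2k (Poly.const 1)
  unfold alg
  refine Poly.any (p := fun a L => chk (M a) (k a) L) ?_
    (poly_chk (hM.comp p1) (hk'.comp p1) p2)
  refine Poly.append (Poly.cond (Poly.decide_lt (Poly.length hM) (Poly.add (Poly.const N) h2k))
    (poly_enu (poly_prs hM (Poly.range_length hM)) hcap hk) (Poly.const [])) (Poly.append ?_ ?_)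
  · exact poly_enu (poly_prs hM (poly_wset 2 6 false hM (Poly.add (Poly.const r1) h2k) hρ ht))
      hcap hk
  · exact poly_enu (poly_prs hM (poly_wset 5 3 true hM (Poly.add (Poly.const r2) h2k) hρ ht))
      hcap hk

end

end Pool.Agent.NPC.H633
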