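import Pool.Agent.H633R2.Ctr.Pat

/-!
# Balls in graphs of bounded degree
-/

namespace Pool.Agent.H633R2.Ctr

variable {V : Type}

/-- `wd A R j v x`: there is a walk of length at most `j` from `v` to `x` whose vertices after the
first one lie in `R`. -/
def wd (A : V → V → Prop) (R : Finset V) : ℕ → V → V → Prop
  | 0, v, x => x = v
  | j + 1, v, x => wd A R j v x ∨ (x ∈ R ∧ ∃ y, wd A R j v y ∧ A y x)

section

variable {A : V → V → Prop} {R : Finset V}

theorem wd_refl (j : ℕ) (v : V) : wd A R j v v := by
  induction j with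
  | zero => rfl
  | succ j ih => exact Or.inl ih

theorem wd_mono {i j : ℕ} (h : i ≤ j) {v x : V} (hx : wd A R i v x) : wd A R j v x := by
  induction h with
  | refl => exact hx
  | step _ ih => exact Or.inl ih

theorem wd_mem {j : ℕ} {v x : V} (hv : v ∈ R) (h : wd A R j v x) : x ∈ R := by
  induction j generalizing x with
  | zero => exact (show x = v from h) ▸ hv
  | succ j ih =>
    rcases h with h | ⟨h, _⟩
    · exact ih h
    · exact h

theorem wd_step {j : ℕ} {v x y : V} (h : wd A R j v x) (hy : y ∈ R) (hxy : A x y) :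
    wd A R (j + 1) v y := Or.inr ⟨hy, x, h, hxy⟩

theorem wd_trans {i j : ℕ} {v x y : V} (h : wd A R i v x) (h' : wd A R j x y) :
    wd A R (i + j) v y := by
  induction j generalizing y with
  | zero => exact (show y = x from h') ▸ h
  | succ j ih =>
    rcases h' with h' | ⟨h1, z, h2, h3⟩
    · exact Or.inl (ih h')
    · exact Or.inr ⟨h1, z, ih h2, h3⟩

theorem wd_symm (hA : ∀ x y, A x y → A y x) {j : ℕ} {v x : V} (hv : v ∈ R)
    (h : wd A R j v x) : wd A R j x v := by
  induction j generalizing x with
  | zero => exact (show x = v from h).symm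
  | succ j ih =>
    rcases h with h | ⟨_, y, h2, h3⟩
    · exact Or.inl (ih h)
    · have hy : y ∈ R := wd_mem hv h2
      have h4 : wd A R 1 x y := Or.inr ⟨hy, x, rfl, hA _ _ h3⟩
      have := wd_trans h4 (ih h2)
      rwa [Nat.add_comm] at this

open Classical in
/-- Balls are small. -/
theorem card_ball {D : ℕ} (hD : ∀ x ∈ R, (R.filter (fun y => A x y)).card ≤ D) {v : V}
    (hv : v ∈ R) (j : ℕ) : (R.filter (fun x => wd A R j v x)).card ≤ (D + 1) ^ j := by
  induction j with
  | zero =>
    have : R.filter (fun x => wd A R 0 v x) ⊆ {v} := by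
      intro x hx
      rw [Finset.mem_filter] at hx
      exact Finset.mem_singleton.2 hx.2
    simpa using Finset.card_le_card this
  | succ j ih =>
    have hsub : R.filter (fun x => wd A R (j + 1) v x) ⊆
        (R.filter (fun x => wd A R j v x)).biUnion
          (fun y => insert y (R.filter (fun z => A y z))) := by
      intro x hx
      rw [Finset.mem_filter] at hx
      rw [Finset.mem_biUnion]
      rcases hx.2 with h | ⟨_, y, h2, h3⟩
      · exact ⟨x, Finset.mem_filter.2 ⟨hx.1, h⟩, Finset.mem_insert_self _ _⟩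
      · exact ⟨y, Finset.mem_filter.2 ⟨wd_mem hv h2, h2⟩,
          Finset.mem_insert_of_mem (Finset.mem_filter.2 ⟨hx.1, h3⟩)⟩
    refine (Finset.card_le_card hsub).trans ?_
    refine (Finset.card_biUnion_le_card_mul _ _ (D + 1) ?_).trans ?_
    · intro y hy
      exact (Finset.card_insert_le _ _).trans
        (Nat.add_le_add_right (hD y (Finset.mem_filter.1 hy).1) 1)
    · rw [pow_succ]
      exact Nat.mul_le_mul_right _ ih

end

/-- An isomorphism between two balls which respects the adjacency to `B`. -/
structure BallIso (A : V → V → Prop) (R B : Finset V) (ρ : ℕ) (v v' : V) (ι ι' : V → V) :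
    Prop where
  /-- the map sends the first ball into the second one -/
  map : ∀ x, wd A R ρ v x → wd A R ρ v' (ι x) ∧ ι' (ι x) = x
  /-- the inverse map sends the second ball into the first one -/
  map' : ∀ x, wd A R ρ v' x → wd A R ρ v (ι' x) ∧ ι (ι' x) = x
  /-- adjacency is preserved -/
  adj : ∀ x y, wd A R ρ v x → wd A R ρ v y → (A (ι x) (ι y) ↔ A x y)
  /-- adjacency to `B` is preserved -/
  col : ∀ x, wd A R ρ v x → ∀ b ∈ B, (A (ι x) b ↔ A x b)
  /-- centres correspond -/
  cen : ι v = v'

theorem BallIso.symm {A : V → V → Prop} {R B : Finset V} {ρ : ℕ} {v v' : V} {ι ι' : V → V}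
    (h : BallIso A R B ρ v v' ι ι') : BallIso A R B ρ v' v ι' ι where
  map := h.map'
  map' := h.map
  adj x y hx hy := by
    have := h.adj (ι' x) (ι' y) (h.map' x hx).1 (h.map' y hy).1
    rw [(h.map' x hx).2, (h.map' y hy).2] at this
    exact this.symm
  col x hx b hb := by
    have := h.col (ι' x) (h.map' x hx).1 b hb
    rw [(h.map' x hx).2] at this
    exact this.symm
  cen := by
    rw [← h.cen, (h.map v (wd_refl _ _)).2]

theorem BallIso.wd {A : V → V → Prop} {R B : Finset V} {ρ : ℕ} {v v' : V} {ι ι' : V → V}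
    (h : BallIso A R B ρ v v' ι ι') (hv' : v' ∈ R) {i : ℕ} (hi : i ≤ ρ) {x : V}
    (hx : wd A R i v x) : Ctr.wd A R i v' (ι x) := by
  induction i generalizing x with
  | zero =>
    have : x = v := hx
    rw [this, h.cen]
    exact wd_refl _ _
  | succ i ih =>
    rcases hx with hx | ⟨hxR, y, h2, h3⟩
    · exact Or.inl (ih (by omega) hx)
    · have e1 := ih (by omega) h2
      have hy := wd_mono (show i ≤ ρ by omega) h2
      have hx' : Ctr.wd A R ρ v x := wd_mono hi (wd_step h2 hxR h3)
      have e2 := (h.adj y x hy hx').2 h3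
      exact wd_step e1 (wd_mem hv' (h.map x hx').1) e2

end Pool.Agent.H633R2.Ctr
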