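import Pool.Agent.H633R2.CtrDefs
import Pool.Agent.H633R2.Ctr.AlgE

/-!
# Contractions and lists of edges
-/

namespace Pool.Agent.H633R2.Ctr

open SimpleGraph

theorem emb_iff {V W : Type} (G : SimpleGraph V) (F : Set (Sym2 V)) (H : SimpleGraph W) :
    Nonempty (H ↪g contract G F) ↔ ∃ f : W → V, ∀ i j, i ≠ j →
      (fromEdgeSet F).connectedComponentMk (f i) ≠ (fromEdgeSet F).connectedComponentMk (f j) ∧
      ((∃ u v, (fromEdgeSet F).connectedComponentMk u =
          (fromEdgeSet F).connectedComponentMk (f i) ∧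
        (fromEdgeSet F).connectedComponentMk v = (fromEdgeSet F).connectedComponentMk (f j) ∧
          G.Adj u v) ↔ H.Adj i j) := by
  constructor
  · rintro ⟨φ⟩
    have hrep : ∀ C : (fromEdgeSet F).ConnectedComponent,
        ∃ v, (fromEdgeSet F).connectedComponentMk v = C := fun C => C.exists_rep
    choose g hg using hrep
    refine ⟨fun i => g (φ i), fun i j hij => ?_⟩
    rw [hg, hg]
    have h1 : φ i ≠ φ j := fun h => hij (φ.injective h)
    refine ⟨h1, ?_⟩
    rw [← φ.map_adj_iff]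
    constructor
    · intro h
      exact ⟨h1, h⟩
    · rintro ⟨_, h⟩
      exact h
  · rintro ⟨f, hf⟩
    refine ⟨⟨⟨fun i => (fromEdgeSet F).connectedComponentMk (f i), ?_⟩, ?_⟩⟩
    · intro i j h
      by_contra hij
      exact (hf i j hij).1 h
    · intro i j
      by_cases hij : i = j
      · subst hij
        simp
      · constructor
        · rintro ⟨_, h⟩
          exact (hf i j hij).2.1 h
        · intro h
          exact ⟨(hf i j hij).1, (hf i j hij).2.2 h⟩

/-- Lists of pairs representing sets of edges. -/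
structure Rep {n : ℕ} (F : Set (Sym2 (Fin n))) (L : List (ℕ × ℕ)) : Prop where
  toL : ∀ u v : Fin n, s(u, v) ∈ F → u ≠ v → gen L u v
  ofL : ∀ e ∈ L, ∃ u v : Fin n, e = ((u : ℕ), (v : ℕ)) ∧ s(u, v) ∈ F ∧ u ≠ v

theorem Rep.gen_iff {n : ℕ} {F : Set (Sym2 (Fin n))} {L : List (ℕ × ℕ)} (h : Rep F L)
    (u v : Fin n) : gen L u v ↔ (fromEdgeSet F).connectedComponentMk u =
      (fromEdgeSet F).connectedComponentMk v := by
  rw [ConnectedComponent.eq]
  constructor
  · intro hg
    have key : ∀ x y : ℕ, gen L x y → x = y ∨ ∃ u v : Fin n, (u : ℕ) = x ∧ (v : ℕ) = y ∧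
        (fromEdgeSet F).Reachable u v := by
      intro x y hxy
      induction hxy with
      | rel x y h1 =>
        obtain ⟨u, v, he, hF, hne⟩ := h.ofL _ h1
        rw [Prod.mk.injEq] at he
        refine Or.inr ⟨u, v, he.1.symm, he.2.symm, Adj.reachable ?_⟩
        rw [fromEdgeSet_adj]
        exact ⟨hF, hne⟩
      | refl x => exact Or.inl rfl
      | symm x y _ ih =>
        rcases ih with ih | ⟨u, v, h1, h2, h3⟩
        · exact Or.inl ih.symm
        · exact Or.inr ⟨v, u, h2, h1, h3.symm⟩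
      | trans x y z _ _ ih1 ih2 =>
        rcases ih1 with rfl | ⟨u, v, h1, h2, h3⟩
        · exact ih2
        · rcases ih2 with rfl | ⟨v', w, h4, h5, h6⟩
          · exact Or.inr ⟨u, v, h1, h2, h3⟩
          · have : v = v' := Fin.ext (h2.trans h4.symm)
            subst this
            exact Or.inr ⟨u, w, h1, h5, h3.trans h6⟩
    rcases key u v hg with h1 | ⟨u', v', h1, h2, h3⟩
    · rw [Fin.ext h1]
    · rw [← Fin.ext h1, ← Fin.ext h2]
      exact h3
  · rintro ⟨p⟩
    induction p with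
    | nil => exact (gen_equiv L).refl _
    | cons hadj _ ih =>
      rw [fromEdgeSet_adj] at hadj
      exact (gen_equiv L).trans (h.toL _ _ hadj.1 hadj.2) ih

theorem adj_iff (M : List (List Bool)) (u v : Fin M.length) :
    (graphOf M).Adj u v ↔ Aj false M u v := by
  rw [Aj_iff]
  simp only [graphOf, Bool.xor_false, Bool.or_eq_true, ne_eq, Fin.ext_iff]
  exact ⟨fun h => ⟨u.2, v.2, h.1, h.2⟩, fun h => ⟨h.2.2.1, h.2.2.2⟩⟩

/-- Embeddings into the contracted graph. -/
theorem Rep.emb_iff {M : List (List Bool)} {F : Set (Sym2 (Fin M.length))} {L : List (ℕ × ℕ)}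
    (h : Rep F L) {W : Type} (H : SimpleGraph W) :
    Nonempty (H ↪g contract (graphOf M) F) ↔ ∃ f : W → Fin M.length, ∀ i j, i ≠ j →
      ¬ gen L (f i) (f j) ∧
        (XA false (Aj false M) (gen L) (f i) (f j) ↔ H.Adj i j) := by
  rw [Ctr.emb_iff]
  refine exists_congr fun f => forall_congr' fun i => forall_congr' fun j => imp_congr Iff.rfl ?_
  rw [h.gen_iff]
  refine and_congr_right fun h1 => ?_
  have hL : ∀ e ∈ L, e.1 < M.length ∧ e.2 < M.length := by
    intro e he
    obtain ⟨u, v, he, _, _⟩ := h.ofL e he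
    rw [he]
    exact ⟨u.2, v.2⟩
  have e1 : XA false (Aj false M) (gen L) (f i) (f j) ↔ ∃ u v,
      (fromEdgeSet F).connectedComponentMk u = (fromEdgeSet F).connectedComponentMk (f i) ∧
      (fromEdgeSet F).connectedComponentMk v = (fromEdgeSet F).connectedComponentMk (f j) ∧
        (graphOf M).Adj u v := by
    constructor
    · rintro ⟨_, _, h2⟩
      obtain ⟨x', y', h3, h4, h5⟩ := h2 rfl
      have hx := gen_lt hL h3 (f i).2
      have hy := gen_lt hL h4 (f j).2
      refine ⟨⟨x', hx⟩, ⟨y', hy⟩, ?_, ?_, ?_⟩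
      · exact ((h.gen_iff (f i) ⟨x', hx⟩).1 h3).symm
      · exact ((h.gen_iff (f j) ⟨y', hy⟩).1 h4).symm
      · rw [adj_iff]; exact h5
    · rintro ⟨u, v, h3, h4, h5⟩
      refine ⟨fun hg => h1 ((h.gen_iff _ _).1 hg), fun hc => by simp at hc, fun _ =>
        ⟨u, v, (h.gen_iff _ _).2 h3.symm, (h.gen_iff _ _).2 h4.symm, (adj_iff M u v).1 h5⟩⟩
  rw [e1]

theorem Rep.lt {M : List (List Bool)} {F : Set (Sym2 (Fin M.length))} {L : List (ℕ × ℕ)}
    (h : Rep F L) : ∀ e ∈ L, e.1 < M.length ∧ e.2 < M.length := by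
  intro e he
  obtain ⟨u, v, he, _, _⟩ := h.ofL e he
  rw [he]
  exact ⟨u.2, v.2⟩

theorem Rep.free_star {M : List (List Bool)} {F : Set (Sym2 (Fin M.length))} {L : List (ℕ × ℕ)}
    (h : Rep F L) : Free star6 (contract (graphOf M) F) ↔
      ¬ Pat (CH 6 False) (XA false (Aj false M) (gen L)) (gen L) := by
  unfold Free
  rw [← not_nonempty_iff, h.emb_iff, not_iff_not]
  have hL := h.lt
  have hH : ∀ i j : Fin 7, i ≠ j → (CH 6 False i j ↔ star6.Adj i j) := by
    intro i j _
    simp only [CH, star6, or_false]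
  constructor
  · rintro ⟨f, hf⟩
    exact ⟨fun i => f i, fun i j hij => ⟨(hf i j hij).1, (hf i j hij).2.trans (hH i j hij).symm⟩⟩
  · rintro ⟨f, hf⟩
    have hl : ∀ i, f i < M.length := by
      intro i
      by_cases hi : i = 0
      · rw [hi]
        exact (pat_lt hL ((hf 0 1 (by decide)).2.2 ⟨by decide, Or.inl rfl⟩)).1
      · exact (pat_lt hL ((hf 0 i (Ne.symm hi)).2.2 ⟨Ne.symm hi, Or.inl rfl⟩)).2
    exact ⟨fun i => ⟨f i, hl i⟩, fun i j hij => ⟨(hf i j hij).1,
      (hf i j hij).2.trans (hH i j hij)⟩⟩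

theorem Rep.free_tri {M : List (List Bool)} {F : Set (Sym2 (Fin M.length))} {L : List (ℕ × ℕ)}
    (h : Rep F L) : Free triPt (contract (graphOf M) F) ↔
      ¬ Pat (CH 3 False) (XA true (Aj true M) (gen L)) (gen L) := by
  unfold Free
  rw [← not_nonempty_iff, h.emb_iff, not_iff_not]
  have hL := h.lt
  have hH : ∀ i j : Fin 4, i ≠ j → (CH 3 False i j ↔ ¬ triPt.Adj i j) := by
    intro i j hij
    simp only [CH, triPt]
    tauto
  constructor
  · rintro ⟨f, hf⟩
    refine ⟨fun i => f i, fun i j hij => ⟨(hf i j hij).1, ?_⟩⟩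
    rw [xa_compl hL (f i).2 (f j).2 (hf i j hij).1, (hf i j hij).2, hH i j hij]
  · rintro ⟨f, hf⟩
    have hl : ∀ i, f i < M.length := by
      intro i
      by_cases hi : i = 0
      · rw [hi]
        exact (pat_lt hL ((hf 0 1 (by decide)).2.2 ⟨by decide, Or.inl rfl⟩)).1
      · exact (pat_lt hL ((hf 0 i (Ne.symm hi)).2.2 ⟨Ne.symm hi, Or.inl rfl⟩)).2
    refine ⟨fun i => ⟨f i, hl i⟩, fun i j hij => ⟨(hf i j hij).1, ?_⟩⟩
    have h1 := (hf i j hij).2
    rw [xa_compl hL (hl i) (hl j) (hf i j hij).1, hH i j hij] at h1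
    exact not_iff_not.1 h1

theorem exists_rep {n : ℕ} (F : Finset (Sym2 (Fin n))) (hF : ∀ e ∈ F, ¬ e.IsDiag) :
    ∃ L : List (ℕ × ℕ), Rep (F : Set (Sym2 (Fin n))) L ∧ L.length = F.card := by
  classical
  refine ⟨F.toList.map (fun e => (((Quot.out e).1 : ℕ), ((Quot.out e).2 : ℕ))), ⟨?_, ?_⟩, by simp⟩
  · intro u v huv hne
    have h1 : s((Quot.out s(u, v)).1, (Quot.out s(u, v)).2) = s(u, v) := Quot.out_eq _
    have h2 : gen (F.toList.map (fun e => (((Quot.out e).1 : ℕ), ((Quot.out e).2 : ℕ))))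
        (Quot.out s(u, v)).1 (Quot.out s(u, v)).2 :=
      Relation.EqvGen.rel _ _ (List.mem_map.2 ⟨s(u, v), Finset.mem_toList.2 huv, rfl⟩)
    rw [Sym2.eq_iff] at h1
    rcases h1 with ⟨h3, h4⟩ | ⟨h3, h4⟩
    · rw [h3, h4] at h2
      exact h2
    · rw [h3, h4] at h2
      exact (gen_equiv _).symm h2
  · intro e he
    rw [List.mem_map] at he
    obtain ⟨p, hp, rfl⟩ := he
    rw [Finset.mem_toList] at hp
    have h1 : s((Quot.out p).1, (Quot.out p).2) = p := Quot.out_eq _
    refine ⟨(Quot.out p).1, (Quot.out p).2, rfl, by rw [h1]; exact hp, fun h => hF p hp ?_⟩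
    rw [← h1, h]
    exact Sym2.mk_isDiag_iff.2 rfl

/-- The translation of the problem. -/
theorem sol_iff (x : List (List Bool) × ℕ) :
    (∃ L, Sol x.1 x.2 L) ↔ FreeContraction₂ star6 triPt x := by
  classical
  obtain ⟨M, k⟩ := x
  constructor
  · rintro ⟨L, hL⟩
    have hl := hL.lt
    let q : {e // e ∈ L} → Sym2 (Fin M.length) := fun e =>
      s(⟨e.1.1, (hl e.1 e.2).1⟩, ⟨e.1.2, (hl e.1 e.2).2⟩)
    let F : Finset (Sym2 (Fin M.length)) := (L.attach.map q).toFinset
    have hmem : ∀ p, p ∈ F ↔ ∃ e : {e // e ∈ L}, q e = p := by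
      intro p
      simp only [F, List.mem_toFinset, List.mem_map, List.mem_attach, true_and]
    have hne : ∀ e ∈ L, e.1 ≠ e.2 := fun e he => (Aj_iff.1 (hL.ed e he)).2.2.1
    have hR : Rep (F : Set (Sym2 (Fin M.length))) L := by
      refine ⟨fun u v huv _ => ?_, fun e he => ?_⟩
      · obtain ⟨e, he⟩ := (hmem _).1 huv
        have h2 : gen L e.1.1 e.1.2 := Relation.EqvGen.rel _ _ e.2
        simp only [q] at he
        rw [Sym2.eq_iff] at he
        rcases he with ⟨h3, h4⟩ | ⟨h3, h4⟩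
        · rw [← h3, ← h4]
          exact h2
        · rw [← h3, ← h4]
          exact (gen_equiv _).symm h2
      · refine ⟨⟨e.1, (hl e he).1⟩, ⟨e.2, (hl e he).2⟩, rfl, (hmem _).2 ⟨⟨e, he⟩, rfl⟩, fun h => ?_⟩
        exact hne e he (congrArg Fin.val h)
    refine ⟨F, ?_, ?_, hR.free_star.2 hL.st, hR.free_tri.2 hL.cw⟩
    · intro p hp
      obtain ⟨e, rfl⟩ := (hmem p).1 hp
      rw [mem_edgeSet, adj_iff]
      exact hL.ed _ e.2
    · refine (List.toFinset_card_le _).trans ?_
      rw [List.length_map, List.length_attach]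
      exact hL.len
  · rintro ⟨F, hF, hk, h1, h2⟩
    obtain ⟨L, hR, hlen⟩ := exists_rep F (fun e he => (graphOf M).not_isDiag_of_mem_edgeSet (hF he))
    refine ⟨L, by omega, fun e he => ?_, hR.free_star.1 h1, hR.free_tri.1 h2⟩
    obtain ⟨u, v, rfl, huv, _⟩ := hR.ofL e he
    exact (adj_iff M u v).1 (hF huv)

end Pool.Agent.H633R2.Ctr
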