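import Pool.Agent.H633R2.Ctr.Fwd

/-!
# From contractions to dominating sets
-/

namespace Pool.Agent.H633R2.Ctr

open SimpleGraph

section

variable {V : Type} {G : SimpleGraph V}

/-- Adjacency of components. -/
def CA (G : SimpleGraph V) (F : Set (Sym2 V)) (x y : V) : Prop :=
  ∃ u v, cmp F u = cmp F x ∧ cmp F v = cmp F y ∧ G.Adj u v

theorem CA.symm' {F : Set (Sym2 V)} {x y : V} (h : CA G F x y) : CA G F y x := by
  obtain ⟨u, v, h1, h2, h3⟩ := h
  exact ⟨v, u, h2, h1, h3.symm⟩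

theorem CA_untouched {F : Set (Sym2 V)} {x y : V} (hx : ∀ e ∈ F, x ∉ e) :
    CA G F x y ↔ ∃ v, cmp F v = cmp F y ∧ G.Adj x v := by
  constructor
  · rintro ⟨u, v, h1, h2, h3⟩
    rw [mk_untouched hx h1] at h3
    exact ⟨v, h2, h3⟩
  · rintro ⟨v, h2, h3⟩
    exact ⟨x, v, rfl, h2, h3⟩

theorem CA_untouched₂ {F : Set (Sym2 V)} {x y : V} (hx : ∀ e ∈ F, x ∉ e)
    (hy : ∀ e ∈ F, y ∉ e) : CA G F x y ↔ G.Adj x y := by
  rw [CA_untouched hx]
  constructor
  · rintro ⟨v, h2, h3⟩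
    rw [mk_untouched hy h2] at h3
    exact h3
  · intro h
    exact ⟨y, rfl, h⟩

theorem not_free_tri {F : Set (Sym2 V)} {p r a b : V} (d1 : cmp F p ≠ cmp F r)
    (d2 : cmp F p ≠ cmp F a) (d3 : cmp F p ≠ cmp F b) (d4 : cmp F r ≠ cmp F a)
    (d5 : cmp F r ≠ cmp F b) (d6 : cmp F a ≠ cmp F b) (c1 : CA G F r a) (c2 : CA G F r b)
    (c3 : CA G F a b) (n1 : ¬ CA G F p r) (n2 : ¬ CA G F p a) (n3 : ¬ CA G F p b) :
    ¬ Free triPt (contract G F) := by
  unfold Free
  rw [← not_nonempty_iff, not_not, emb_iff]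
  have key : ∀ i j : Fin 4, i < j → cmp F ((![p, r, a, b] : Fin 4 → V) i) ≠
      cmp F ((![p, r, a, b] : Fin 4 → V) j) ∧
      (CA G F ((![p, r, a, b] : Fin 4 → V) i) ((![p, r, a, b] : Fin 4 → V) j) ↔
        triPt.Adj i j) := by
    intro i j hij
    fin_cases i <;> fin_cases j <;> simp [triPt] at hij ⊢ <;> simp_all
  refine ⟨![p, r, a, b], fun i j hij => ?_⟩
  rcases lt_or_gt_of_ne hij with h | h
  · exact key i j h
  · obtain ⟨h1, h2⟩ := key j i h
    refine ⟨h1.symm, ?_⟩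
    rw [triPt.adj_comm, ← h2]
    exact ⟨fun h => CA.symm' h, fun h => CA.symm' h⟩

theorem not_free_star {F : Set (Sym2 V)} {c : V} (l : List V) (hl : l.length = 6)
    (h1 : ∀ y ∈ l, cmp F c ≠ cmp F y ∧ CA G F c y)
    (h2 : l.Pairwise (fun y z => cmp F y ≠ cmp F z ∧ ¬ CA G F y z)) :
    ¬ Free star6 (contract G F) := by
  unfold Free
  rw [← not_nonempty_iff, not_not, emb_iff]
  have hlt : ∀ i : Fin 6, (i : ℕ) < l.length := fun i => by rw [hl]; exact i.2
  have key : ∀ i j : Fin 6, i ≠ j → cmp F (l[i]'(hlt i)) ≠ cmp F (l[j]'(hlt j)) ∧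
      ¬ CA G F (l[i]'(hlt i)) (l[j]'(hlt j)) := by
    intro i j hij
    rw [List.pairwise_iff_getElem] at h2
    rcases lt_or_gt_of_ne hij with h | h
    · exact h2 i j (hlt i) (hlt j) h
    · obtain ⟨e1, e2⟩ := h2 j i (hlt j) (hlt i) h
      exact ⟨e1.symm, fun hc => e2 (CA.symm' hc)⟩
  refine ⟨Fin.cons c (fun i : Fin 6 => l[i]'(hlt i)), fun i j => ?_⟩
  refine Fin.cases ?_ (fun i => ?_) i
  · refine Fin.cases ?_ (fun j => ?_) j
    · intro h; exact absurd rfl h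
    · intro _
      rw [Fin.cons_zero, Fin.cons_succ]
      obtain ⟨e1, e2⟩ := h1 _ (List.getElem_mem (hlt j))
      exact ⟨e1, iff_of_true e2 ⟨(Fin.succ_ne_zero j).symm, Or.inl rfl⟩⟩
  · refine Fin.cases ?_ (fun j => ?_) j
    · intro _
      rw [Fin.cons_zero, Fin.cons_succ]
      obtain ⟨e1, e2⟩ := h1 _ (List.getElem_mem (hlt i))
      exact ⟨e1.symm, iff_of_true (CA.symm' e2) ⟨Fin.succ_ne_zero i, Or.inr rfl⟩⟩
    · intro hij
      rw [Fin.cons_succ, Fin.cons_succ]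
      obtain ⟨e1, e2⟩ := key i j (fun h => hij (by rw [h]))
      refine ⟨e1, iff_of_false e2 ?_⟩
      rintro ⟨_, h | h⟩
      · exact Fin.succ_ne_zero i h
      · exact Fin.succ_ne_zero j h

variable {D : V → Dd} {md : Bool} {n t k : ℕ} {dm : ℕ → ℕ → Bool}

/-- The selected vertices of a contraction form a dominating set. -/
theorem Lay.dom_of [Finite V] (h : Lay G D md n t dm) {F : Finset (Sym2 V)} (hk : F.card ≤ k)
    {r : V} (hr : D r = ((0, 0, 0), 0, 0))
    (hd : ∀ w < n, ∃ y : V, cmp (F : Set (Sym2 V)) y = cmp (F : Set (Sym2 V)) r ∧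
      (D y).1.1 = 1 ∧ (D y).2.1 = 0 ∧ dm (D y).1.2.1 w = true) :
    ∃ S : Finset ℕ, Dom n k dm S := by
  classical
  have := Fintype.ofFinite V
  set T : Finset V := Finset.univ.filter (fun y => cmp (F : Set (Sym2 V)) y =
    cmp (F : Set (Sym2 V)) r ∧ (D y).1.1 = 1 ∧ (D y).2.1 = 0) with hT
  have hTm : ∀ y, y ∈ T ↔ cmp (F : Set (Sym2 V)) y = cmp (F : Set (Sym2 V)) r ∧
      (D y).1.1 = 1 ∧ (D y).2.1 = 0 := by
    intro y
    rw [hT, Finset.mem_filter]
    simp
  have hrT : r ∉ T := by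
    rw [hTm, hr]
    simp
  have h1 := card_component (F := F) (cmp (F : Set (Sym2 V)) r) (insert r T) (by
    intro v hv
    rcases Finset.mem_insert.1 hv with rfl | hv
    · rfl
    · exact ((hTm v).1 hv).1)
  rw [Finset.card_insert_of_notMem hrT] at h1
  refine ⟨T.image (fun y => (D y).1.2.1), (Finset.card_image_le.trans (by omega)), ?_, ?_⟩
  · intro v hv
    obtain ⟨y, hy, rfl⟩ := Finset.mem_image.1 hv
    have h2 := (hTm y).1 hy
    rcases (h.val y).1 with h3 | h3 | h3 | h3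
    · rw [h3] at h2; simp at h2
    · exact h3.2.1
    · rw [h3.1] at h2; simp at h2
    · rw [h3.1] at h2; simp at h2
  · intro w hw
    obtain ⟨y, e1, e2, e3, e4⟩ := hd w hw
    exact ⟨_, Finset.mem_image.2 ⟨y, (hTm y).2 ⟨e1, e2, e3⟩, rfl⟩, e4⟩

theorem triPt_bwd [Finite V] (h : Lay G D false n (2 * k + 1) dm) {F : Finset (Sym2 V)}
    (hk : F.card ≤ k) (hfree : Free triPt (contract G (F : Set (Sym2 V)))) :
    ∃ S : Finset ℕ, Dom n k dm S := by
  classical
  obtain ⟨r, hr⟩ := h.ex ((0, 0, 0), 0, 0) ⟨Or.inl rfl, Or.inl ⟨rfl, rfl⟩⟩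
  refine h.dom_of hk hr fun w hw => ?_
  -- an untouched triangle
  have hq : ∀ i c : ℕ, ∃ q : V, i < 2 * k + 1 → c < 2 → D q = ((0, 0, 0), i + 1, c) := by
    intro i c
    by_cases hi : i < 2 * k + 1 ∧ c < 2
    · obtain ⟨q, hq⟩ := h.ex ((0, 0, 0), i + 1, c) ⟨Or.inl rfl, Or.inr ⟨by simp,
        by simp [cn]; omega, by simp [sn]; omega⟩⟩
      exact ⟨q, fun _ _ => hq⟩
    · exact ⟨r, fun h1 h2 => absurd ⟨h1, h2⟩ hi⟩
  choose q hq using hq
  obtain ⟨i, hi, ha, hb⟩ : ∃ i < 2 * k + 1, (∀ e ∈ F, q i 0 ∉ e) ∧ ∀ e ∈ F, q i 1 ∉ e := by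
    set g : ℕ → V := fun i => if ∀ e ∈ F, q i 0 ∉ e then q i 1 else q i 0 with hg
    have hgD : ∀ i < 2 * k + 1, (D (g i)).2.1 = i + 1 := by
      intro i hi
      rw [hg]
      by_cases hc : ∀ e ∈ F, q i 0 ∉ e
      · simp only [if_pos hc]
        rw [hq i 1 hi (by omega)]
      · simp only [if_neg hc]
        rw [hq i 0 hi (by omega)]
    obtain ⟨i, hi, h1⟩ := exists_untouched hk g (fun i hi j hj hij => by
      have h1 := hgD i hi
      have h2 := hgD j hj
      rw [hij] at h1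
      omega)
    refine ⟨i, hi, ?_⟩
    rw [hg] at h1
    by_cases hc : ∀ e ∈ F, q i 0 ∉ e
    · simp only [if_pos hc] at h1
      exact ⟨hc, h1⟩
    · simp only [if_neg hc] at h1
      exact absurd h1 hc
  -- an untouched copy
  have hp : ∀ j : ℕ, ∃ p : V, j < 2 * k + 1 → D p = ((2, w, j), 0, 0) := by
    intro j
    by_cases hj : j < 2 * k + 1
    · obtain ⟨p, hp⟩ := h.ex ((2, w, j), 0, 0) ⟨Or.inr (Or.inr (Or.inl ⟨rfl, hw, hj⟩)),
        Or.inl ⟨rfl, rfl⟩⟩
      exact ⟨p, fun _ => hp⟩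
    · exact ⟨r, fun h1 => absurd h1 hj⟩
  choose p hp using hp
  obtain ⟨j, hj, hpj⟩ := exists_untouched hk p (fun i hi j hj hij => by
    have h1 := hp i hi
    rw [hij, hp j hj] at h1
    simp at h1
    omega)
  have hDp := hp j hj
  have hDa := hq i 0 hi (by omega)
  have hDb := hq i 1 hi (by omega)
  have hne : ∀ u v : V, D u ≠ D v → (∀ e ∈ F, u ∉ e) → cmp (F : Set (Sym2 V)) u ≠
      cmp (F : Set (Sym2 V)) v := by
    intro u v huv hu hc
    exact huv (congrArg D (mk_untouched (F := (F : Set (Sym2 V))) hu hc.symm).symm)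
  have hCA : CA G (F : Set (Sym2 V)) (p j) r := by
    by_contra hcon
    refine not_free_tri (p := p j) (r := r) (a := q i 0) (b := q i 1) ?_ ?_ ?_ ?_ ?_ ?_ ?_ ?_ ?_
      hcon ?_ ?_ hfree
    · exact hne _ _ (by rw [hDp, hr]; simp) hpj
    · exact hne _ _ (by rw [hDp, hDa]; simp) hpj
    · exact hne _ _ (by rw [hDp, hDb]; simp) hpj
    · exact (hne _ _ (by rw [hDa, hr]; simp) ha).symm
    · exact (hne _ _ (by rw [hDb, hr]; simp) hb).symm
    · exact hne _ _ (by rw [hDa, hDb]; simp) ha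
    · refine ⟨r, q i 0, rfl, rfl, (h.adj _ _).2 ⟨fun hc => ?_, ?_⟩⟩
      · rw [← hc, hr] at hDa; simp at hDa
      · rw [hr, hDa]; simp [rel]
    · refine ⟨r, q i 1, rfl, rfl, (h.adj _ _).2 ⟨fun hc => ?_, ?_⟩⟩
      · rw [← hc, hr] at hDb; simp at hDb
      · rw [hr, hDb]; simp [rel]
    · refine ⟨q i 0, q i 1, rfl, rfl, (h.adj _ _).2 ⟨fun hc => ?_, ?_⟩⟩
      · rw [hc, hDb] at hDa; simp at hDa
      · rw [hDa, hDb]; simp [rel]
    · rw [CA_untouched₂ (F := (F : Set (Sym2 V))) hpj ha, h.adj, hDp, hDa]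
      simp [rel]
    · rw [CA_untouched₂ (F := (F : Set (Sym2 V))) hpj hb, h.adj, hDp, hDb]
      simp [rel]
  rw [CA_untouched (F := (F : Set (Sym2 V))) hpj] at hCA
  obtain ⟨y, hy, hadj⟩ := hCA
  rw [h.adj] at hadj
  refine ⟨y, hy, ?_⟩
  rcases rel_cases hadj.2 with ⟨e1, _⟩ | ⟨e1, _, e3, e4⟩
  · exfalso
    have hv := (h.val y).2
    rw [← e1, hDp] at hv
    simp only [cn, cond_false] at hv
    have h0 : (D y).2.1 = 0 := by
      rcases hv with h5 | h5
      · exact h5.1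
      · simp at h5
        omega
    exact hadj.1 (h.same e1 (by rw [hDp]) h0)
  · rw [hDp] at e4
    simp [bs] at e4
    exact ⟨e4.1, e3, e4.2⟩

/-- Members of different private cliques are not adjacent. -/
theorem Lay.priv (h : Lay G D md n t dm) {u v : V} (hu : (D u).2.1 ≠ 0) (hv : (D v).2.1 ≠ 0)
    (huv : (D u).1 ≠ (D v).1 ∨ (D u).2.1 ≠ (D v).2.1) : ¬ G.Adj u v := by
  rw [h.adj]
  rintro ⟨_, hr⟩
  rcases rel_cases hr with ⟨e1, e2⟩ | ⟨_, e2, _⟩
  · rcases huv with h1 | h1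
    · exact h1 e1
    · rcases e2 with e2 | e2 | e2
      · exact hu e2
      · exact hv e2
      · exact h1 e2
  · exact hu e2

/-- The private vertices of an untouched vertex are not in the component of other vertices. -/
theorem Lay.closed (h : Lay G D md n t dm) {F : Finset (Sym2 V)}
    (hF : (F : Set (Sym2 V)) ⊆ G.edgeSet) {m : V} (hm0 : (D m).2.1 = 0)
    (hm : ∀ e ∈ F, m ∉ e) {r y : V} (hr : (D r).1 ≠ (D m).1) (hy : (D y).1 = (D m).1)
    (hyr : cmp (F : Set (Sym2 V)) y = cmp (F : Set (Sym2 V)) r) : False := by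
  by_cases hy0 : (D y).2.1 = 0
  · have h1 := h.same hy hy0 hm0
    subst h1
    have h2 := mk_untouched (F := (F : Set (Sym2 V))) hm hyr.symm
    exact hr (by rw [h2])
  · have h1 : r ∈ {u : V | (D u).1 = (D m).1 ∧ (D u).2.1 ≠ 0} := by
      refine mk_closed (Z := {u : V | (D u).1 = (D m).1 ∧ (D u).2.1 ≠ 0}) ?_ hyr ⟨hy, hy0⟩
      rintro u v huv ⟨h2, h3⟩
      have h4 := hF huv
      rw [mem_edgeSet, h.adj] at h4
      rcases rel_cases h4.2 with ⟨e1, _⟩ | ⟨_, e2, _⟩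
      · refine ⟨e1.symm.trans h2, fun h5 => ?_⟩
        have h6 := h.same (e1.symm.trans h2) h5 hm0
        subst h6
        exact hm _ huv (Sym2.mem_mk_right _ _)
      · exact absurd e2 h3
    exact hr h1.1

theorem star6_bwd [Finite V] (h : Lay G D true n (2 * k + 1) dm) {F : Finset (Sym2 V)}
    (hF : (F : Set (Sym2 V)) ⊆ G.edgeSet)
    (hk : F.card ≤ k) (hfree : Free star6 (contract G (F : Set (Sym2 V)))) :
    ∃ S : Finset ℕ, Dom n k dm S := by
  classical
  obtain ⟨r, hr⟩ := h.ex ((0, 0, 0), 0, 0) ⟨Or.inl rfl, Or.inl ⟨rfl, rfl⟩⟩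
  refine h.dom_of hk hr fun w hw => ?_
  have hne : ∀ u v : V, u ≠ v → (∀ e ∈ F, u ∉ e) → cmp (F : Set (Sym2 V)) u ≠
      cmp (F : Set (Sym2 V)) v := by
    intro u v huv hu hc
    exact huv (mk_untouched (F := (F : Set (Sym2 V))) hu hc.symm).symm
  -- untouched private vertices
  have hQ : ∀ (m : V) (i : ℕ), ∃ q : V, (D m).2.1 = 0 → i < cn true (2 * k + 1) (D m).1.1 →
      (D q).1 = (D m).1 ∧ (D q).2.1 = i + 1 ∧ ∀ e ∈ F, q ∉ e := by
    intro m i
    by_cases hi : i < cn true (2 * k + 1) (D m).1.1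
    · have hg : ∀ j : ℕ, ∃ q : V, j < 2 * k + 1 → D q = ((D m).1, i + 1, j) := by
        intro j
        by_cases hj : j < 2 * k + 1
        · obtain ⟨q, hq⟩ := h.ex ((D m).1, i + 1, j) ⟨(h.val m).1, Or.inr ⟨by simp,
            Nat.succ_le_of_lt hi, by simpa [sn] using hj⟩⟩
          exact ⟨q, fun _ => hq⟩
        · exact ⟨r, fun h1 => absurd h1 hj⟩
      choose g hg using hg
      obtain ⟨j, hj, hjF⟩ := exists_untouched hk g (fun a ha b hb hab => by
        have h1 := hg a ha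
        rw [hab, hg b hb] at h1
        simp at h1
        omega)
      refine ⟨g j, fun _ _ => ⟨by rw [hg j hj], by rw [hg j hj], hjF⟩⟩
    · exact ⟨r, fun _ h2 => absurd h2 hi⟩
  choose Q hQ using hQ
  -- pairs of private vertices
  have hQQ : ∀ u v : V, (D u).2.1 ≠ 0 → (D v).2.1 ≠ 0 →
      ((D u).1 ≠ (D v).1 ∨ (D u).2.1 ≠ (D v).2.1) → (∀ e ∈ F, u ∉ e) → (∀ e ∈ F, v ∉ e) →
      cmp (F : Set (Sym2 V)) u ≠ cmp (F : Set (Sym2 V)) v ∧ ¬ CA G (F : Set (Sym2 V)) u v := by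
    intro u v hu hv huv hu' hv'
    refine ⟨hne u v (fun hc => ?_) hu', ?_⟩
    · subst hc
      rcases huv with h1 | h1 <;> exact h1 rfl
    · rw [CA_untouched₂ (F := (F : Set (Sym2 V))) hu' hv']
      exact h.priv hu hv huv
  -- owners and their private vertices
  have hown : ∀ u v : V, (D u).2.1 = 0 → (D v).1 = (D u).1 → (D v).2.1 ≠ 0 → G.Adj u v := by
    intro u v hu hv hv0
    rw [h.adj]
    refine ⟨fun hc => hv0 (by rw [← hc]; exact hu), rel_same hv.symm (Or.inl hu)⟩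
  have hr0 : (D r).2.1 = 0 := by rw [hr]
  have hr1 : (D r).1 = (0, 0, 0) := by rw [hr]
  have hcr : cn true (2 * k + 1) (D r).1.1 = 3 := by rw [hr]; rfl
  -- an untouched universal vertex
  have hu : ∀ j : ℕ, ∃ u : V, j < 2 * k + 1 → D u = ((3, j, 0), 0, 0) := by
    intro j
    by_cases hj : j < 2 * k + 1
    · obtain ⟨u, hu⟩ := h.ex ((3, j, 0), 0, 0) ⟨Or.inr (Or.inr (Or.inr ⟨rfl, rfl, hj, rfl⟩)),
        Or.inl ⟨rfl, rfl⟩⟩
      exact ⟨u, fun _ => hu⟩
    · exact ⟨r, fun h1 => absurd h1 hj⟩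
  choose u hu using hu
  obtain ⟨ju, hju, huF⟩ := exists_untouched hk u (fun i hi j hj hij => by
    have h1 := hu i hi
    rw [hij, hu j hj] at h1
    simp at h1
    omega)
  have hDu := hu ju hju
  -- an untouched copy
  have hp : ∀ j : ℕ, ∃ p : V, j < 2 * k + 1 → D p = ((2, w, j), 0, 0) := by
    intro j
    by_cases hj : j < 2 * k + 1
    · obtain ⟨p, hp⟩ := h.ex ((2, w, j), 0, 0) ⟨Or.inr (Or.inr (Or.inl ⟨rfl, hw, hj⟩)),
        Or.inl ⟨rfl, rfl⟩⟩
      exact ⟨p, fun _ => hp⟩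
    · exact ⟨r, fun h1 => absurd h1 hj⟩
  choose p hp using hp
  obtain ⟨jp, hjp, hpF⟩ := exists_untouched hk p (fun i hi j hj hij => by
    have h1 := hp i hi
    rw [hij, hp j hj] at h1
    simp at h1
    omega)
  have hDp := hp jp hjp
  have hu0 : (D (u ju)).2.1 = 0 := by rw [hDu]
  have hp0 : (D (p jp)).2.1 = 0 := by rw [hDp]
  have hcu : cn true (2 * k + 1) (D (u ju)).1.1 = 4 := by rw [hDu]; rfl
  have hru : r ≠ u ju := by
    intro hc
    rw [hc, hDu] at hr
    simp at hr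
  have hup : u ju ≠ p jp := by
    intro hc
    rw [hc, hDp] at hDu
    simp at hDu
  have hrp : r ≠ p jp := by
    intro hc
    rw [hc, hDp] at hr
    simp at hr
  have hAup : G.Adj (u ju) (p jp) := by
    rw [h.adj, hDu, hDp]
    exact ⟨hup, by simp [rel, bs]⟩
  have hAur : G.Adj (u ju) r := by
    rw [h.adj, hDu, hr]
    exact ⟨hru.symm, by simp [rel, bs]⟩
  -- the component of the root is adjacent to the copy
  have hCA : CA G (F : Set (Sym2 V)) (p jp) r := by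
    by_contra hcon
    have g : ∀ i < 4, (D (Q (u ju) i)).1 = (D (u ju)).1 ∧ (D (Q (u ju) i)).2.1 = i + 1 ∧
        ∀ e ∈ F, Q (u ju) i ∉ e := fun i hi => hQ (u ju) i hu0 (by rw [hcu]; exact hi)
    have g1 : ∀ i < 4, cmp (F : Set (Sym2 V)) (u ju) ≠ cmp (F : Set (Sym2 V)) (Q (u ju) i) ∧
        CA G (F : Set (Sym2 V)) (u ju) (Q (u ju) i) := by
      intro i hi
      obtain ⟨a1, a2, a3⟩ := g i hi
      have hA := hown (u ju) (Q (u ju) i) hu0 a1 (by omega)
      exact ⟨hne _ _ hA.ne huF, ⟨_, _, rfl, rfl, hA⟩⟩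
    have g2 : ∀ i < 4, ∀ j < 4, i ≠ j → cmp (F : Set (Sym2 V)) (Q (u ju) i) ≠
        cmp (F : Set (Sym2 V)) (Q (u ju) j) ∧
        ¬ CA G (F : Set (Sym2 V)) (Q (u ju) i) (Q (u ju) j) := by
      intro i hi j hj hij
      obtain ⟨a1, a2, a3⟩ := g i hi
      obtain ⟨b1, b2, b3⟩ := g j hj
      exact hQQ _ _ (by omega) (by omega) (Or.inr (by omega)) a3 b3
    have g3 : ∀ i < 4, cmp (F : Set (Sym2 V)) (Q (u ju) i) ≠ cmp (F : Set (Sym2 V)) r ∧
        ¬ CA G (F : Set (Sym2 V)) (Q (u ju) i) r := by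
      intro i hi
      obtain ⟨a1, a2, a3⟩ := g i hi
      refine ⟨hne _ _ (fun hc => ?_) a3, ?_⟩
      · rw [hc, hr0] at a2
        omega
      · rw [CA_untouched (F := (F : Set (Sym2 V))) a3]
        rintro ⟨y, hy, hadj⟩
        rw [h.adj] at hadj
        have hDy : (D y).1 = (D (u ju)).1 := by
          rcases rel_cases hadj.2 with ⟨e1, _⟩ | ⟨_, e2, _⟩
          · rw [← e1]; exact a1
          · omega
        exact h.closed hF hu0 huF (by rw [hr1, hDu]; simp) hDy hy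
    have g4 : ∀ i < 4, cmp (F : Set (Sym2 V)) (Q (u ju) i) ≠ cmp (F : Set (Sym2 V)) (p jp) ∧
        ¬ CA G (F : Set (Sym2 V)) (Q (u ju) i) (p jp) := by
      intro i hi
      obtain ⟨a1, a2, a3⟩ := g i hi
      refine ⟨hne _ _ (fun hc => ?_) a3, ?_⟩
      · rw [hc, hp0] at a2
        omega
      · rw [CA_untouched₂ (F := (F : Set (Sym2 V))) a3 hpF, h.adj]
        rintro ⟨_, hrel⟩
        rcases rel_cases hrel with ⟨e1, _⟩ | ⟨_, e2, _⟩
        · rw [a1, hDu, hDp] at e1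
          simp at e1
        · omega
    refine not_free_star (c := u ju) [Q (u ju) 0, Q (u ju) 1, Q (u ju) 2, Q (u ju) 3, r, p jp] rfl
      ?_ ?_ hfree
    · intro y hy
      simp only [List.mem_cons, List.not_mem_nil, or_false] at hy
      rcases hy with rfl | rfl | rfl | rfl | rfl | rfl
      · exact g1 0 (by omega)
      · exact g1 1 (by omega)
      · exact g1 2 (by omega)
      · exact g1 3 (by omega)
      · exact ⟨hne _ _ hru.symm huF, ⟨_, _, rfl, rfl, hAur⟩⟩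
      · exact ⟨hne _ _ hup huF, ⟨_, _, rfl, rfl, hAup⟩⟩
    · simp only [List.pairwise_cons, List.mem_cons, List.not_mem_nil, or_false, forall_eq_or_imp,
        forall_eq, List.Pairwise.nil, and_true, IsEmpty.forall_iff, implies_true]
      refine ⟨⟨g2 0 (by omega) 1 (by omega) (by omega), g2 0 (by omega) 2 (by omega) (by omega),
        g2 0 (by omega) 3 (by omega) (by omega), g3 0 (by omega), g4 0 (by omega)⟩,
        ⟨g2 1 (by omega) 2 (by omega) (by omega), g2 1 (by omega) 3 (by omega) (by omega),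
          g3 1 (by omega), g4 1 (by omega)⟩,
        ⟨g2 2 (by omega) 3 (by omega) (by omega), g3 2 (by omega), g4 2 (by omega)⟩,
        ⟨g3 3 (by omega), g4 3 (by omega)⟩, (hne _ _ hrp.symm hpF).symm, fun hc => hcon hc.symm'⟩
  rw [CA_untouched (F := (F : Set (Sym2 V))) hpF] at hCA
  obtain ⟨y, hy, hadj⟩ := hCA
  rw [h.adj] at hadj
  refine ⟨y, hy, ?_⟩
  rcases rel_cases hadj.2 with ⟨e1, _⟩ | ⟨e1, _, e3, e4⟩
  · exfalso
    exact h.closed hF hp0 hpF (by rw [hr1, hDp]; simp) e1.symm hy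
  · by_cases hy2 : 2 ≤ (D y).1.1
    · -- a star at the component of the root
      exfalso
      have hcy : 3 ≤ cn true (2 * k + 1) (D y).1.1 := by
        unfold cn
        by_cases h3 : (D y).1.1 = 3
        · simp [h3]
        · have : (D y).1.1 ≠ 1 := by omega
          simp [h3, this]
      have hyr : (D y).1 ≠ (D r).1 := by
        intro hc
        rw [hc, hr1] at hy2
        simp at hy2
      have g : ∀ i < 3, (D (Q r i)).1 = (D r).1 ∧ (D (Q r i)).2.1 = i + 1 ∧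
          ∀ e ∈ F, Q r i ∉ e := fun i hi => hQ r i hr0 (by rw [hcr]; exact hi)
      have g' : ∀ i < 3, (D (Q y i)).1 = (D y).1 ∧ (D (Q y i)).2.1 = i + 1 ∧
          ∀ e ∈ F, Q y i ∉ e := fun i hi => hQ y i e3 (by omega)
      have g1 : ∀ i < 3, cmp (F : Set (Sym2 V)) r ≠ cmp (F : Set (Sym2 V)) (Q r i) ∧
          CA G (F : Set (Sym2 V)) r (Q r i) := by
        intro i hi
        obtain ⟨a1, a2, a3⟩ := g i hi
        have hA := hown r (Q r i) hr0 a1 (by omega)
        exact ⟨(hne _ _ hA.ne.symm a3).symm, ⟨_, _, rfl, rfl, hA⟩⟩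
      have g1' : ∀ i < 3, cmp (F : Set (Sym2 V)) r ≠ cmp (F : Set (Sym2 V)) (Q y i) ∧
          CA G (F : Set (Sym2 V)) r (Q y i) := by
        intro i hi
        obtain ⟨a1, a2, a3⟩ := g' i hi
        have hA := hown y (Q y i) e3 a1 (by omega)
        refine ⟨(hne _ _ (fun hc => ?_) a3).symm, ⟨y, _, hy, rfl, hA⟩⟩
        rw [hc] at a1
        exact hyr a1.symm
      have g2 : ∀ i < 3, ∀ j < 3, i ≠ j → cmp (F : Set (Sym2 V)) (Q r i) ≠
          cmp (F : Set (Sym2 V)) (Q r j) ∧ ¬ CA G (F : Set (Sym2 V)) (Q r i) (Q r j) := by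
        intro i hi j hj hij
        obtain ⟨a1, a2, a3⟩ := g i hi
        obtain ⟨b1, b2, b3⟩ := g j hj
        exact hQQ _ _ (by omega) (by omega) (Or.inr (by omega)) a3 b3
      have g2' : ∀ i < 3, ∀ j < 3, i ≠ j → cmp (F : Set (Sym2 V)) (Q y i) ≠
          cmp (F : Set (Sym2 V)) (Q y j) ∧ ¬ CA G (F : Set (Sym2 V)) (Q y i) (Q y j) := by
        intro i hi j hj hij
        obtain ⟨a1, a2, a3⟩ := g' i hi
        obtain ⟨b1, b2, b3⟩ := g' j hj
        exact hQQ _ _ (by omega) (by omega) (Or.inr (by omega)) a3 b3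
      have g3 : ∀ i < 3, ∀ j < 3, cmp (F : Set (Sym2 V)) (Q r i) ≠
          cmp (F : Set (Sym2 V)) (Q y j) ∧ ¬ CA G (F : Set (Sym2 V)) (Q r i) (Q y j) := by
        intro i hi j hj
        obtain ⟨a1, a2, a3⟩ := g i hi
        obtain ⟨b1, b2, b3⟩ := g' j hj
        exact hQQ _ _ (by omega) (by omega) (Or.inl (by rw [a1, b1]; exact hyr.symm)) a3 b3
      refine not_free_star (c := r) [Q r 0, Q r 1, Q r 2, Q y 0, Q y 1, Q y 2] rfl
        ?_ ?_ hfree
      · intro z hz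
        simp only [List.mem_cons, List.not_mem_nil, or_false] at hz
        rcases hz with rfl | rfl | rfl | rfl | rfl | rfl
        · exact g1 0 (by omega)
        · exact g1 1 (by omega)
        · exact g1 2 (by omega)
        · exact g1' 0 (by omega)
        · exact g1' 1 (by omega)
        · exact g1' 2 (by omega)
      · simp only [List.pairwise_cons, List.mem_cons, List.not_mem_nil, or_false,
          forall_eq_or_imp, forall_eq, List.Pairwise.nil, and_true, IsEmpty.forall_iff,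
          implies_true]
        refine ⟨⟨g2 0 (by omega) 1 (by omega) (by omega), g2 0 (by omega) 2 (by omega) (by omega),
          g3 0 (by omega) 0 (by omega), g3 0 (by omega) 1 (by omega), g3 0 (by omega) 2 (by omega)⟩,
          ⟨g2 1 (by omega) 2 (by omega) (by omega), g3 1 (by omega) 0 (by omega),
            g3 1 (by omega) 1 (by omega), g3 1 (by omega) 2 (by omega)⟩,
          ⟨g3 2 (by omega) 0 (by omega), g3 2 (by omega) 1 (by omega),
            g3 2 (by omega) 2 (by omega)⟩,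
          ⟨g2' 0 (by omega) 1 (by omega) (by omega), g2' 0 (by omega) 2 (by omega) (by omega)⟩,
          g2' 1 (by omega) 2 (by omega) (by omega)⟩
    · rw [hDp] at e4
      simp only [bs] at e4
      have hk3 : (D y).1.1 = 0 ∨ (D y).1.1 = 1 := by omega
      rcases hk3 with h0 | h0
      · simp [h0] at e4
      · simp [h0] at e4
        exact ⟨h0, e3, e4⟩

end

end Pool.Agent.H633R2.Ctr
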