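import Pool.Agent.H633R2.Ctr.Swap

/-!
# Solutions inside a candidate set
-/

namespace Pool.Agent.H633R2.Ctr

variable {V : Type}

/-- The equivalence relation generated by a list of pairs. -/
def gen (L : List (V × V)) : V → V → Prop := Relation.EqvGen (fun x y => (x, y) ∈ L)

theorem gen_equiv (L : List (V × V)) : Equivalence (gen L) := Relation.EqvGen.is_equivalence _

/-- The touched vertices. -/
def tch [DecidableEq V] (L : List (V × V)) : Finset V := (L.flatMap (fun e => [e.1, e.2])).toFinset

theorem mem_tch [DecidableEq V] {L : List (V × V)} {x : V} :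
    x ∈ tch L ↔ ∃ e ∈ L, x = e.1 ∨ x = e.2 := by
  simp [tch]

theorem card_tch [DecidableEq V] (L : List (V × V)) : (tch L).card ≤ 2 * L.length := by
  refine (List.toFinset_card_le _).trans ?_
  induction L with
  | nil => simp
  | cons e L ih => simp only [List.flatMap_cons, List.length_append, List.length_cons] at *
                   simp only [List.length_nil]
                   omega

theorem gen_single [DecidableEq V] {L : List (V × V)} {x y : V} (hx : x ∉ tch L)
    (h : gen L x y) : x = y := by
  have key : ∀ x y, gen L x y → x = y ∨ (x ∈ tch L ∧ y ∈ tch L) := by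
    intro x y h
    induction h with
    | rel x y h => exact Or.inr ⟨mem_tch.2 ⟨_, h, Or.inl rfl⟩, mem_tch.2 ⟨_, h, Or.inr rfl⟩⟩
    | refl x => exact Or.inl rfl
    | symm x y _ ih =>
      rcases ih with ih | ih
      · exact Or.inl ih.symm
      · exact Or.inr ⟨ih.2, ih.1⟩
    | trans x y z _ _ ih1 ih2 =>
      rcases ih1 with ih1 | ih1
      · rw [ih1]; exact ih2
      · rcases ih2 with ih2 | ih2
        · rw [← ih2]; exact Or.inr ih1
        · exact Or.inr ⟨ih1.1, ih2.2⟩
  rcases key x y h with h | h
  · exact h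
  · exact absurd h.1 hx

theorem gen_map {φ : V → V} (hφ : ∀ x, φ (φ x) = x) (L : List (V × V)) (x y : V) :
    gen (L.map (fun e => (φ e.1, φ e.2))) x y ↔ gen L (φ x) (φ y) := by
  constructor
  · intro h
    induction h with
    | rel x y h =>
      rw [List.mem_map] at h
      obtain ⟨e, he, h⟩ := h
      rw [Prod.mk.injEq] at h
      rw [← h.1, ← h.2, hφ, hφ]
      exact Relation.EqvGen.rel _ _ he
    | refl x => exact Relation.EqvGen.refl _
    | symm x y _ ih => exact Relation.EqvGen.symm _ _ ih
    | trans x y z _ _ ih1 ih2 => exact Relation.EqvGen.trans _ _ _ ih1 ih2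
  · have key : ∀ a b, gen L a b → gen (L.map (fun e => (φ e.1, φ e.2))) (φ a) (φ b) := by
      intro a b h
      induction h with
      | rel a b h => exact Relation.EqvGen.rel _ _ (List.mem_map.2 ⟨_, h, rfl⟩)
      | refl a => exact Relation.EqvGen.refl _
      | symm a b _ ih => exact Relation.EqvGen.symm _ _ ih
      | trans a b c _ _ ih1 ih2 => exact Relation.EqvGen.trans _ _ _ ih1 ih2
    intro h
    have := key _ _ h
    rwa [hφ, hφ] at this

/-- The edges that may be contracted. -/
def Ed (md : Bool) (A : V → V → Prop) (Vs : Finset V) (x y : V) : Prop :=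
  (md = true → x ∈ Vs ∧ y ∈ Vs ∧ x ≠ y ∧ ¬ A x y) ∧ (md = false → A x y)

/-- Solutions: lists of at most `k` edges whose contraction destroys all cliques on `a + 1`
vertices and all stars with `b` leaves. -/
structure Good (md : Bool) (A : V → V → Prop) (Vs : Finset V) (a b k : ℕ) (L : List (V × V)) :
    Prop where
  ed : ∀ e ∈ L, Ed md A Vs e.1 e.2
  len : L.length ≤ k
  cl : ¬ Pat (CH a True) (XA md A (gen L)) (gen L)
  st : ¬ Pat (CH b False) (XA md A (gen L)) (gen L)

/-- The setting. -/
structure Setting (md : Bool) (A : V → V → Prop) (R B : Finset V) (a b r k : ℕ) : Prop where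
  hA : ∀ x y, A x y → A y x
  irr : ∀ x, ¬ A x x
  ha : 0 < a
  hb : 0 < b
  hr : RamseyNum a b r
  hRB : ∀ x ∈ B, x ∉ R
  hV : ∀ x y, A x y → x ∈ R ∨ x ∈ B
  hR : ∀ x ∈ R, ∀ S : Finset V, (∀ y ∈ S, A x y) → S.card ≤ r + 2 * k
  hB : ∀ x ∈ B, ∃ S : Finset V, (∀ y ∈ S, A x y) ∧ r + 2 * k < S.card

/-- Members of patterns. -/
def Yob (A : V → V → Prop) (R : Finset V) (a b : ℕ) : Set V :=
  {y | ∃ c P, ((c = a ∧ P = True) ∨ (c = b ∧ P = False)) ∧ ∃ h : Fin (c + 1) → V,
    (∀ i j, i ≠ j → h i ≠ h j ∧ (A (h i) (h j) ↔ CH c P i j)) ∧ (∀ i, h i ∈ R) ∧ ∃ i, h i = y}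

open Classical in
/-- Common neighbours of sets of large vertices. -/
def Ycn (A : V → V → Prop) (R B : Finset V) (D : ℕ) : Set V :=
  {y | y ∈ R ∧ (R.filter (fun z => ∀ b ∈ B, A y b → A z b)).card ≤ D}

section

variable [DecidableEq V] {md : Bool} {A : V → V → Prop} {R B : Finset V} {a b r k : ℕ}

theorem Setting.untouched_bound (S : Setting md A R B a b r k) {L : List (V × V)} {Vs : Finset V}
    (hL : Good md A Vs a b k L) (x : V) (S' : Finset V)
    (hx : ∀ y ∈ S', y ∉ tch L → XA md A (gen L) x y) : S'.card < r + 2 * k + 1 ∧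
      (S'.filter (fun y => y ∉ tch L)).card < r := by
  have h1 := deg_bound S.hr S.hA (gen_equiv L) hL.cl hL.st x (S'.filter (fun y => y ∉ tch L))
    (fun y hy z => gen_single (Finset.mem_filter.1 hy).2)
    (fun y hy => hx y (Finset.mem_filter.1 hy).1 (Finset.mem_filter.1 hy).2)
  refine ⟨?_, h1⟩
  have h2 : (S'.filter (fun y => y ∈ tch L)).card + (S'.filter (fun y => y ∉ tch L)).card =
      S'.card := Finset.card_filter_add_card_filter_not (s := S') (p := fun y => y ∈ tch L)
  have h3 : (S'.filter (fun y => y ∈ tch L)).card ≤ (tch L).card :=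
    Finset.card_le_card (fun y hy => (Finset.mem_filter.1 hy).2)
  have h4 := card_tch L
  have h5 := hL.len
  omega

theorem Setting.hBT (S : Setting md A R B a b r k) {L : List (V × V)} {Vs : Finset V}
    (hL : Good md A Vs a b k L) : ∀ x ∈ B, x ∈ tch L := by
  intro x hx
  by_contra hxT
  obtain ⟨S', hS', hc⟩ := S.hB x hx
  have := (S.untouched_bound hL x S' (fun y hy hyT => by
    have hne : x ≠ y := fun h => S.irr x (by have := hS' y hy; rwa [← h] at this)
    rw [XA_single (gen_equiv L) hne (fun z => gen_single hxT) (fun z => gen_single hyT)]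
    exact hS' y hy)).1
  omega

theorem Setting.hB_empty (S : Setting false A R B a b r k) {L : List (V × V)} {Vs : Finset V}
    (hL : Good false A Vs a b k L) : ∀ x, x ∉ B := by
  intro x hx
  obtain ⟨S', hS', hc⟩ := S.hB x hx
  have := (S.untouched_bound hL x S' (fun y hy hyT => by
    have hne : x ≠ y := fun h => S.irr x (by have := hS' y hy; rwa [← h] at this)
    refine ⟨fun h => hne (gen_single hyT ((gen_equiv L).symm h)).symm, fun h => by simp at h,
      fun _ => ⟨x, y, (gen_equiv L).refl x, (gen_equiv L).refl y, hS' y hy⟩⟩)).1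
  omega

theorem Setting.hc1 (S : Setting md A R B a b r k) {L : List (V × V)} {Vs : Finset V}
    (hL : Good md A Vs a b k L) : ∀ x ∈ tch L, ∀ y ∉ tch L, XA md A (gen L) x y →
      (∃ t, (t ∈ tch L ∧ t ∈ R) ∧ A t y) ∨ y ∈ Ycn A R B (r + 2 * k) := by
  classical
  intro x hx y hy h
  have hcls : ∀ x', gen L x x' → x' ∈ tch L := by
    intro x' hxx'
    by_contra hx'
    have := gen_single hx' ((gen_equiv L).symm hxx')
    exact hx' (this ▸ hx)
  cases md with
  | false =>
    left
    obtain ⟨x', y', h1, h2, h3⟩ := h.2.2 rfl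
    have h4 := gen_single hy h2
    rw [← h4] at h3
    refine ⟨x', ⟨hcls x' h1, ?_⟩, h3⟩
    rcases S.hV _ _ h3 with h5 | h5
    · exact h5
    · exact absurd h5 (S.hB_empty hL x')
  | true =>
    by_cases hex : ∃ x', gen L x x' ∧ x' ∈ R
    · left
      obtain ⟨x', h1, h2⟩ := hex
      exact ⟨x', ⟨hcls x' h1, h2⟩, h.2.1 rfl x' y h1 ((gen_equiv L).refl y)⟩
    · right
      have hyR : y ∈ R := by
        have h1 := h.2.1 rfl x y ((gen_equiv L).refl x) ((gen_equiv L).refl y)
        rcases S.hV _ _ (S.hA _ _ h1) with h5 | h5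
        · exact h5
        · exact absurd (S.hBT hL y h5) hy
      refine ⟨hyR, ?_⟩
      have := (S.untouched_bound hL x (R.filter (fun z => ∀ b ∈ B, A y b → A z b)) ?_).1
      · omega
      · intro z hz hzT
        rw [Finset.mem_filter] at hz
        refine ⟨fun h' => hzT (hcls z h'), fun _ x' z' h1 h2 => ?_, fun h' => by simp at h'⟩
        rw [← gen_single hzT h2]
        have h3 := h.2.1 rfl x' y h1 ((gen_equiv L).refl y)
        rcases S.hV _ _ h3 with h5 | h5
        · exact absurd ⟨x', h1, h5⟩ hex
        · exact S.hA _ _ (hz.2 x' h5 (S.hA _ _ h3))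

/-- A free annulus. -/
theorem annulus (T : Finset V) (k : ℕ) (hT : T.card ≤ 2 * k) (v : V) :
    ∃ c ≤ 2 * k, ∀ t ∈ T, wd A R (6 * c) v t ∨ ¬ wd A R (6 * c + 6) v t := by
  by_contra hcon
  push Not at hcon
  have : Nonempty V := ⟨v⟩
  choose! f hf using hcon
  have hinj : Set.InjOn f (Finset.range (2 * k + 1)) := by
    intro c hc c' hc' h
    simp only [Finset.coe_range, Set.mem_Iio] at hc hc'
    by_contra hne
    rcases Nat.lt_or_gt_of_ne hne with hlt | hlt
    · have h1 := (hf c (by omega)).2.2
      have h2 := (hf c' (by omega)).2.1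
      exact h2 (h ▸ wd_mono (by omega) h1)
    · have h1 := (hf c' (by omega)).2.2
      have h2 := (hf c (by omega)).2.1
      exact h2 (h.symm ▸ wd_mono (by omega) h1)
  have h1 : ((Finset.range (2 * k + 1)).image f).card = 2 * k + 1 := by
    rw [Finset.card_image_of_injOn hinj, Finset.card_range]
  have h2 : (Finset.range (2 * k + 1)).image f ⊆ T := by
    intro t ht
    rw [Finset.mem_image] at ht
    obtain ⟨c, hc, rfl⟩ := ht
    rw [Finset.mem_range] at hc
    exact (hf c (by omega)).1
  have := Finset.card_le_card h2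
  omega

/-- Candidate sets. -/
structure Cand (A : V → V → Prop) (R B : Finset V) (Y : Set V) (k ρ : ℕ) (W : Finset V) :
    Prop where
  hρ : 12 * k + 6 ≤ ρ
  hB : ∀ x ∈ B, x ∈ W
  hY : ∀ v ∈ R, v ∉ W → ∀ y ∈ Y, ¬ wd A R ρ v y
  hU : ∀ v ∈ R, v ∉ W → ∃ U : Finset V, 2 * k < U.card ∧
    (∀ u ∈ U, u ∈ R ∧ (∃ ι ι' : V → V, BallIso A R B ρ v u ι ι') ∧ (∀ y ∈ Y, ¬ wd A R ρ u y) ∧
      ¬ wd A R (2 * ρ) v u ∧ ∀ x, wd A R ρ u x → x ∈ W) ∧
    ∀ u ∈ U, ∀ u' ∈ U, u ≠ u' → ¬ wd A R (2 * ρ) u u'

/-- Solutions can be moved into the candidate set. -/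
theorem exchange (S : Setting md A R B a b r k) {ρ : ℕ} {W : Finset V}
    (C : Cand A R B (Yob A R a b ∪ Ycn A R B (r + 2 * k)) k ρ W) :
    ∀ (n : ℕ) (L : List (V × V)), Good md A (R ∪ B) a b k L → ((tch L) \ W).card = n →
      ∃ L' : List (V × V), Good md A (R ∪ B) a b k L' ∧ ∀ x ∈ tch L', x ∈ W := by
  intro n
  induction n using Nat.strong_induction_on with
  | _ n ih =>
    intro L hL hn
    by_cases hsub : ∀ x ∈ tch L, x ∈ W
    · exact ⟨L, hL, hsub⟩
    · push Not at hsub
      obtain ⟨v, hvT, hvW⟩ := hsub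
      -- `v` is a small vertex
      have hedV : ∀ e ∈ L, (e.1 ∈ R ∪ B) ∧ e.2 ∈ R ∪ B := by
        intro e he
        have h1 := hL.ed e he
        cases md with
        | true => exact ⟨(h1.1 rfl).1, (h1.1 rfl).2.1⟩
        | false =>
          have h2 := h1.2 rfl
          exact ⟨Finset.mem_union.2 (S.hV _ _ h2), Finset.mem_union.2 (S.hV _ _ (S.hA _ _ h2))⟩
      have hTV : ∀ x ∈ tch L, x ∈ R ∪ B := by
        intro x hx
        obtain ⟨e, he, h | h⟩ := mem_tch.1 hx
        · rw [h]; exact (hedV e he).1
        · rw [h]; exact (hedV e he).2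
      have hvR : v ∈ R := by
        rcases Finset.mem_union.1 (hTV v hvT) with h | h
        · exact h
        · exact absurd (C.hB v h) hvW
      have hTc : (tch L).card ≤ 2 * k := (card_tch L).trans (by have := hL.len; omega)
      obtain ⟨c, hc, hann⟩ := annulus (A := A) (R := R) (tch L) k hTc v
      obtain ⟨U, hUc, hU, hUU⟩ := C.hU v hvR hvW
      have hρ := C.hρ
      -- choose a far copy
      obtain ⟨u, huU, huT⟩ : ∃ u ∈ U, ∀ t ∈ tch L, t ∈ R → ¬ wd A R ρ u t := by
        by_contra hcon
        push Not at hcon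
        choose! f hf using hcon
        have hinj : Set.InjOn f (U : Set V) := by
          intro u hu u' hu' h
          by_contra hne
          have h1 := (hf u hu).2.2
          have h2 := (hf u' hu').2.2
          rw [← h] at h2
          have h3 := wd_symm S.hA (hU u' hu').1 h2
          have h4 := wd_trans h1 h3
          exact hUU u hu u' hu' hne (wd_mono (by omega) h4)
        have h1 : (U.image f).card = U.card := Finset.card_image_of_injOn hinj
        have h2 : U.image f ⊆ tch L := by
          intro t ht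
          obtain ⟨u, hu, rfl⟩ := Finset.mem_image.1 ht
          exact (hf u hu).1
        have := Finset.card_le_card h2
        omega
      obtain ⟨huR, ⟨ι, ι', iso⟩, huY, hvu, huW⟩ := hU u huU
      have SD : SwapData A R B (tch L : Set V) (Yob A R a b ∪ Ycn A R B (r + 2 * k)) (6 * c)
          (6 * c + 3) ρ v u ι ι' :=
        { hA := S.hA
          hRB := S.hRB
          hBT := fun x hx => S.hBT hL x hx
          hV := S.hV
          hv := hvR
          hv' := huR
          hij := rfl
          hj := by omega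
          iso := iso
          hTv := fun t ht _ => hann t ht
          hTv' := fun t ht htR h => huT t ht htR (wd_mono (by omega) h)
          hYR := by
            rintro y (hy | hy)
            · obtain ⟨_, _, _, h, _, h1, i, rfl⟩ := hy
              exact h1 i
            · exact hy.1
          hYv := fun y hy => ⟨fun h => C.hY v hvR hvW y hy (wd_mono (by omega) h),
            fun h => huY y hy (wd_mono (by omega) h)⟩
          hvv := fun h => hvu (wd_mono (by omega) h) }
      set φ : V → V := swp A R (6 * c + 3) v u ι ι' with hφ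
      have hinv : ∀ x, φ (φ x) = x := SD.invol
      have hgen : gen (L.map (fun e => (φ e.1, φ e.2))) =
          fun x y => gen L (φ x) (φ y) := by
        funext x y
        exact propext (gen_map hinv L x y)
      have hc1' : ∀ x ∈ (tch L : Set V), ∀ y ∉ (tch L : Set V), XA md A (gen L) x y →
          (∃ t, (t ∈ (tch L : Set V) ∧ t ∈ R) ∧ A t y) ∨
            y ∈ Yob A R a b ∪ Ycn A R B (r + 2 * k) := by
        intro x hx y hy h
        rcases S.hc1 hL x hx y hy h with h1 | h1
        · exact Or.inl h1
        · exact Or.inr (Or.inr h1)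
      have hGood : Good md A (R ∪ B) a b k (L.map (fun e => (φ e.1, φ e.2))) := by
        refine ⟨?_, ?_, ?_, ?_⟩
        · intro e he
          obtain ⟨e', he', rfl⟩ := List.mem_map.1 he
          have h1 := hL.ed e' he'
          have h2 : e'.1 ∈ tch L := mem_tch.2 ⟨e', he', Or.inl rfl⟩
          have h3 := SD.adj (x := e'.1) (Or.inl h2) e'.2
          have hmem : ∀ x ∈ R ∪ B, φ x ∈ R ∪ B := by
            intro x hx
            rcases Finset.mem_union.1 hx with hx | hx
            · exact Finset.mem_union_left _ (SD.memR.2 hx)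
            · rw [hφ, SD.fixB (S.hRB x hx)]
              exact Finset.mem_union_right _ hx
          refine ⟨fun hm => ?_, fun hm => ?_⟩
          · obtain ⟨g1, g2, g3, g4⟩ := h1.1 hm
            refine ⟨hmem _ g1, hmem _ g2, fun h => g3 ?_, fun h => g4 (h3.1 h)⟩
            have := congrArg φ h
            simpa only [hinv] using this
          · exact h3.2 (h1.2 hm)
        · rw [List.length_map]; exact hL.len
        · rw [hgen]
          exact SD.pat (gen_equiv L) (fun x hx y => gen_single hx) hc1' S.ha (cone_CH a True)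
            (fun h hh hR i => Or.inl ⟨a, True, Or.inl ⟨rfl, rfl⟩, h, hh, hR, i, rfl⟩) hL.cl
        · rw [hgen]
          exact SD.pat (gen_equiv L) (fun x hx y => gen_single hx) hc1' S.hb (cone_CH b False)
            (fun h hh hR i => Or.inl ⟨b, False, Or.inr ⟨rfl, rfl⟩, h, hh, hR, i, rfl⟩) hL.st
      -- the measure decreases
      have hlt : ((tch (L.map (fun e => (φ e.1, φ e.2)))) \ W).card < n := by
        rw [← hn]
        apply Finset.card_lt_card
        have himg : ∀ x ∈ tch (L.map (fun e => (φ e.1, φ e.2))), x ∉ W →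
            x ∈ tch L ∧ x ≠ v := by
          intro x hx hxW
          obtain ⟨e, he, hxe⟩ := mem_tch.1 hx
          obtain ⟨e', he', rfl⟩ := List.mem_map.1 he
          obtain ⟨t, htT, hxt⟩ : ∃ t ∈ tch L, x = φ t := by
            rcases hxe with h | h
            · exact ⟨e'.1, mem_tch.2 ⟨e', he', Or.inl rfl⟩, h⟩
            · exact ⟨e'.2, mem_tch.2 ⟨e', he', Or.inr rfl⟩, h⟩
          by_cases h1 : wd A R (6 * c + 3) v t
          · exfalso
            rw [hxt, hφ, SD.phi1 h1] at hxW
            exact hxW (huW _ (wd_mono (by omega) (SD.io h1).1))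
          · have h2 : ¬ wd A R (6 * c + 3) u t := by
              intro h2
              by_cases htR : t ∈ R
              · exact huT t htT htR (wd_mono (by omega) h2)
              · exact htR (wd_mem huR h2)
            rw [hφ, SD.phi3 h1 h2] at hxt
            rw [hxt]
            exact ⟨htT, fun h => h1 (h ▸ wd_refl _ _)⟩
        rw [Finset.ssubset_iff_of_subset]
        · exact ⟨v, Finset.mem_sdiff.2 ⟨hvT, hvW⟩, fun h =>
            (himg v (Finset.mem_sdiff.1 h).1 (Finset.mem_sdiff.1 h).2).2 rfl⟩
        · intro x hx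
          rw [Finset.mem_sdiff] at hx ⊢
          exact ⟨(himg x hx.1 hx.2).1, hx.2⟩
      exact ih _ hlt _ hGood rfl

end

end Pool.Agent.H633R2.Ctr
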