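import Pool.Agent.H633R2.Ctr.Lay

/-!
# From dominating sets to contractions
-/

namespace Pool.Agent.H633R2.Ctr

open SimpleGraph

section

variable {V : Type} {G : SimpleGraph V} {D : V → Dd} {n t k : ℕ}
  {dm : ℕ → ℕ → Bool} {S : Finset ℕ}

theorem triPt_fwd (h : Lay G D false n t dm) (hS : Dom n k dm S) :
    ∃ F : Finset (Sym2 V), (F : Set (Sym2 V)) ⊆ G.edgeSet ∧ F.card ≤ k ∧
      Free triPt (contract G F) := by
  obtain ⟨F, hF1, hF2, hF3⟩ := h.fwd hS
  refine ⟨F, hF1, hF2, ?_⟩
  unfold Free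
  rw [← not_nonempty_iff, emb_iff]
  rintro ⟨f, hf⟩
  have hf' : ∀ i j, i ≠ j → cmp (F : Set (Sym2 V)) (f i) ≠ cmp (F : Set (Sym2 V)) (f j) ∧
      (((TS D S (f i) ∧ ((D (f j)).2.1 = 0 ∨ (D (f j)).1 = (0, 0, 0))) ∨
      (TS D S (f j) ∧ ((D (f i)).2.1 = 0 ∨ (D (f i)).1 = (0, 0, 0))) ∨
      (¬ TS D S (f i) ∧ ¬ TS D S (f j) ∧ G.Adj (f i) (f j))) ↔ triPt.Adj i j) := by
    intro i j hij
    obtain ⟨h1, h2⟩ := hf i j hij
    refine ⟨h1, ?_⟩
    rw [← h2]
    exact (h.qadj hS hF3 h1).symm
  -- all vertices are adjacent to the component of the root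
  have hall : ∀ u, (D u).2.1 = 0 ∨ (D u).1 = (0, 0, 0) := by
    intro u
    have hv := h.val u
    rcases hv.2 with h1 | ⟨h1, h2, _⟩
    · exact Or.inl h1.1
    · right
      rcases hv.1 with h3 | h3 | h3 | h3
      · exact h3
      · rw [h3.1] at h2; simp [cn] at h2; omega
      · rw [h3.1] at h2; simp [cn] at h2; omega
      · exact absurd h3.2.1 (by simp)
  have hnT : ∀ i, ¬ TS D S (f i) := by
    intro i hi
    by_cases h0 : i = 0
    · subst h0
      have := ((hf' 0 1 (by decide)).2).1 (Or.inl ⟨hi, hall _⟩)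
      exact this.2.1 rfl
    · have := ((hf' 0 i (Ne.symm h0)).2).1 (Or.inr (Or.inl ⟨hi, hall _⟩))
      exact this.2.1 rfl
  -- a proper colouring
  have hcol : ∀ u w, ¬ TS D S u → ¬ TS D S w → G.Adj u w →
      ((if (D u).2.1 = 0 then (D u).1.1 = 1 else (D u).2.2 = 0) ↔
        ¬ (if (D w).2.1 = 0 then (D w).1.1 = 1 else (D w).2.2 = 0)) := by
    intro u w hu hw huw
    rw [h.adj] at huw
    obtain ⟨hne, hrel⟩ := huw
    have hvu := h.val u
    have hvw := h.val w
    have hDne : D u ≠ D w := fun hc => hne (h.inj hc)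
    -- owners of private cliques
    have hown : ∀ u, (D u).2.1 ≠ 0 → (D u).1 = (0, 0, 0) := fun u hu =>
      (hall u).resolve_left hu
    have hrt : ∀ u, ¬ TS D S u → (D u).2.1 = 0 → (D u).1.1 = 1 ∨ (D u).1.1 = 2 := by
      intro u hu h0
      have hv := h.val u
      have h0' : (D u).2.2 = 0 := by
        rcases hv.2 with h5 | h5
        · exact h5.2
        · omega
      rcases hv.1 with h3 | h3 | h3 | h3
      · exfalso
        refine hu (Or.inl ?_)
        exact Prod.ext h3 (Prod.ext h0 h0')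
      · exact Or.inl h3.1
      · exact Or.inr h3.1
      · exact absurd h3.2.1 (by simp)
    have hroot : ∀ u, ¬ TS D S u → (D u).2.1 = 0 → (D u).1 ≠ (0, 0, 0) := by
      intro u hu h0 hc
      have := hrt u hu h0
      rw [hc] at this
      simp at this
    by_cases hu0 : (D u).2.1 = 0
    · by_cases hw0 : (D w).2.1 = 0
      · rw [if_pos hu0, if_pos hw0]
        have h1 := hrt u hu hu0
        have h2 := hrt w hw hw0
        have hown' : (D u).1 ≠ (D w).1 := by
          intro hc
          have e1 : (D u).2.2 = 0 := by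
            rcases hvu.2 with h5 | h5
            · exact h5.2
            · omega
          have e2 : (D w).2.2 = 0 := by
            rcases hvw.2 with h5 | h5
            · exact h5.2
            · omega
          exact hDne (Prod.ext hc (Prod.ext (hu0.trans hw0.symm) (e1.trans e2.symm)))
        unfold rel bs at hrel
        have e : decide ((D u).1 = (D w).1) = false := decide_eq_false hown'
        rcases h1 with h1 | h1 <;> rcases h2 with h2 | h2 <;> simp [e, h1, h2, hu0, hw0] at hrel ⊢
      · exfalso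
        have h1 := hown w hw0
        have h2 := hroot u hu hu0
        unfold rel at hrel
        have e : decide ((D u).1 = (D w).1) = false := decide_eq_false (by rw [h1]; exact h2)
        simp [e, hw0] at hrel
    · by_cases hw0 : (D w).2.1 = 0
      · exfalso
        have h1 := hown u hu0
        have h2 := hroot w hw hw0
        unfold rel at hrel
        have e : decide ((D u).1 = (D w).1) = false := decide_eq_false (by rw [h1]; exact h2.symm)
        simp [e, hu0] at hrel
      · rw [if_neg hu0, if_neg hw0]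
        have h1 := hown u hu0
        have h2 := hown w hw0
        have e : decide ((D u).1 = (D w).1) = true := decide_eq_true (h1.trans h2.symm)
        unfold rel at hrel
        have h3 : (D u).2.1 = (D w).2.1 := by simpa [e, hu0, hw0] using hrel
        have h4 : (D u).2.2 ≠ (D w).2.2 := fun hc =>
          hDne (Prod.ext (h1.trans h2.symm) (Prod.ext h3 hc))
        have h5 : (D u).2.2 < 2 := by
          rcases hvu.2 with h5 | h5
          · omega
          · exact h5.2.2
        have h6 : (D w).2.2 < 2 := by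
          rcases hvw.2 with h5 | h5
          · omega
          · exact h5.2.2
        omega
  have hadj : ∀ i j : Fin 4, i ≠ j → i ≠ 0 → j ≠ 0 → G.Adj (f i) (f j) := by
    intro i j hij hi hj
    rcases ((hf' i j hij).2).2 ⟨hij, hi, hj⟩ with h1 | h1 | h1
    · exact absurd h1.1 (hnT _)
    · exact absurd h1.1 (hnT _)
    · exact h1.2.2
  have c1 := hcol _ _ (hnT 1) (hnT 2) (hadj 1 2 (by decide) (by decide) (by decide))
  have c2 := hcol _ _ (hnT 2) (hnT 3) (hadj 2 3 (by decide) (by decide) (by decide))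
  have c3 := hcol _ _ (hnT 1) (hnT 3) (hadj 1 3 (by decide) (by decide) (by decide))
  tauto

open Classical in
/-- The number of the clique of a neighbour. -/
noncomputable def num (D : V → Dd) (S : Finset ℕ) (c y : V) : ℕ :=
  if (D c).1.1 = 3 then (D y).2.1
  else if (D y).2.1 = 0 then (if TS D S y ∨ (D y).1.1 = 1 then 0 else 1) else 1 + (D y).2.1

/-- Adjacency in the contracted graph. -/
def QA (G : SimpleGraph V) (D : V → Dd) (S : Finset ℕ) (u w : V) : Prop :=
  (TS D S u ∧ ((D w).2.1 = 0 ∨ (D w).1 = (0, 0, 0))) ∨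
    (TS D S w ∧ ((D u).2.1 = 0 ∨ (D u).1 = (0, 0, 0))) ∨
      (¬ TS D S u ∧ ¬ TS D S w ∧ G.Adj u w)

theorem QA.symm' {u w : V} (h : QA G D S u w) : QA G D S w u := by
  rcases h with h | h | ⟨h1, h2, h3⟩
  · exact Or.inr (Or.inl h)
  · exact Or.inl h
  · exact Or.inr (Or.inr ⟨h2, h1, h3.symm⟩)

theorem TS.zero {u : V} (h : TS D S u) : (D u).2.1 = 0 ∧ ((D u).1.1 = 0 ∨ (D u).1.1 = 1) := by
  rcases h with h | ⟨v, _, h⟩
  · rw [h]; exact ⟨rfl, Or.inl rfl⟩
  · rw [h]; exact ⟨rfl, Or.inr rfl⟩

theorem Lay.kind (h : Lay G D true n t dm) {u : V} (hu : ¬ TS D S u) (h0 : (D u).2.1 = 0) :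
    (D u).1.1 = 1 ∨ (D u).1.1 = 2 ∨ (D u).1.1 = 3 := by
  have hv := h.val u
  have h0' : (D u).2.2 = 0 := by
    rcases hv.2 with h5 | h5
    · exact h5.2
    · omega
  rcases hv.1 with h3 | h3 | h3 | h3
  · exfalso
    exact hu (Or.inl (Prod.ext h3 (Prod.ext h0 h0')))
  · exact Or.inl h3.1
  · exact Or.inr (Or.inl h3.1)
  · exact Or.inr (Or.inr h3.1)

theorem Lay.same {md : Bool} (h : Lay G D md n t dm) {u w : V} (ho : (D u).1 = (D w).1)
    (hu : (D u).2.1 = 0) (hw : (D w).2.1 = 0) : u = w := by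
  have e1 : (D u).2.2 = 0 := by
    rcases (h.val u).2 with h5 | h5
    · exact h5.2
    · omega
  have e2 : (D w).2.2 = 0 := by
    rcases (h.val w).2 with h5 | h5
    · exact h5.2
    · omega
  exact h.inj (Prod.ext ho (Prod.ext (hu.trans hw.symm) (e1.trans e2.symm)))

theorem rel_cases {md : Bool} {d e : Dd} (h : rel md dm d e = true) :
    (d.1 = e.1 ∧ (d.2.1 = 0 ∨ e.2.1 = 0 ∨ d.2.1 = e.2.1)) ∨
      (d.1 ≠ e.1 ∧ d.2.1 = 0 ∧ e.2.1 = 0 ∧ bs md dm d.1 e.1 = true) := by
  unfold rel at h
  by_cases ho : d.1 = e.1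
  · left
    rw [show decide (d.1 = e.1) = true from decide_eq_true ho, cond_true] at h
    simp only [Bool.or_eq_true, decide_eq_true_eq] at h
    exact ⟨ho, by tauto⟩
  · right
    rw [show decide (d.1 = e.1) = false from decide_eq_false ho, cond_false] at h
    simp only [Bool.and_eq_true, decide_eq_true_eq] at h
    exact ⟨ho, h.1.1, h.1.2, h.2⟩

theorem rel_same {md : Bool} {d e : Dd} (ho : d.1 = e.1)
    (h : d.2.1 = 0 ∨ e.2.1 = 0 ∨ d.2.1 = e.2.1) : rel md dm d e = true := by
  unfold rel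
  rw [show decide (d.1 = e.1) = true from decide_eq_true ho, cond_true]
  simp only [Bool.or_eq_true, decide_eq_true_eq]
  tauto

theorem rel_diff {md : Bool} {d e : Dd} (ho : d.1 ≠ e.1) (h1 : d.2.1 = 0) (h2 : e.2.1 = 0)
    (h : bs md dm d.1 e.1 = true) : rel md dm d e = true := by
  unfold rel
  rw [show decide (d.1 = e.1) = false from decide_eq_false ho, cond_false]
  simp [h1, h2, h]

theorem bs_big {o p : Ow} (h : (o.1 = 1 ∧ p.1 = 1) ∨ (2 ≤ o.1 ∧ 2 ≤ p.1)) :
    bs true dm o p = true := by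
  unfold bs
  rcases h with ⟨h1, h2⟩ | ⟨h1, h2⟩ <;> simp [h1, h2]

theorem bs_three {o p : Ow} (h : bs true dm o p = true) (h3 : o.1 = 3) :
    p.1 = 0 ∨ 2 ≤ p.1 := by
  unfold bs at h
  by_cases hp : 2 ≤ p.1
  · exact Or.inr hp
  · have : ¬ p.1 = 3 := by omega
    by_cases hp0 : p.1 = 0
    · exact Or.inl hp0
    · simp [h3, hp, hp0] at h

/-- Neighbours with the same number are adjacent. -/
theorem Lay.clq (h : Lay G D true n t dm) {c y y' : V}
    (hyy : y ≠ y' ∧ ¬ (TS D S y ∧ TS D S y')) (hcy : c ≠ y ∧ ¬ (TS D S c ∧ TS D S y))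
    (hcy' : c ≠ y' ∧ ¬ (TS D S c ∧ TS D S y')) (h1 : QA G D S c y) (h2 : QA G D S c y')
    (hnum : num D S c y = num D S c y') : QA G D S y y' := by
  have hzero : ∀ c y, TS D S y → num D S c y = 0 := by
    intro c y hy
    have := hy.zero
    unfold num
    rw [this.1]
    simp [hy]
  have hzero' : ∀ c y, num D S c y = 0 → (D y).2.1 = 0 := by
    intro c y hy
    unfold num at hy
    by_contra hne
    split_ifs at hy <;> omega
  by_cases hTc : TS D S c
  · -- the centre is the component of the root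
    have hTy : ¬ TS D S y := fun hy => hcy.2 ⟨hTc, hy⟩
    have hTy' : ¬ TS D S y' := fun hy => hcy'.2 ⟨hTc, hy⟩
    have ha : (D y).2.1 = 0 ∨ (D y).1 = (0, 0, 0) := by
      rcases h1 with h1 | h1 | h1
      · exact h1.2
      · exact absurd h1.1 hTy
      · exact absurd hTc h1.1
    have ha' : (D y').2.1 = 0 ∨ (D y').1 = (0, 0, 0) := by
      rcases h2 with h1 | h1 | h1
      · exact h1.2
      · exact absurd h1.1 hTy'
      · exact absurd hTc h1.1
    have hc3 : (D c).1.1 ≠ 3 := by
      have := hTc.zero.2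
      omega
    refine Or.inr (Or.inr ⟨hTy, hTy', (h.adj _ _).2 ⟨hyy.1, ?_⟩⟩)
    unfold num at hnum
    rw [if_neg hc3, if_neg hc3] at hnum
    by_cases hy0 : (D y).2.1 = 0
    · by_cases hy0' : (D y').2.1 = 0
      · have k1 := h.kind hTy hy0
        have k2 := h.kind hTy' hy0'
        rw [if_pos hy0, if_pos hy0'] at hnum
        simp only [hTy, hTy', false_or] at hnum
        by_cases ho : (D y).1 = (D y').1
        · exact absurd (h.same ho hy0 hy0') hyy.1
        · refine rel_diff ho hy0 hy0' (bs_big ?_)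
          split_ifs at hnum <;> omega
      · rw [if_pos hy0, if_neg hy0'] at hnum
        split_ifs at hnum <;> omega
    · by_cases hy0' : (D y').2.1 = 0
      · rw [if_neg hy0, if_pos hy0'] at hnum
        split_ifs at hnum <;> omega
      · rw [if_neg hy0, if_neg hy0'] at hnum
        exact rel_same ((ha.resolve_left hy0).trans (ha'.resolve_left hy0').symm)
          (Or.inr (Or.inr (by omega)))
  · by_cases hTy : TS D S y
    · exact Or.inl ⟨hTy, Or.inl (hzero' c y' (hnum ▸ hzero c y hTy))⟩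
    · by_cases hTy' : TS D S y'
      · exact Or.inr (Or.inl ⟨hTy', Or.inl (hzero' c y (hnum.symm ▸ hzero c y' hTy'))⟩)
      · have hA1 : G.Adj c y := by
          rcases h1 with h1 | h1 | h1
          · exact absurd h1.1 hTc
          · exact absurd h1.1 hTy
          · exact h1.2.2
        have hA2 : G.Adj c y' := by
          rcases h2 with h1 | h1 | h1
          · exact absurd h1.1 hTc
          · exact absurd h1.1 hTy'
          · exact h1.2.2
        refine Or.inr (Or.inr ⟨hTy, hTy', (h.adj _ _).2 ⟨hyy.1, ?_⟩⟩)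
        have r1 := rel_cases ((h.adj _ _).1 hA1).2
        have r2 := rel_cases ((h.adj _ _).1 hA2).2
        unfold num at hnum
        simp only [hTy, hTy', false_or] at hnum
        rcases r1 with ⟨o1, e1⟩ | ⟨o1, e1, e2, e3⟩
        · rcases r2 with ⟨o2, f1⟩ | ⟨o2, f1, f2, f3⟩
          · refine rel_same (o1.symm.trans o2) ?_
            by_cases hc0 : (D c).2.1 = 0
            · have hy0 : (D y).2.1 ≠ 0 := fun h0 => hcy.1 (h.same o1 hc0 h0)
              have hy0' : (D y').2.1 ≠ 0 := fun h0 => hcy'.1 (h.same o2 hc0 h0)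
              right; right
              split_ifs at hnum <;> omega
            · omega
          · exfalso
            have hy0 : (D y).2.1 ≠ 0 := fun h0 => hcy.1 (h.same o1 f1 h0)
            split_ifs at hnum <;> omega
        · rcases r2 with ⟨o2, f1⟩ | ⟨o2, f1, f2, f3⟩
          · exfalso
            have hy0 : (D y').2.1 ≠ 0 := fun h0 => hcy'.1 (h.same o2 e1 h0)
            split_ifs at hnum <;> omega
          · have k0 := h.kind hTc e1
            have k1 := h.kind hTy e2
            have k2 := h.kind hTy' f2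
            by_cases ho : (D y).1 = (D y').1
            · exact absurd (h.same ho e2 f2) hyy.1
            · refine rel_diff ho e2 f2 (bs_big ?_)
              by_cases hc3 : (D c).1.1 = 3
              · have g1 := bs_three e3 hc3
                have g2 := bs_three f3 hc3
                omega
              · rw [if_neg hc3, if_neg hc3, if_pos e2, if_pos f2] at hnum
                split_ifs at hnum <;> omega

/-- The numbers are at most four. -/
theorem Lay.num_le (h : Lay G D true n t dm) {c y : V} (hcy : ¬ (TS D S c ∧ TS D S y))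
    (h1 : QA G D S c y) : num D S c y ≤ 4 := by
  have hv := h.val y
  have hi : ∀ κ, cn true t κ ≤ 4 := by
    intro κ
    unfold cn
    by_cases h3 : κ = 3 <;> by_cases h1 : κ = 1 <;> simp [h1, h3]
  have hi3 : ∀ κ, κ ≠ 3 → cn true t κ ≤ 3 := by
    intro κ h3
    unfold cn
    by_cases h1 : κ = 1 <;> simp [h1, h3]
  unfold num
  by_cases hc3 : (D c).1.1 = 3
  · rw [if_pos hc3]
    have := hi (D y).1.1
    have := hv.2
    omega
  · rw [if_neg hc3]
    by_cases hy0 : (D y).2.1 = 0
    · rw [if_pos hy0]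
      split_ifs <;> omega
    · rw [if_neg hy0]
      have hTy : ¬ TS D S y := fun hy => hy0 hy.zero.1
      have hk : (D y).1.1 ≠ 3 := by
        rcases h1 with h1 | h1 | h1
        · rw [h1.2.resolve_left hy0]
          simp
        · exact absurd h1.1 hTy
        · rcases rel_cases ((h.adj _ _).1 h1.2.2).2 with ⟨o1, _⟩ | ⟨_, _, e, _⟩
          · rw [← o1]; exact hc3
          · exact absurd e hy0
      have := hi3 _ hk
      have := hv.2
      omega

theorem star6_fwd (h : Lay G D true n t dm) (hS : Dom n k dm S) :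
    ∃ F : Finset (Sym2 V), (F : Set (Sym2 V)) ⊆ G.edgeSet ∧ F.card ≤ k ∧
      Free star6 (contract G F) := by
  obtain ⟨F, hF1, hF2, hF3⟩ := h.fwd hS
  refine ⟨F, hF1, hF2, ?_⟩
  unfold Free
  rw [← not_nonempty_iff, emb_iff]
  rintro ⟨f, hf⟩
  have hf' : ∀ i j, i ≠ j → (f i ≠ f j ∧ ¬ (TS D S (f i) ∧ TS D S (f j))) ∧
      (QA G D S (f i) (f j) ↔ star6.Adj i j) := by
    intro i j hij
    obtain ⟨h1, h2⟩ := hf i j hij
    refine ⟨?_, ?_⟩
    · rw [ne_eq, hF3, not_or] at h1
      exact h1
    · rw [← h2]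
      exact (h.qadj hS hF3 h1).symm
  have hc : ∀ i : Fin 6, QA G D S (f 0) (f i.succ) := fun i =>
    ((hf' 0 i.succ (Fin.succ_ne_zero i).symm).2).2 ⟨(Fin.succ_ne_zero i).symm, Or.inl rfl⟩
  have hle : ∀ i : Fin 6, num D S (f 0) (f i.succ) < 5 := fun i =>
    Nat.lt_succ_of_le (h.num_le (hf' 0 i.succ (Fin.succ_ne_zero i).symm).1.2 (hc i))
  obtain ⟨i, j, hij, he⟩ := Fintype.exists_ne_map_eq_of_card_lt
    (fun i : Fin 6 => (⟨num D S (f 0) (f i.succ), hle i⟩ : Fin 5)) (by simp)
  have he' : num D S (f 0) (f i.succ) = num D S (f 0) (f j.succ) := congrArg Fin.val he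
  have hne : i.succ ≠ j.succ := fun hc => hij (Fin.succ_injective _ hc)
  have := h.clq (hf' _ _ hne).1 (hf' 0 i.succ (Fin.succ_ne_zero i).symm).1
    (hf' 0 j.succ (Fin.succ_ne_zero j).symm).1 (hc i) (hc j) he'
  rcases ((hf' _ _ hne).2.1 this).2 with h3 | h3
  · exact Fin.succ_ne_zero i h3
  · exact Fin.succ_ne_zero j h3

end

end Pool.Agent.H633R2.Ctr
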