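import Pool.Agent.H633R2.CtrDefs
import Pool.Agent.H633R2.Ctr.Bridge

/-!
# General facts about contractions of few edges
-/

namespace Pool.Agent.H633R2.Ctr

open SimpleGraph

section

variable {V : Type} {F : Set (Sym2 V)}

/-- The component of a vertex. -/
abbrev cmp (F : Set (Sym2 V)) (v : V) : (fromEdgeSet F).ConnectedComponent :=
  (fromEdgeSet F).connectedComponentMk v

/-- An untouched vertex is alone in its component. -/
theorem mk_untouched {v w : V} (hv : ∀ e ∈ F, v ∉ e) (h : cmp F w = cmp F v) : w = v := by
  rw [ConnectedComponent.eq] at h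
  obtain ⟨p⟩ := h.symm
  cases p with
  | nil => rfl
  | cons hadj _ =>
    rw [fromEdgeSet_adj] at hadj
    exact absurd (Sym2.mem_mk_left _ _) (hv _ hadj.1)

/-- Components do not leave closed sets. -/
theorem mk_closed {Z : Set V} (hZ : ∀ u v, s(u, v) ∈ F → u ∈ Z → v ∈ Z) {u v : V}
    (h : cmp F u = cmp F v) (hu : u ∈ Z) : v ∈ Z := by
  rw [ConnectedComponent.eq] at h
  obtain ⟨p⟩ := h
  induction p with
  | nil => exact hu
  | cons hadj _ ih =>
    rw [fromEdgeSet_adj] at hadj
    exact ih (hZ _ _ hadj.1 hu)

/-- Touched vertices are few. -/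
theorem exists_untouched [DecidableEq V] {F : Finset (Sym2 V)} {k : ℕ} (hk : F.card ≤ k)
    (g : ℕ → V) (hg : ∀ i < 2 * k + 1, ∀ j < 2 * k + 1, g i = g j → i = j) :
    ∃ j < 2 * k + 1, ∀ e ∈ F, g j ∉ e := by
  by_contra hcon
  push Not at hcon
  have h1 : (Finset.range (2 * k + 1)).image g ⊆ F.biUnion (fun e => e.toFinset) := by
    intro v hv
    obtain ⟨j, hj, rfl⟩ := Finset.mem_image.1 hv
    obtain ⟨e, he, hje⟩ := hcon j (Finset.mem_range.1 hj)
    exact Finset.mem_biUnion.2 ⟨e, he, Sym2.mem_toFinset.2 hje⟩
  have h2 := Finset.card_le_card h1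
  rw [Finset.card_image_of_injOn (fun i hi j hj h => hg i (Finset.mem_range.1 hi) j
    (Finset.mem_range.1 hj) h), Finset.card_range] at h2
  have h3 : (F.biUnion (fun e => e.toFinset)).card ≤ F.card * 2 :=
    Finset.card_biUnion_le_card_mul _ _ 2 (fun e _ => by
      induction e using Sym2.ind with
      | _ x y =>
        rw [Sym2.toFinset_mk_eq]
        exact Finset.card_le_two)
  omega

/-- A component arises from many edges. -/
theorem card_component [Finite V] {F : Finset (Sym2 V)} (C : (fromEdgeSet (F : Set (Sym2 V))).ConnectedComponent)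
    (S : Finset V) (hS : ∀ v ∈ S, cmp (F : Set (Sym2 V)) v = C) : S.card ≤ F.card + 1 := by
  classical
  have h1 := C.connected_toSimpleGraph.card_vert_le_card_edgeSet_add_one
  have h2 : Nat.card C.toSimpleGraph.edgeSet ≤ F.card := by
    have hinj : Function.Injective (fun e : C.toSimpleGraph.edgeSet =>
        (⟨e.1.map Subtype.val, by
          obtain ⟨e, he⟩ := e
          induction e using Sym2.ind with
          | _ x y =>
            rw [mem_edgeSet, ConnectedComponent.toSimpleGraph_adj, fromEdgeSet_adj] at he
            exact he.1⟩ : F)) := by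
      intro e e' h
      have h3 := congrArg Subtype.val h
      exact Subtype.ext (Sym2.map.injective Subtype.val_injective h3)
    have := Nat.card_le_card_of_injective _ hinj
    simpa using this
  have h3 : S.card ≤ Nat.card C := by
    have hinj : Function.Injective (fun v : S => (⟨v.1, hS v.1 v.2⟩ : C)) := by
      intro v v' h
      exact Subtype.ext (congrArg (fun x : C => x.1) h)
    have := Nat.card_le_card_of_injective _ hinj
    simpa using this
  omega

end

end Pool.Agent.H633R2.Ctr
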