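import Pool.Agent.H633R2.Ctr.Hard0

/-!
# The graphs of the reductions
-/

namespace Pool.Agent.H633R2.Ctr

open SimpleGraph

/-- Descriptors of the owners: `(0, 0, 0)` is the root, `(1, v, 0)` a selection vertex,
`(2, w, j)` a copy of an element, `(3, j, 0)` a universal vertex. -/
abbrev Ow := ℕ × ℕ × ℕ

/-- Descriptors of vertices: the vertex of the owner `o` is `(o, 0, 0)`, its private cliques
consist of the vertices `(o, i + 1, j)`. -/
abbrev Dd := Ow × ℕ × ℕ

/-- Adjacency of owners. -/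
def bs (md : Bool) (dm : ℕ → ℕ → Bool) (o p : Ow) : Bool :=
  ((decide (o.1 = 0) && decide (p.1 = 1)) || (decide (o.1 = 1) && decide (p.1 = 0))) ||
  ((decide (o.1 = 1) && decide (p.1 = 2) && dm o.2.1 p.2.1) ||
    (decide (o.1 = 2) && decide (p.1 = 1) && dm p.2.1 o.2.1)) ||
  (md && ((decide (o.1 = 1) && decide (p.1 = 1)) || (decide (2 ≤ o.1) && decide (2 ≤ p.1)) ||
    (decide (o.1 = 0) && decide (p.1 = 3)) || (decide (o.1 = 3) && decide (p.1 = 0))))

/-- Adjacency. -/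
def rel (md : Bool) (dm : ℕ → ℕ → Bool) (d e : Dd) : Bool :=
  bif decide (d.1 = e.1) then
    decide (d.2.1 = 0) || decide (e.2.1 = 0) || decide (d.2.1 = e.2.1)
  else decide (d.2.1 = 0) && decide (e.2.1 = 0) && bs md dm d.1 e.1

/-- The number of private cliques. -/
def cn (md : Bool) (t κ : ℕ) : ℕ :=
  bif md then (bif decide (κ = 3) then 4 else bif decide (κ = 1) then 0 else 3)
  else bif decide (κ = 0) then t else 0

/-- The size of the private cliques. -/
def sn (md : Bool) (t : ℕ) : ℕ := bif md then t else 2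

/-- Valid owners. -/
def OV (md : Bool) (n t : ℕ) (o : Ow) : Prop :=
  o = (0, 0, 0) ∨ (o.1 = 1 ∧ o.2.1 < n ∧ o.2.2 = 0) ∨ (o.1 = 2 ∧ o.2.1 < n ∧ o.2.2 < t) ∨
    (o.1 = 3 ∧ md = true ∧ o.2.1 < t ∧ o.2.2 = 0)

/-- Valid descriptors. -/
def VD (md : Bool) (n t : ℕ) (d : Dd) : Prop :=
  OV md n t d.1 ∧ ((d.2.1 = 0 ∧ d.2.2 = 0) ∨
    (0 < d.2.1 ∧ d.2.1 ≤ cn md t d.1.1 ∧ d.2.2 < sn md t))

/-- A graph whose vertices are described by valid descriptors. -/
structure Lay {V : Type} (G : SimpleGraph V) (D : V → Dd) (md : Bool) (n t : ℕ)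
    (dm : ℕ → ℕ → Bool) : Prop where
  inj : Function.Injective D
  adj : ∀ u v, G.Adj u v ↔ u ≠ v ∧ rel md dm (D u) (D v) = true
  val : ∀ v, VD md n t (D v)
  ex : ∀ d, VD md n t d → ∃ v, D v = d

/-- Dominating sets. -/
def Dom (n k : ℕ) (dm : ℕ → ℕ → Bool) (S : Finset ℕ) : Prop :=
  S.card ≤ k ∧ (∀ v ∈ S, v < n) ∧ ∀ w < n, ∃ v ∈ S, dm v w = true

section

variable {V : Type} {G : SimpleGraph V} {D : V → Dd} {md : Bool} {n t k : ℕ}
  {dm : ℕ → ℕ → Bool} {S : Finset ℕ}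

/-- The root and the selected vertices. -/
def TS (D : V → Dd) (S : Finset ℕ) (u : V) : Prop :=
  D u = ((0, 0, 0), 0, 0) ∨ ∃ v ∈ S, D u = ((1, v, 0), 0, 0)

theorem Lay.fwd (h : Lay G D md n t dm) (hS : Dom n k dm S) :
    ∃ F : Finset (Sym2 V), (F : Set (Sym2 V)) ⊆ G.edgeSet ∧ F.card ≤ k ∧
      ∀ u w, cmp (F : Set (Sym2 V)) u = cmp (F : Set (Sym2 V)) w ↔
        u = w ∨ (TS D S u ∧ TS D S w) := by
  classical
  obtain ⟨r, hr⟩ := h.ex ((0, 0, 0), 0, 0) ⟨Or.inl rfl, Or.inl ⟨rfl, rfl⟩⟩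
  have hx : ∀ v : ℕ, ∃ x : V, v < n → D x = ((1, v, 0), 0, 0) := by
    intro v
    by_cases hv : v < n
    · obtain ⟨x, hx⟩ := h.ex ((1, v, 0), 0, 0) ⟨Or.inr (Or.inl ⟨rfl, hv, rfl⟩), Or.inl ⟨rfl, rfl⟩⟩
      exact ⟨x, fun _ => hx⟩
    · exact ⟨r, fun h => absurd h hv⟩
  choose x hx using hx
  have hmem : ∀ e, e ∈ S.image (fun v => s(r, x v)) ↔ ∃ v ∈ S, s(r, x v) = e := by
    intro e
    rw [Finset.mem_image]
  refine ⟨S.image (fun v => s(r, x v)), ?_, Finset.card_image_le.trans hS.1, ?_⟩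
  · intro e he
    obtain ⟨v, hv, rfl⟩ := (hmem e).1 he
    rw [mem_edgeSet, h.adj]
    have h1 := hx v (hS.2.1 v hv)
    refine ⟨fun hc => ?_, ?_⟩
    · rw [hc, h1] at hr
      simp at hr
    · rw [hr, h1]
      simp [rel, bs]
  · intro u w
    have hunt : ∀ u, ¬ TS D S u → ∀ e ∈ ((S.image (fun v => s(r, x v)) : Finset (Sym2 V)) :
        Set (Sym2 V)), u ∉ e := by
      intro u hu e he hue
      obtain ⟨v, hv, rfl⟩ := (hmem e).1 he
      rw [Sym2.mem_iff] at hue
      rcases hue with rfl | rfl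
      · exact hu (Or.inl hr)
      · exact hu (Or.inr ⟨v, hv, hx v (hS.2.1 v hv)⟩)
    have hcon : ∀ u, TS D S u → cmp ((S.image (fun v => s(r, x v)) : Finset (Sym2 V)) :
        Set (Sym2 V)) u = cmp _ r := by
      intro u hu
      rcases hu with hu | ⟨v, hv, hu⟩
      · rw [h.inj (hu.trans hr.symm)]
      · have h1 := hx v (hS.2.1 v hv)
        rw [h.inj (hu.trans h1.symm)]
        refine ConnectedComponent.sound (Adj.reachable ?_)
        rw [fromEdgeSet_adj]
        refine ⟨?_, fun hc => ?_⟩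
        · rw [Sym2.eq_swap]
          exact (hmem _).2 ⟨v, hv, rfl⟩
        · rw [hc, hr] at h1
          simp at h1
    constructor
    · intro hm
      by_cases h1 : TS D S u
      · by_cases h2 : TS D S w
        · exact Or.inr ⟨h1, h2⟩
        · exact Or.inl (mk_untouched (hunt w h2) hm)
      · exact Or.inl (mk_untouched (hunt u h1) hm.symm).symm
    · rintro (rfl | ⟨h1, h2⟩)
      · rfl
      · rw [hcon u h1, hcon w h2]

/-- The adjacency of the component of the root with the other vertices. -/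
theorem Lay.adT (h : Lay G D md n t dm) (hS : Dom n k dm S) {w : V} (hw : ¬ TS D S w) :
    (∃ u, TS D S u ∧ G.Adj u w) ↔ (D w).2.1 = 0 ∨ (D w).1 = (0, 0, 0) := by
  have hv := h.val w
  have hrt : ∃ r, D r = ((0, 0, 0), 0, 0) :=
    h.ex ((0, 0, 0), 0, 0) ⟨Or.inl rfl, Or.inl ⟨rfl, rfl⟩⟩
  obtain ⟨r, hr⟩ := hrt
  constructor
  · rintro ⟨u, hu, hadj⟩
    rw [h.adj] at hadj
    by_contra hc
    push Not at hc
    obtain ⟨hc1, hc2⟩ := hc
    have hne : decide ((D w).2.1 = 0) = false := decide_eq_false hc1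
    rcases hu with hu | ⟨v, hv', hu⟩
    · have h2 := hadj.2
      rw [hu] at h2
      unfold rel at h2
      have h3 : decide (((0, 0, 0) : Ow) = (D w).1) = false := decide_eq_false (Ne.symm hc2)
      simp [h3, hne] at h2
    · have h2 := hadj.2
      rw [hu] at h2
      unfold rel at h2
      by_cases h4 : ((1, v, 0) : Ow) = (D w).1
      · -- a selection vertex has no private cliques
        rcases hv.2 with h5 | h5
        · exact hc1 h5.1
        · rw [← h4] at h5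
          have h6 : cn md t 1 = 0 := by cases md <;> rfl
          rw [h6] at h5
          omega
      · have h3 : decide (((1, v, 0) : Ow) = (D w).1) = false := decide_eq_false h4
        simp [h3, hne] at h2
  · intro hc
    by_cases hroot : (D w).1 = (0, 0, 0)
    · refine ⟨r, Or.inl hr, ?_⟩
      rw [h.adj]
      refine ⟨fun h1 => hw (Or.inl (h1 ▸ hr)), ?_⟩
      rw [hr]
      simp [rel, hroot]
    · have h0 : (D w).2.1 = 0 := by
        rcases hc with hc | hc
        · exact hc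
        · exact absurd hc hroot
      have h0' : (D w).2.2 = 0 := by
        rcases hv.2 with h5 | h5
        · exact h5.2
        · omega
      have hDw : D w = ((D w).1, 0, 0) := by
        rw [← h0]
        exact Prod.ext rfl (Prod.ext rfl (h0'.trans h0.symm))
      rcases hv.1 with h1 | h1 | h1 | h1
      · exact absurd h1 hroot
      · refine ⟨r, Or.inl hr, ?_⟩
        rw [h.adj]
        refine ⟨fun h2 => ?_, ?_⟩
        · rw [← h2, hr] at h1
          simp at h1
        · rw [hr, hDw]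
          simp [rel, bs, h1.1, Ne.symm hroot]
      · obtain ⟨v, hvS, hvw⟩ := hS.2.2 _ h1.2.1
        obtain ⟨x, hx⟩ := h.ex ((1, v, 0), 0, 0)
          ⟨Or.inr (Or.inl ⟨rfl, hS.2.1 v hvS, rfl⟩), Or.inl ⟨rfl, rfl⟩⟩
        refine ⟨x, Or.inr ⟨v, hvS, hx⟩, ?_⟩
        rw [h.adj]
        have hne : ((1, v, 0) : Ow) ≠ (D w).1 := by
          intro h2
          rw [← h2] at h1
          simp at h1
        refine ⟨fun h2 => ?_, ?_⟩
        · rw [← h2, hx] at h1
          simp at h1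
        · rw [hx, hDw]
          simp [rel, bs, h1.1, hne, hvw]
      · refine ⟨r, Or.inl hr, ?_⟩
        rw [h.adj]
        refine ⟨fun h2 => ?_, ?_⟩
        · rw [← h2, hr] at h1
          simp at h1
        · rw [hr, hDw]
          simp [rel, bs, h1.1, h1.2.1, Ne.symm hroot]

/-- Adjacency in the contracted graph. -/
theorem Lay.qadj (h : Lay G D md n t dm) (hS : Dom n k dm S) {F : Set (Sym2 V)}
    (hF : ∀ u w, cmp F u = cmp F w ↔ u = w ∨ (TS D S u ∧ TS D S w)) {u w : V}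
    (huw : cmp F u ≠ cmp F w) : (∃ u' w', cmp F u' = cmp F u ∧ cmp F w' = cmp F w ∧ G.Adj u' w') ↔
      (TS D S u ∧ ((D w).2.1 = 0 ∨ (D w).1 = (0, 0, 0))) ∨
      (TS D S w ∧ ((D u).2.1 = 0 ∨ (D u).1 = (0, 0, 0))) ∨
      (¬ TS D S u ∧ ¬ TS D S w ∧ G.Adj u w) := by
  rw [ne_eq, hF, not_or, not_and] at huw
  obtain ⟨hne, huw⟩ := huw
  have hu1 : ∀ u, ¬ TS D S u → ∀ u', cmp F u' = cmp F u → u' = u := by
    intro u hu u' h1
    rcases (hF _ _).1 h1 with h2 | h2
    · exact h2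
    · exact absurd h2.2 hu
  have hu2 : ∀ u, TS D S u → ∀ u', (cmp F u' = cmp F u ↔ TS D S u') := by
    intro u hu u'
    rw [hF]
    constructor
    · rintro (rfl | h1)
      · exact hu
      · exact h1.1
    · intro h1
      exact Or.inr ⟨h1, hu⟩
  by_cases h1 : TS D S u
  · have h2 := huw h1
    have h3 := h.adT hS h2
    constructor
    · rintro ⟨u', w', e1, e2, e3⟩
      rw [hu2 u h1] at e1
      rw [hu1 w h2 w' e2] at e3
      exact Or.inl ⟨h1, h3.1 ⟨u', e1, e3⟩⟩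
    · rintro (⟨_, e⟩ | ⟨e, _⟩ | ⟨e, _⟩)
      · obtain ⟨u', e1, e2⟩ := h3.2 e
        exact ⟨u', w, (hu2 u h1 u').2 e1, rfl, e2⟩
      · exact absurd e h2
      · exact absurd h1 e
  · by_cases h2 : TS D S w
    · have h3 := h.adT hS h1
      constructor
      · rintro ⟨u', w', e1, e2, e3⟩
        rw [hu2 w h2] at e2
        rw [hu1 u h1 u' e1] at e3
        exact Or.inr (Or.inl ⟨h2, h3.1 ⟨w', e2, e3.symm⟩⟩)
      · rintro (⟨e, _⟩ | ⟨_, e⟩ | ⟨_, e, _⟩)
        · exact absurd e h1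
        · obtain ⟨u', e1, e2⟩ := h3.2 e
          exact ⟨u, u', rfl, (hu2 w h2 u').2 e1, e2.symm⟩
        · exact absurd h2 e
    · constructor
      · rintro ⟨u', w', e1, e2, e3⟩
        rw [hu1 u h1 u' e1, hu1 w h2 w' e2] at e3
        exact Or.inr (Or.inr ⟨h1, h2, e3⟩)
      · rintro (⟨e, _⟩ | ⟨e, _⟩ | ⟨_, _, e⟩)
        · exact absurd e h1
        · exact absurd e h2
        · exact ⟨u, w, rfl, rfl, e⟩

end

end Pool.Agent.H633R2.Ctr
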