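import Pool.Agent.H633R2.Ctr.Ram

/-!
# Patterns in quotient graphs and the swap lemma
-/

namespace Pool.Agent.H633R2.Ctr

variable {V : Type}

/-- Adjacency of the classes of `x` and `y`: all pairs (`md = true`) or some pair
(`md = false`) of elements are related by `A`. -/
def XA (md : Bool) (A s : V → V → Prop) (x y : V) : Prop :=
  ¬ s x y ∧ (md = true → ∀ x' y', s x x' → s y y' → A x' y') ∧
    (md = false → ∃ x' y', s x x' ∧ s y y' ∧ A x' y')

/-- The pattern `H` occurs in the quotient by `s` with adjacency `X`. -/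
def Pat {m : ℕ} (H : Fin (m + 1) → Fin (m + 1) → Prop) (X s : V → V → Prop) : Prop :=
  ∃ f : Fin (m + 1) → V, ∀ i j, i ≠ j → ¬ s (f i) (f j) ∧ (X (f i) (f j) ↔ H i j)

/-- Patterns in which the vertex `0` is adjacent to all others. -/
def Cone {m : ℕ} (H : Fin (m + 1) → Fin (m + 1) → Prop) : Prop := ∀ i, i ≠ 0 → H 0 i ∧ H i 0

/-- A vertex `0` joined to `c` vertices, which are pairwise adjacent iff `P`: the clique on
`c + 1` vertices for `P = True`, the star with `c` leaves for `P = False`. -/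
def CH (c : ℕ) (P : Prop) (i j : Fin (c + 1)) : Prop := i ≠ j ∧ (i = 0 ∨ j = 0 ∨ P)

theorem cone_CH (c : ℕ) (P : Prop) : Cone (CH c P) := fun _ h =>
  ⟨⟨fun h' => h h'.symm, Or.inl rfl⟩, ⟨h, Or.inr (Or.inl rfl)⟩⟩

theorem XA.symm' {md : Bool} {A s : V → V → Prop} (hA : ∀ x y, A x y → A y x)
    (hs : Equivalence s) {x y : V} (h : XA md A s x y) : XA md A s y x := by
  refine ⟨fun h' => h.1 (hs.symm h'), fun hm x' y' hx hy => hA _ _ (h.2.1 hm _ _ hy hx),
    fun hm => ?_⟩
  obtain ⟨x', y', h1, h2, h3⟩ := h.2.2 hm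
  exact ⟨y', x', h2, h1, hA _ _ h3⟩

/-- For singleton classes the adjacency is `A`. -/
theorem XA_single {md : Bool} {A s : V → V → Prop} (hs : Equivalence s) {x y : V} (hxy : x ≠ y)
    (hx : ∀ z, s x z → x = z) (hy : ∀ z, s y z → y = z) : XA md A s x y ↔ A x y := by
  constructor
  · rintro ⟨_, h1, h2⟩
    cases md with
    | true => exact h1 rfl x y (hs.refl x) (hs.refl y)
    | false =>
      obtain ⟨x', y', h3, h4, h5⟩ := h2 rfl
      rw [← hx _ h3, ← hy _ h4] at h5
      exact h5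
  · intro h
    refine ⟨fun h' => hxy (hx _ h'), fun _ x' y' h1 h2 => ?_, fun _ =>
      ⟨x, y, hs.refl x, hs.refl y, h⟩⟩
    rw [← hx _ h1, ← hy _ h2]
    exact h

/-- The swap lemma. -/
theorem swap_pat {md : Bool} {A s : V → V → Prop} (hA : ∀ x y, A x y → A y x)
    (hs : Equivalence s) {T Z1 Zn : Set V} {φ : V → V}
    (hφ : ∀ x, φ (φ x) = x) (hT : ∀ x ∉ T, ∀ y, s x y → x = y)
    (hadj : ∀ x, x ∈ T ∨ x ∈ Zn → ∀ y, (A (φ x) (φ y) ↔ A x y)) (hsub : Z1 ⊆ Zn)
    (hc1 : ∀ x ∈ T, ∀ y ∉ T, XA md A s x y → y ∈ Z1)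
    (hc2 : ∀ x ∈ Z1, ∀ y ∉ T, A x y → y ∈ Zn)
    {m : ℕ} {H : Fin (m + 1) → Fin (m + 1) → Prop} (hH : Cone H)
    (hob : ∀ h : Fin (m + 1) → V, (∀ i j, i ≠ j → h i ≠ h j ∧ (A (h i) (h j) ↔ H i j)) →
      (∀ i, φ (h i) ∉ T) → ∀ i, φ (h i) = h i)
    (hfree : ¬ Pat H (XA md A s) s) :
    ¬ Pat H (XA md A (fun x y => s (φ x) (φ y))) (fun x y => s (φ x) (φ y)) := by
  rintro ⟨f, hf⟩
  apply hfree
  set g : Fin (m + 1) → V := fun i => φ (f i) with hg
  -- the classes of touched vertices are touched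
  have hTc : ∀ x ∈ T, ∀ y, s x y → y ∈ T := by
    intro x hx y hxy
    by_contra hy
    have := hT y hy x (hs.symm hxy)
    exact hy (this ▸ hx)
  -- adjacency transported
  have hX : ∀ i j, XA md A (fun x y => s (φ x) (φ y)) (f i) (f j) ↔
      XA md (fun x y => A (φ x) (φ y)) s (g i) (g j) := by
    intro i j
    unfold XA
    refine and_congr Iff.rfl (and_congr ?_ ?_)
    · refine imp_congr Iff.rfl ⟨fun h x' y' hx hy => ?_, fun h x' y' hx hy => ?_⟩
      · exact h (φ x') (φ y') (by show s (g i) (φ (φ x')); rw [hφ]; exact hx)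
          (by show s (g j) (φ (φ y')); rw [hφ]; exact hy)
      · have := h (φ x') (φ y') hx hy
        simpa only [hφ] using this
    · refine imp_congr Iff.rfl ⟨?_, ?_⟩
      · rintro ⟨x', y', hx, hy, h⟩
        exact ⟨φ x', φ y', hx, hy, by simpa only [hφ] using h⟩
      · rintro ⟨x', y', hx, hy, h⟩
        exact ⟨φ x', φ y', by show s (g i) (φ (φ x')); rw [hφ]; exact hx,
          by show s (g j) (φ (φ y')); rw [hφ]; exact hy, h⟩
  -- adjacency with touched vertices
  have hT1 : ∀ x ∈ T, ∀ y, XA md (fun x y => A (φ x) (φ y)) s x y ↔ XA md A s x y := by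
    intro x hx y
    unfold XA
    refine and_congr Iff.rfl (and_congr ?_ ?_)
    · refine imp_congr Iff.rfl (forall_congr' fun x' => forall_congr' fun y' => ?_)
      refine forall_congr' fun h1 => forall_congr' fun _ => ?_
      exact hadj x' (Or.inl (hTc x hx x' h1)) y'
    · refine imp_congr Iff.rfl (exists_congr fun x' => exists_congr fun y' => ?_)
      constructor
      · rintro ⟨h1, h2, h3⟩
        exact ⟨h1, h2, (hadj x' (Or.inl (hTc x hx x' h1)) y').1 h3⟩
      · rintro ⟨h1, h2, h3⟩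
        exact ⟨h1, h2, (hadj x' (Or.inl (hTc x hx x' h1)) y').2 h3⟩
  have hA' : ∀ x y, A (φ x) (φ y) → A (φ y) (φ x) := fun x y h => hA _ _ h
  have hf' : ∀ i j, i ≠ j → ¬ s (g i) (g j) ∧
      (XA md (fun x y => A (φ x) (φ y)) s (g i) (g j) ↔ H i j) := by
    intro i j hij
    obtain ⟨h1, h2⟩ := hf i j hij
    exact ⟨h1, (hX i j).symm.trans h2⟩
  by_cases hcase : ∃ i, g i ∈ T
  · obtain ⟨i0, hi0⟩ := hcase
    -- all untouched members are in `Zn`
    have hZ : ∀ j, g j ∉ T → g j ∈ Zn := by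
      by_cases h0 : g 0 ∈ T
      · intro j hj
        have hj0 : j ≠ 0 := fun h => hj (h ▸ h0)
        have h1 := ((hf' 0 j hj0.symm).2).2 (hH j hj0).1
        exact hsub (hc1 _ h0 _ hj ((hT1 _ h0 _).1 h1))
      · have hi00 : i0 ≠ 0 := fun h => h0 (h ▸ hi0)
        have h1 := ((hf' i0 0 hi00).2).2 (hH i0 hi00).2
        have h2 : g 0 ∈ Z1 := hc1 _ hi0 _ h0 ((hT1 _ hi0 _).1 h1)
        intro j hj
        by_cases hj0 : j = 0
        · rw [hj0]; exact hsub h2
        · have h3 := ((hf' 0 j (Ne.symm hj0)).2).2 (hH j hj0).1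
          have hne : g 0 ≠ g j := fun h => (hf' 0 j (Ne.symm hj0)).1 (h ▸ hs.refl _)
          rw [XA_single (A := fun x y => A (φ x) (φ y)) hs hne (fun z => hT _ h0 z)
            (fun z => hT _ hj z)] at h3
          exact hc2 _ h2 _ hj ((hadj _ (Or.inr (hsub h2)) _).1 h3)
    refine ⟨g, fun i j hij => ⟨(hf' i j hij).1, ?_⟩⟩
    rw [← (hf' i j hij).2]
    by_cases hi : g i ∈ T
    · exact (hT1 _ hi _).symm
    · by_cases hj : g j ∈ T
      · have e1 : XA md A s (g i) (g j) ↔ XA md A s (g j) (g i) :=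
          ⟨fun h => h.symm' hA hs, fun h => h.symm' hA hs⟩
        have e2 : XA md (fun x y => A (φ x) (φ y)) s (g i) (g j) ↔
            XA md (fun x y => A (φ x) (φ y)) s (g j) (g i) :=
          ⟨fun h => h.symm' hA' hs, fun h => h.symm' hA' hs⟩
        rw [e1, e2]
        exact (hT1 _ hj _).symm
      · have hne : g i ≠ g j := fun h => (hf' i j hij).1 (h ▸ hs.refl _)
        rw [XA_single hs hne (fun z => hT _ hi z) (fun z => hT _ hj z),
          XA_single (A := fun x y => A (φ x) (φ y)) hs hne (fun z => hT _ hi z)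
            (fun z => hT _ hj z)]
        exact (hadj _ (Or.inr (hZ i hi)) _).symm
  · push Not at hcase
    have hne : ∀ i j, i ≠ j → g i ≠ g j := fun i j hij h =>
      (hf' i j hij).1 (h ▸ hs.refl _)
    have hfix := hob f (fun i j hij => by
      have h1 := hne i j hij
      refine ⟨fun h => h1 (by rw [hg]; simp only [h]), ?_⟩
      have h2 := (hf' i j hij).2
      rw [XA_single (A := fun x y => A (φ x) (φ y)) hs h1 (fun z => hT _ (hcase i) z)
        (fun z => hT _ (hcase j) z)] at h2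
      simpa only [hg, hφ] using h2) hcase
    have hgf : ∀ i, g i = f i := hfix
    refine ⟨g, fun i j hij => ⟨(hf' i j hij).1, ?_⟩⟩
    rw [← (hf' i j hij).2, XA_single hs (hne i j hij) (fun z => hT _ (hcase i) z)
      (fun z => hT _ (hcase j) z), XA_single (A := fun x y => A (φ x) (φ y)) hs (hne i j hij)
      (fun z => hT _ (hcase i) z) (fun z => hT _ (hcase j) z)]
    have h1 : φ (g i) = g i := by rw [hg]; simp only [hφ]; exact (hfix i).symm
    have h2 : φ (g j) = g j := by rw [hg]; simp only [hφ]; exact (hfix j).symm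
    rw [h1, h2]

/-- A class together with untouched neighbours forms a pattern. -/
theorem pat_of_nbrs {md : Bool} {A s : V → V → Prop} (hA : ∀ x y, A x y → A y x)
    (hs : Equivalence s) (x : V) (K : Finset V) {c : ℕ} (hc : K.card = c) (P : Prop)
    (hu : ∀ y ∈ K, ∀ z, s y z → y = z) (hx : ∀ y ∈ K, XA md A s x y)
    (hP : ∀ y ∈ K, ∀ z ∈ K, y ≠ z → (A y z ↔ P)) : Pat (CH c P) (XA md A s) s := by
  let e : K ≃ Fin c := K.equivFinOfCardEq hc
  have key : ∀ j : Fin c, ¬ s x (e.symm j).1 ∧ XA md A s x (e.symm j).1 := fun j =>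
    ⟨(hx _ (e.symm j).2).1, hx _ (e.symm j).2⟩
  refine ⟨Fin.cons x (fun i => (e.symm i).1), fun i j => ?_⟩
  refine Fin.cases ?_ (fun i => ?_) i
  · refine Fin.cases ?_ (fun j => ?_) j
    · intro h; exact absurd rfl h
    · intro _
      rw [Fin.cons_zero, Fin.cons_succ]
      exact ⟨(key j).1, iff_of_true (key j).2 ⟨(Fin.succ_ne_zero j).symm, Or.inl rfl⟩⟩
  · refine Fin.cases ?_ (fun j => ?_) j
    · intro _
      rw [Fin.cons_zero, Fin.cons_succ]
      exact ⟨fun h => (key i).1 (hs.symm h), iff_of_true ((key i).2.symm' hA hs)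
        ⟨Fin.succ_ne_zero i, Or.inr (Or.inl rfl)⟩⟩
    · intro hij
      have hij' : i ≠ j := fun h => hij (by rw [h])
      have hne : (e.symm i).1 ≠ (e.symm j).1 := fun h => hij' (e.symm.injective (Subtype.ext h))
      rw [Fin.cons_succ, Fin.cons_succ]
      refine ⟨fun h => hne (hu _ (e.symm i).2 _ h), ?_⟩
      rw [XA_single hs hne (hu _ (e.symm i).2) (hu _ (e.symm j).2),
        hP _ (e.symm i).2 _ (e.symm j).2 hne]
      unfold CH
      constructor
      · intro h
        exact ⟨hij, Or.inr (Or.inr h)⟩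
      · rintro ⟨_, h | h | h⟩
        · exact absurd h (Fin.succ_ne_zero i)
        · exact absurd h (Fin.succ_ne_zero j)
        · exact h

/-- The Ramsey property of a number. -/
def RamseyNum (a b r : ℕ) : Prop := ∀ {V : Type} [DecidableEq V] (A : V → V → Prop)
    (_ : ∀ x y, A x y → A y x) (S : Finset V), r ≤ S.card →
    (∃ K ⊆ S, K.card = a ∧ ∀ x ∈ K, ∀ y ∈ K, x ≠ y → A x y) ∨
    (∃ K ⊆ S, K.card = b ∧ ∀ x ∈ K, ∀ y ∈ K, x ≠ y → ¬ A x y)

/-- In a quotient without cliques on `a + 1` vertices and stars with `b` leaves, the number of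
untouched neighbours of a class is bounded. -/
theorem deg_bound [DecidableEq V] {a b r : ℕ} (hr : RamseyNum a b r)
    {md : Bool} {A s : V → V → Prop} (hA : ∀ x y, A x y → A y x) (hs : Equivalence s)
    (hK : ¬ Pat (CH a True) (XA md A s) s) (hS : ¬ Pat (CH b False) (XA md A s) s) (x : V)
    (S : Finset V)
    (hu : ∀ y ∈ S, ∀ z, s y z → y = z) (hx : ∀ y ∈ S, XA md A s x y) : S.card < r := by
  by_contra hcon
  push Not at hcon
  rcases hr A hA S hcon with ⟨K, hKS, hKc, hKA⟩ | ⟨K, hKS, hKc, hKA⟩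
  · exact hK (pat_of_nbrs hA hs x K hKc True (fun y hy => hu y (hKS hy))
      (fun y hy => hx y (hKS hy)) (fun y hy z hz hyz => iff_of_true (hKA y hy z hz hyz) trivial))
  · exact hS (pat_of_nbrs hA hs x K hKc False (fun y hy => hu y (hKS hy))
      (fun y hy => hx y (hKS hy)) (fun y hy z hz hyz => iff_of_false (hKA y hy z hz hyz) id))

end Pool.Agent.H633R2.Ctr
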