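import Mathlib

/-!
# The finite Ramsey theorem for graphs
-/

namespace Pool.Agent.H633R2.Ctr

/-- Ramsey's theorem: large sets contain large cliques or large independent sets. -/
theorem ramsey (a b : ℕ) : ∃ r : ℕ, ∀ {V : Type} [DecidableEq V] (A : V → V → Prop)
    (_ : ∀ x y, A x y → A y x) (S : Finset V), r ≤ S.card →
    (∃ K ⊆ S, K.card = a ∧ ∀ x ∈ K, ∀ y ∈ K, x ≠ y → A x y) ∨
    (∃ K ⊆ S, K.card = b ∧ ∀ x ∈ K, ∀ y ∈ K, x ≠ y → ¬ A x y) := by
  induction a generalizing b with
  | zero => exact ⟨0, fun A _ S _ => Or.inl ⟨∅, by simp, rfl, by simp⟩⟩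
  | succ a iha =>
    induction b with
    | zero => exact ⟨0, fun A _ S _ => Or.inr ⟨∅, by simp, rfl, by simp⟩⟩
    | succ b ihb =>
      obtain ⟨r1, h1⟩ := iha (b + 1)
      obtain ⟨r2, h2⟩ := ihb
      refine ⟨r1 + r2 + 1, ?_⟩
      intro V _ A hA S hS
      classical
      have hne : S.Nonempty := Finset.card_pos.1 (by omega)
      obtain ⟨v, hv⟩ := hne
      have hc : ((S.erase v).filter (fun x => A v x)).card +
          ((S.erase v).filter (fun x => ¬ A v x)).card = (S.erase v).card :=
        Finset.card_filter_add_card_filter_not (s := S.erase v) (p := fun x => A v x)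
      rw [Finset.card_erase_of_mem hv] at hc
      by_cases hcase : r1 ≤ ((S.erase v).filter (fun x => A v x)).card
      · rcases h1 A hA _ hcase with ⟨K, hK, hKc, hKA⟩ | ⟨K, hK, hKc, hKA⟩
        · left
          have hvK : v ∉ K := fun h => by
            have := Finset.mem_filter.1 (hK h)
            exact (Finset.notMem_erase v S) this.1
          refine ⟨insert v K, ?_, ?_, ?_⟩
          · intro x hx
            rcases Finset.mem_insert.1 hx with rfl | hx
            · exact hv
            · exact Finset.mem_of_mem_erase (Finset.mem_filter.1 (hK hx)).1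
          · rw [Finset.card_insert_of_notMem hvK, hKc]
          · intro x hx y hy hxy
            rcases Finset.mem_insert.1 hx with rfl | hx
            · rcases Finset.mem_insert.1 hy with rfl | hy
              · exact absurd rfl hxy
              · exact (Finset.mem_filter.1 (hK hy)).2
            · rcases Finset.mem_insert.1 hy with h | hy
              · rw [h]; exact hA _ _ (Finset.mem_filter.1 (hK hx)).2
              · exact hKA x hx y hy hxy
        · right
          exact ⟨K, fun x hx => Finset.mem_of_mem_erase (Finset.mem_filter.1 (hK hx)).1, hKc, hKA⟩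
      · have hcase2 : r2 ≤ ((S.erase v).filter (fun x => ¬ A v x)).card := by omega
        rcases h2 A hA _ hcase2 with ⟨K, hK, hKc, hKA⟩ | ⟨K, hK, hKc, hKA⟩
        · left
          exact ⟨K, fun x hx => Finset.mem_of_mem_erase (Finset.mem_filter.1 (hK hx)).1, hKc, hKA⟩
        · right
          have hvK : v ∉ K := fun h => by
            have := Finset.mem_filter.1 (hK h)
            exact (Finset.notMem_erase v S) this.1
          refine ⟨insert v K, ?_, ?_, ?_⟩
          · intro x hx
            rcases Finset.mem_insert.1 hx with rfl | hx
            · exact hv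
            · exact Finset.mem_of_mem_erase (Finset.mem_filter.1 (hK hx)).1
          · rw [Finset.card_insert_of_notMem hvK, hKc]
          · intro x hx y hy hxy
            rcases Finset.mem_insert.1 hx with rfl | hx
            · rcases Finset.mem_insert.1 hy with rfl | hy
              · exact absurd rfl hxy
              · exact (Finset.mem_filter.1 (hK hy)).2
            · rcases Finset.mem_insert.1 hy with h' | hy
              · rw [h']; exact fun h => (Finset.mem_filter.1 (hK hx)).2 (hA _ _ h)
              · exact hKA x hx y hy hxy

end Pool.Agent.H633R2.Ctr
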