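import Pool.Agent.H633R2.Ctr.Bwd
import Pool.Agent.H633R2.Ctr.AlgFpt

/-!
# The reductions from the dominating set problem
-/

namespace Pool.Agent.H633R2.Ctr

open SimpleGraph

/-- The list of owners. -/
def owl (md : Bool) (n t : ℕ) : List Ow :=
  (0, 0, 0) :: ((List.range n).map (fun v => (1, v, 0)) ++
    ((List.range n).flatMap (fun w => (List.range t).map (fun j => (2, w, j))) ++
      bif md then (List.range t).map (fun j => (3, j, 0)) else []))

/-- The vertices of an owner. -/
def vof (md : Bool) (t : ℕ) (o : Ow) : List Dd :=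
  (o, 0, 0) :: (List.range (cn md t o.1)).flatMap (fun i =>
    (List.range (sn md t)).map (fun j => (o, i + 1, j)))

/-- The list of vertices. -/
def vls (md : Bool) (n t : ℕ) : List Dd := (owl md n t).flatMap (vof md t)

/-- The matrix of the new graph. -/
def mtx (md : Bool) (dm : ℕ → ℕ → Bool) (l : List Dd) : List (List Bool) :=
  l.map (fun d => l.map (fun e => rel md dm d e))

/-- Domination in the graph of a matrix. -/
def dmM (M : List (List Bool)) (v w : ℕ) : Bool := decide (v = w) || (entry M v w || entry M w v)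

theorem mem_owl {md : Bool} {n t : ℕ} {o : Ow} : o ∈ owl md n t ↔ OV md n t o := by
  obtain ⟨a, b, c⟩ := o
  unfold owl OV
  rw [List.mem_cons, List.mem_append, List.mem_append]
  refine or_congr Iff.rfl (or_congr ?_ (or_congr ?_ ?_))
  · simp only [List.mem_map, List.mem_range, Prod.mk.injEq]
    constructor
    · rintro ⟨v, hv, h1, h2, h3⟩; omega
    · rintro ⟨h1, h2, h3⟩; exact ⟨b, h2, h1.symm, rfl, h3.symm⟩
  · simp only [List.mem_flatMap, List.mem_map, List.mem_range, Prod.mk.injEq]
    constructor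
    · rintro ⟨w, hw, j, hj, h1, h2, h3⟩; omega
    · rintro ⟨h1, h2, h3⟩; exact ⟨b, h2, c, h3, h1.symm, rfl, rfl⟩
  · cases md
    · simp
    · simp only [cond_true, List.mem_map, List.mem_range, Prod.mk.injEq, true_and]
      constructor
      · rintro ⟨j, hj, h1, h2, h3⟩; omega
      · rintro ⟨h1, h2, h3⟩; exact ⟨b, h2, h1.symm, rfl, h3.symm⟩

theorem mem_vof {md : Bool} {t : ℕ} {o : Ow} {d : Dd} : d ∈ vof md t o ↔
    d.1 = o ∧ ((d.2.1 = 0 ∧ d.2.2 = 0) ∨ (0 < d.2.1 ∧ d.2.1 ≤ cn md t o.1 ∧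
      d.2.2 < sn md t)) := by
  obtain ⟨p, i, j⟩ := d
  unfold vof
  simp only [List.mem_cons, List.mem_flatMap, List.mem_map, List.mem_range, Prod.mk.injEq]
  constructor
  · rintro (⟨h1, h2, h3⟩ | ⟨i', hi', j', hj', h1, h2, h3⟩)
    · exact ⟨h1, Or.inl ⟨h2, h3⟩⟩
    · exact ⟨h1.symm, Or.inr ⟨by omega, by omega, by omega⟩⟩
  · rintro ⟨h1, ⟨h2, h3⟩ | ⟨h2, h3, h4⟩⟩
    · exact Or.inl ⟨h1, h2, h3⟩
    · exact Or.inr ⟨i - 1, by omega, j, h4, h1.symm, by omega, rfl⟩

theorem mem_vls {md : Bool} {n t : ℕ} {d : Dd} : d ∈ vls md n t ↔ VD md n t d := by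
  unfold vls VD
  rw [List.mem_flatMap]
  constructor
  · rintro ⟨o, ho, hd⟩
    rw [mem_vof] at hd
    rw [mem_owl] at ho
    obtain ⟨rfl, h2⟩ := hd
    exact ⟨ho, h2⟩
  · rintro ⟨h1, h2⟩
    exact ⟨d.1, mem_owl.2 h1, mem_vof.2 ⟨rfl, h2⟩⟩

theorem nodup_flatMap_key {α β : Type} (l : List α) (f : α → List β) (key : β → α)
    (hl : l.Nodup) (hf : ∀ a ∈ l, (f a).Nodup) (hk : ∀ a ∈ l, ∀ b ∈ f a, key b = a) :
    (l.flatMap f).Nodup := by
  rw [List.nodup_flatMap]
  refine ⟨hf, (List.Pairwise.and_mem.1 hl).imp ?_⟩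
  rintro a a' ⟨ha, ha', hne⟩
  show List.Disjoint (f a) (f a')
  intro b hb hb'
  exact hne ((hk a ha b hb).symm.trans (hk a' ha' b hb'))

theorem nodup_owl (md : Bool) (n t : ℕ) : (owl md n t).Nodup := by
  unfold owl
  have hr := fun m : ℕ => List.nodup_range (n := m)
  rw [List.nodup_cons, List.nodup_append, List.nodup_append]
  refine ⟨?_, ?_, ⟨?_, ?_, ?_⟩, ?_⟩
  · cases md <;> simp
  · exact (hr n).map (fun a b h => by simpa using h)
  · refine nodup_flatMap_key _ _ (fun o => o.2.1) (hr n) (fun a _ =>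
      (hr t).map (fun a b h => by simpa using h)) ?_
    intro a _ b hb
    rw [List.mem_map] at hb
    obtain ⟨j, _, rfl⟩ := hb
    rfl
  · cases md
    · simp
    · exact (hr t).map (fun a b h => by simpa using h)
  · intro a ha b hb
    simp only [List.mem_flatMap, List.mem_map] at ha
    obtain ⟨w, _, j, _, rfl⟩ := ha
    cases md
    · simp at hb
    · simp only [cond_true, List.mem_map] at hb
      obtain ⟨j, _, rfl⟩ := hb
      simp
  · intro a ha b hb
    simp only [List.mem_map] at ha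
    obtain ⟨v, _, rfl⟩ := ha
    rw [List.mem_append] at hb
    rcases hb with hb | hb
    · simp only [List.mem_flatMap, List.mem_map] at hb
      obtain ⟨w, _, j, _, rfl⟩ := hb
      simp
    · cases md
      · simp at hb
      · simp only [cond_true, List.mem_map] at hb
        obtain ⟨j, _, rfl⟩ := hb
        simp

theorem nodup_vls (md : Bool) (n t : ℕ) : (vls md n t).Nodup := by
  have hr := fun m : ℕ => List.nodup_range (n := m)
  refine nodup_flatMap_key _ _ (fun d => d.1) (nodup_owl md n t) (fun o _ => ?_)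
    (fun o _ d hd => (mem_vof.1 hd).1)
  unfold vof
  rw [List.nodup_cons]
  refine ⟨by simp, nodup_flatMap_key _ _ (fun d => d.2.1 - 1) (hr _) (fun i _ =>
    (hr _).map (fun a b h => by simpa using h)) ?_⟩
  intro a _ b hb
  rw [List.mem_map] at hb
  obtain ⟨j, _, rfl⟩ := hb
  simp

theorem mtx_length (md : Bool) (dm : ℕ → ℕ → Bool) (l : List Dd) :
    (mtx md dm l).length = l.length := by
  simp [mtx]

theorem entry_mtx (md : Bool) (dm : ℕ → ℕ → Bool) (l : List Dd) {i j : ℕ} (hi : i < l.length)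
    (hj : j < l.length) : entry (mtx md dm l) i j = rel md dm l[i] l[j] := by
  unfold entry mtx
  rw [List.getD_eq_getElem (l.map (fun d => l.map (fun e => rel md dm d e))) []
    (by rw [List.length_map]; exact hi), List.getElem_map,
    List.getD_eq_getElem _ _ (by rw [List.length_map]; exact hj), List.getElem_map]

theorem bs_symm (md : Bool) (dm : ℕ → ℕ → Bool) (o p : Ow) : bs md dm o p = bs md dm p o := by
  unfold bs
  ac_rfl

theorem rel_symm (md : Bool) (dm : ℕ → ℕ → Bool) (d e : Dd) : rel md dm d e = rel md dm e d := by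
  unfold rel
  rw [bs_symm md dm d.1 e.1]
  by_cases h : d.1 = e.1
  · rw [decide_eq_true h, decide_eq_true h.symm, cond_true, cond_true, Bool.eq_iff_iff]
    simp only [Bool.or_eq_true, decide_eq_true_eq]
    tauto
  · rw [decide_eq_false h, decide_eq_false (Ne.symm h), cond_false, cond_false,
      Bool.eq_iff_iff]
    simp only [Bool.and_eq_true, decide_eq_true_eq]
    tauto

theorem lay (md : Bool) (n t : ℕ) (dm : ℕ → ℕ → Bool) :
    Lay (graphOf (mtx md dm (vls md n t)))
      (fun i => (vls md n t)[(i : ℕ)]'(i.2.trans_eq (mtx_length md dm (vls md n t))))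
        md n t dm := by
  have hlt : ∀ i : Fin (mtx md dm (vls md n t)).length, (i : ℕ) < (vls md n t).length :=
    fun i => i.2.trans_eq (mtx_length md dm (vls md n t))
  refine ⟨fun i j h => ?_, fun i j => ?_, fun i => ?_, fun d hd => ?_⟩
  · exact Fin.ext ((nodup_vls md n t).getElem_inj_iff.1 h)
  · show (i ≠ j ∧ (entry (mtx md dm (vls md n t)) i j = true ∨
      entry (mtx md dm (vls md n t)) j i = true)) ↔ _
    rw [entry_mtx md dm _ (hlt i) (hlt j), entry_mtx md dm _ (hlt j) (hlt i),
      rel_symm md dm ((vls md n t)[(j : ℕ)]'(hlt j)) ((vls md n t)[(i : ℕ)]'(hlt i)), or_self]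
  · exact mem_vls.1 (List.getElem_mem _)
  · obtain ⟨i, hi, h⟩ := List.getElem_of_mem (mem_vls.2 hd)
    exact ⟨⟨i, by rw [mtx_length]; exact hi⟩, h⟩

/-- The reduction. -/
def rdc (md : Bool) (x : List (List Bool) × ℕ) : List (List Bool) × ℕ :=
  (mtx md (dmM x.1) (vls md x.1.length (2 * min x.2 x.1.length + 1)), min x.2 x.1.length)

theorem dom_iff (M : List (List Bool)) (k : ℕ) :
    HasDomSet (M, k) ↔ ∃ S, Dom M.length (min k M.length) (dmM M) S := by
  classical
  have hdm : ∀ v w : Fin M.length, (v = w ∨ (graphOf M).Adj v w) ↔ dmM M v w = true := by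
    intro v w
    simp only [dmM, graphOf, Bool.or_eq_true, decide_eq_true_eq, Fin.ext_iff]
    tauto
  constructor
  · rintro ⟨S, hS, hd⟩
    refine ⟨S.map Fin.valEmbedding, ?_, ?_, ?_⟩
    · rw [Finset.card_map]
      refine le_min hS ?_
      simpa using Finset.card_le_univ S
    · intro v hv
      obtain ⟨u, _, rfl⟩ := Finset.mem_map.1 hv
      exact u.2
    · intro w hw
      obtain ⟨v, hv, h⟩ := hd ⟨w, hw⟩
      exact ⟨v, Finset.mem_map.2 ⟨v, hv, rfl⟩, (hdm v ⟨w, hw⟩).1 h⟩
  · rintro ⟨S, hS, hlt, hd⟩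
    refine ⟨S.attachFin (fun v hv => hlt v hv), ?_, ?_⟩
    · rw [Finset.card_attachFin]
      exact hS.trans (min_le_left _ _)
    · intro w
      obtain ⟨v, hv, h⟩ := hd w w.2
      exact ⟨⟨v, hlt v hv⟩, Finset.mem_attachFin _ |>.2 hv, (hdm ⟨v, hlt v hv⟩ w).2 h⟩

theorem rdc_tri (x : List (List Bool) × ℕ) : HasDomSet x ↔ FreeContraction triPt (rdc false x) := by
  obtain ⟨M, k⟩ := x
  rw [dom_iff]
  have h := lay false M.length (2 * min k M.length + 1) (dmM M)
  constructor
  · rintro ⟨S, hS⟩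
    exact triPt_fwd h hS
  · rintro ⟨F, hF, hk, hfree⟩
    exact triPt_bwd h hk hfree

theorem rdc_star (x : List (List Bool) × ℕ) :
    HasDomSet x ↔ FreeContraction star6 (rdc true x) := by
  obtain ⟨M, k⟩ := x
  rw [dom_iff]
  have h := lay true M.length (2 * min k M.length + 1) (dmM M)
  constructor
  · rintro ⟨S, hS⟩
    exact star6_fwd h hS
  · rintro ⟨F, hF, hk, hfree⟩
    exact star6_bwd h hF hk hfree

end Pool.Agent.H633R2.Ctr

namespace Pool.Agent.NPC.H633

open Pool.Agent.H633R2 Pool.Agent.H633R2.Ctr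

section

variable {α : Type} [TEnc α] {M : α → List (List Bool)} {n t : α → ℕ}

theorem poly_bs (md : Bool) {o p : α → Ow} (hM : Poly M) (ho : Poly o) (hp : Poly p) :
    Poly (fun a => bs md (dmM (M a)) (o a) (p a)) := by
  have ho1 : Poly (fun a => (o a).1) := Poly.fst ho
  have hp1 : Poly (fun a => (p a).1) := Poly.fst hp
  have ho2 : Poly (fun a => (o a).2.1) := Poly.fst (Poly.snd ho)
  have hp2 : Poly (fun a => (p a).2.1) := Poly.fst (Poly.snd hp)
  have e : ∀ c : ℕ, Poly (fun a => decide ((o a).1 = c)) := fun c =>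
    Poly.decide_eq ho1 (Poly.const c)
  have f : ∀ c : ℕ, Poly (fun a => decide ((p a).1 = c)) := fun c =>
    Poly.decide_eq hp1 (Poly.const c)
  have hd : ∀ {u v : α → ℕ}, Poly u → Poly v → Poly (fun a => dmM (M a) (u a) (v a)) := by
    intro u v hu hv
    unfold dmM
    exact Poly.or (Poly.decide_eq hu hv) (Poly.or (poly_ent hM hu hv) (poly_ent hM hv hu))
  unfold bs
  refine Poly.or (Poly.or (Poly.or (Poly.and (e 0) (f 1)) (Poly.and (e 1) (f 0))) (Poly.or
    (Poly.and (Poly.and (e 1) (f 2)) (hd ho2 hp2)) (Poly.and (Poly.and (e 2) (f 1))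
      (hd hp2 ho2)))) (Poly.and (Poly.const md) ?_)
  exact Poly.or (Poly.or (Poly.or (Poly.and (e 1) (f 1)) (Poly.and
    (Poly.decide_le (Poly.const 2) ho1) (Poly.decide_le (Poly.const 2) hp1)))
      (Poly.and (e 0) (f 3))) (Poly.and (e 3) (f 0))

theorem poly_rel (md : Bool) {d e : α → Dd} (hM : Poly M) (hd : Poly d) (he : Poly e) :
    Poly (fun a => rel md (dmM (M a)) (d a) (e a)) := by
  have hd1 : Poly (fun a => (d a).1) := Poly.fst hd
  have he1 : Poly (fun a => (e a).1) := Poly.fst he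
  have hd2 : Poly (fun a => (d a).2.1) := Poly.fst (Poly.snd hd)
  have he2 : Poly (fun a => (e a).2.1) := Poly.fst (Poly.snd he)
  have g1 := Poly.decide_eq hd2 (Poly.const 0)
  have g2 := Poly.decide_eq he2 (Poly.const 0)
  unfold rel
  exact Poly.cond (Poly.decide_eq hd1 he1) (Poly.or (Poly.or g1 g2) (Poly.decide_eq hd2 he2))
    (Poly.and (Poly.and g1 g2) (poly_bs md hM hd1 he1))

theorem poly_mtx (md : Bool) {l : α → List Dd} (hM : Poly M) (hl : Poly l) :
    Poly (fun a => mtx md (dmM (M a)) (l a)) := by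
  unfold mtx
  refine Poly.map (F := fun a d => (l a).map (fun e => rel md (dmM (M a)) d e)) hl ?_
  exact Poly.map (α := α × Dd) (F := fun q e => rel md (dmM (M q.1)) q.2 e) (hl.comp p1)
    (poly_rel md (hM.comp (p1.comp p1)) (p2.comp p1) p2)

theorem poly_owl (md : Bool) (hn : UPoly n) (ht : UPoly t) :
    Poly (fun a => owl md (n a) (t a)) := by
  unfold owl
  refine Poly.cons (Poly.const (0, 0, 0)) (Poly.append ?_ (Poly.append ?_ ?_))
  · exact Poly.map (F := fun _ v => ((1, v, 0) : Ow)) hn.range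
      (Poly.pair (Poly.const 1) (Poly.pair p2 (Poly.const 0)))
  · refine Poly.flatMap (F := fun a w => (List.range (t a)).map (fun j => ((2, w, j) : Ow)))
      hn.range ?_
    exact Poly.map (α := α × ℕ) (F := fun q j => ((2, q.2, j) : Ow))
      (UPoly.range (ht.comp p1)) (Poly.pair (Poly.const 2) (Poly.pair (p2.comp p1) p2))
  · refine Poly.cond (Poly.const md) ?_ (Poly.const [])
    exact Poly.map (F := fun _ v => ((3, v, 0) : Ow)) ht.range
      (Poly.pair (Poly.const 3) (Poly.pair p2 (Poly.const 0)))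

theorem upoly_cn (md : Bool) {κ : α → ℕ} (ht : UPoly t) (hκ : Poly κ) :
    UPoly (fun a => cn md (t a) (κ a)) := by
  have hcond : ∀ {b : α → Bool} {m n : α → ℕ}, Poly b → UPoly m → UPoly n →
      UPoly (fun a => bif b a then m a else n a) := fun {b m n} hb hm hn =>
    (Poly.cond hb hm hn).congr fun a => by
      show (bif b a then List.replicate (m a) () else List.replicate (n a) ()) =
        List.replicate (bif b a then m a else n a) ()
      cases b a <;> rfl
  unfold cn
  refine hcond (Poly.const md) (hcond (Poly.decide_eq hκ (Poly.const 3)) (UPoly.const 4)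
    (hcond (Poly.decide_eq hκ (Poly.const 1)) (UPoly.const 0) (UPoly.const 3)))
    (hcond (Poly.decide_eq hκ (Poly.const 0)) ht (UPoly.const 0))

theorem upoly_sn (md : Bool) (ht : UPoly t) : UPoly (fun a => sn md (t a)) := by
  unfold sn
  cases md
  · exact UPoly.const 2
  · exact ht

theorem poly_vls (md : Bool) (hn : UPoly n) (ht : UPoly t) :
    Poly (fun a => vls md (n a) (t a)) := by
  unfold vls
  refine Poly.flatMap (F := fun a o => vof md (t a) o) (poly_owl md hn ht) ?_
  unfold vof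
  refine Poly.cons (Poly.pair p2 (Poly.const (0, 0))) ?_
  refine Poly.flatMap (α := α × Ow) (F := fun q i => (List.range (sn md (t q.1))).map
    (fun j => ((q.2, i + 1, j) : Dd))) (UPoly.range (upoly_cn md (ht.comp p1) (Poly.fst p2))) ?_
  refine Poly.map (α := (α × Ow) × ℕ) (F := fun q j => ((q.1.2, q.2 + 1, j) : Dd))
    (UPoly.range (upoly_sn md (ht.comp (p1.comp p1)))) ?_
  exact Poly.pair (p2.comp (p1.comp p1)) (Poly.pair (Poly.succ (p2.comp p1)) p2)

theorem poly_rdc (md : Bool) : Poly (rdc md) := by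
  have hM : Poly (fun x : List (List Bool) × ℕ => x.1) := Poly.fst Poly.id
  have hn : UPoly (fun x : List (List Bool) × ℕ => x.1.length) := UPoly.length hM
  have hk : UPoly (fun x : List (List Bool) × ℕ => min x.2 x.1.length) :=
    UPoly.of_le (Poly.min (Poly.snd Poly.id) hn.toPoly) hn fun _ => min_le_right _ _
  unfold rdc
  exact Poly.pair (poly_mtx md hM (poly_vls md hn
    (UPoly.add (UPoly.mul (UPoly.const 2) hk) (UPoly.const 1)))) hk.toPoly

end

theorem w2Hard_of {H : List (List Bool) × ℕ → Prop} (md : Bool)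
    (h : ∀ x, HasDomSet x ↔ H (rdc md x)) :
    W2Hard (fun x : List (List Bool) × ℕ => x.2) H := by
  intro α _ κ P hP
  refine FptReduces.trans hP ⟨rdc md, fun n => n, FptTime.of_poly (poly_rdc md), Computable.id,
    fun x => ⟨h x, min_le_left _ _⟩⟩

/-- Hardness for the star. -/
theorem w2Hard_star : W2Hard (fun x : List (List Bool) × ℕ => x.2) (FreeContraction star6) :=
  w2Hard_of true rdc_star

/-- Hardness for the triangle with an isolated vertex. -/
theorem w2Hard_tri : W2Hard (fun x : List (List Bool) × ℕ => x.2) (FreeContraction triPt) :=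
  w2Hard_of false rdc_tri

end Pool.Agent.NPC.H633
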