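import Pool.Agent.H633R2.Ctr.Ball

/-!
# Swapping two isomorphic balls
-/

namespace Pool.Agent.H633R2.Ctr

variable {V : Type}

open Classical in
/-- The involution exchanging two balls. -/
noncomputable def swp (A : V → V → Prop) (R : Finset V) (j : ℕ) (v v' : V) (ι ι' : V → V)
    (x : V) : V :=
  if wd A R j v x then ι x else if wd A R j v' x then ι' x else x

/-- The data of a swap. -/
structure SwapData (A : V → V → Prop) (R B : Finset V) (T : Set V) (Y : Set V) (i j ρ : ℕ)
    (v v' : V) (ι ι' : V → V) : Prop where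
  hA : ∀ x y, A x y → A y x
  hRB : ∀ x ∈ B, x ∉ R
  hBT : ∀ x ∈ B, x ∈ T
  hV : ∀ x y, A x y → x ∈ R ∨ x ∈ B
  hv : v ∈ R
  hv' : v' ∈ R
  hij : i + 3 = j
  hj : j + 3 ≤ ρ
  iso : BallIso A R B ρ v v' ι ι'
  hTv : ∀ t ∈ T, t ∈ R → wd A R i v t ∨ ¬ wd A R (j + 3) v t
  hTv' : ∀ t ∈ T, t ∈ R → ¬ wd A R (j + 3) v' t
  hYR : ∀ y ∈ Y, y ∈ R
  hYv : ∀ y ∈ Y, ¬ wd A R (j + 3) v y ∧ ¬ wd A R (j + 3) v' y
  hvv : ¬ wd A R (2 * j + 1) v v'

section

variable {A : V → V → Prop} {R B : Finset V} {T : Set V} {Y : Set V} {i j ρ : ℕ} {v v' : V}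
  {ι ι' : V → V} (S : SwapData A R B T Y i j ρ v v' ι ι')

include S

theorem SwapData.disj {x : V} (h1 : wd A R j v x) (h2 : wd A R j v' x) : False := by
  apply S.hvv
  have h3 := wd_symm S.hA S.hv' h2
  exact wd_mono (by omega) (wd_trans h1 h3)

theorem SwapData.disj' {x y : V} (h1 : wd A R j v x) (h2 : wd A R j v' y) : ¬ A x y := by
  intro h
  apply S.hvv
  have hx : x ∈ R := wd_mem S.hv h1
  have hy : y ∈ R := wd_mem S.hv' h2
  have h3 := wd_symm S.hA S.hv' h2
  exact wd_mono (by omega) (wd_trans (wd_step h1 hy h) h3)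

theorem SwapData.phi1 {x : V} (h : wd A R j v x) : swp A R j v v' ι ι' x = ι x := if_pos h

theorem SwapData.phi2 {x : V} (h : wd A R j v' x) : swp A R j v v' ι ι' x = ι' x := by
  unfold swp
  rw [if_neg (fun h' => S.disj h' h), if_pos h]

theorem SwapData.phi3 {x : V} (h : ¬ wd A R j v x) (h' : ¬ wd A R j v' x) :
    swp A R j v v' ι ι' x = x := by
  unfold swp
  rw [if_neg h, if_neg h']

theorem SwapData.io {x : V} (h : wd A R j v x) : wd A R j v' (ι x) ∧ ι' (ι x) = x :=
  ⟨S.iso.wd S.hv' (by have := S.hj; omega) h,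
    (S.iso.map x (wd_mono (by have := S.hj; omega) h)).2⟩

theorem SwapData.io' {x : V} (h : wd A R j v' x) : wd A R j v (ι' x) ∧ ι (ι' x) = x :=
  ⟨S.iso.symm.wd S.hv (by have := S.hj; omega) h,
    (S.iso.map' x (wd_mono (by have := S.hj; omega) h)).2⟩

theorem SwapData.invol (x : V) : swp A R j v v' ι ι' (swp A R j v v' ι ι' x) = x := by
  by_cases h1 : wd A R j v x
  · rw [S.phi1 h1, S.phi2 (S.io h1).1, (S.io h1).2]
  · by_cases h2 : wd A R j v' x
    · rw [S.phi2 h2, S.phi1 (S.io' h2).1, (S.io' h2).2]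
    · rw [S.phi3 h1 h2, S.phi3 h1 h2]

theorem SwapData.memR {x : V} : swp A R j v v' ι ι' x ∈ R ↔ x ∈ R := by
  by_cases h1 : wd A R j v x
  · rw [S.phi1 h1]
    exact iff_of_true (wd_mem S.hv' (S.io h1).1) (wd_mem S.hv h1)
  · by_cases h2 : wd A R j v' x
    · rw [S.phi2 h2]
      exact iff_of_true (wd_mem S.hv (S.io' h2).1) (wd_mem S.hv' h2)
    · rw [S.phi3 h1 h2]

theorem SwapData.fixB {x : V} (hx : x ∉ R) : swp A R j v v' ι ι' x = x :=
  S.phi3 (fun h => hx (wd_mem S.hv h)) (fun h => hx (wd_mem S.hv' h))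

theorem SwapData.fixY {y : V} (hy : y ∈ Y) : swp A R j v v' ι ι' y = y := by
  obtain ⟨h1, h2⟩ := S.hYv y hy
  exact S.phi3 (fun h => h1 (wd_mono (by omega) h)) (fun h => h2 (wd_mono (by omega) h))

/-- Adjacency with near vertices is preserved. -/
theorem SwapData.adj {x : V}
    (hx : x ∈ T ∨ ∃ z, ((z ∈ T ∧ z ∈ R) ∨ z ∈ Y) ∧ wd A R 2 z x) (y : V) :
    A (swp A R j v v' ι ι' x) (swp A R j v v' ι ι' y) ↔ A x y := by
  have hij := S.hij
  by_cases hxR : x ∈ R
  · -- `x` is within distance `2` of a special vertex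
    obtain ⟨z, hz, hzx⟩ : ∃ z, ((z ∈ T ∧ z ∈ R) ∨ z ∈ Y) ∧ wd A R 2 z x := by
      rcases hx with hx | hx
      · exact ⟨x, Or.inl ⟨hx, hxR⟩, wd_refl _ _⟩
      · exact hx
    have hzR : z ∈ R := by
      rcases hz with hz | hz
      · exact hz.2
      · exact S.hYR z hz
    have hxz : wd A R 2 x z := wd_symm S.hA hzR hzx
    -- consequences
    have key1 : ∀ n, n + 2 ≤ j + 3 → wd A R n v x → wd A R (i + 2) v x := by
      intro n hn h
      have h1 : wd A R (j + 3) v z := wd_mono hn (wd_trans h hxz)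
      rcases hz with ⟨hzT, _⟩ | hzY
      · rcases S.hTv z hzT hzR with h2 | h2
        · exact wd_trans h2 hzx
        · exact absurd h1 h2
      · exact absurd h1 (S.hYv z hzY).1
    have key2 : ∀ n, n + 2 ≤ j + 3 → ¬ wd A R n v' x := by
      intro n hn h
      have h1 : wd A R (j + 3) v' z := wd_mono hn (wd_trans h hxz)
      rcases hz with ⟨hzT, _⟩ | hzY
      · exact S.hTv' z hzT hzR h1
      · exact (S.hYv z hzY).2 h1
    have hx2 : ¬ wd A R j v' x := key2 j (by omega)
    by_cases hx1 : wd A R j v x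
    · have hx1' := key1 j (by omega) hx1
      rw [S.phi1 hx1]
      have hιx : wd A R (i + 2) v' (ι x) := S.iso.wd S.hv' (by have := S.hj; omega) hx1'
      by_cases hy1 : wd A R j v y
      · rw [S.phi1 hy1]
        exact S.iso.adj x y (wd_mono (by have := S.hj; omega) hx1)
          (wd_mono (by have := S.hj; omega) hy1)
      · by_cases hy2 : wd A R j v' y
        · rw [S.phi2 hy2]
          refine iff_of_false ?_ ?_
          · intro h
            exact S.disj' (S.io' hy2).1 (S.io hx1).1 (S.hA _ _ h)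
          · exact S.disj' hx1 hy2
        · rw [S.phi3 hy1 hy2]
          by_cases hyR : y ∈ R
          · refine iff_of_false ?_ ?_
            · intro h
              apply hy2
              have := wd_step hιx hyR h
              exact wd_mono (by omega) this
            · intro h
              apply hy1
              have := wd_step hx1' hyR h
              exact wd_mono (by omega) this
          · by_cases hyB : y ∈ B
            · exact S.iso.col x (wd_mono (by have := S.hj; omega) hx1) y hyB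
            · have hno : ∀ w, ¬ A w y := fun w h => by
                rcases S.hV y w (S.hA _ _ h) with h1 | h1
                · exact hyR h1
                · exact hyB h1
              exact iff_of_false (hno _) (hno _)
    · rw [S.phi3 hx1 hx2]
      by_cases hy1 : wd A R j v y
      · rw [S.phi1 hy1]
        refine iff_of_false ?_ ?_
        · intro h
          exact key2 (j + 1) (by omega) (wd_step (S.io hy1).1 hxR (S.hA _ _ h))
        · intro h
          apply hx1
          have := key1 (j + 1) (by omega) (wd_step hy1 hxR (S.hA _ _ h))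
          exact wd_mono (by omega) this
      · by_cases hy2 : wd A R j v' y
        · rw [S.phi2 hy2]
          refine iff_of_false ?_ ?_
          · intro h
            apply hx1
            have := key1 (j + 1) (by omega) (wd_step (S.io' hy2).1 hxR (S.hA _ _ h))
            exact wd_mono (by omega) this
          · intro h
            exact key2 (j + 1) (by omega) (wd_step hy2 hxR (S.hA _ _ h))
        · rw [S.phi3 hy1 hy2]
  · rw [S.fixB hxR]
    by_cases hxB : x ∈ B
    · by_cases hy1 : wd A R j v y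
      · rw [S.phi1 hy1]
        have := S.iso.col y (wd_mono (by have := S.hj; omega) hy1) x hxB
        exact ⟨fun h => S.hA _ _ (this.1 (S.hA _ _ h)), fun h => S.hA _ _ (this.2 (S.hA _ _ h))⟩
      · by_cases hy2 : wd A R j v' y
        · rw [S.phi2 hy2]
          have := S.iso.symm.col y (wd_mono (by have := S.hj; omega) hy2) x hxB
          exact ⟨fun h => S.hA _ _ (this.1 (S.hA _ _ h)),
            fun h => S.hA _ _ (this.2 (S.hA _ _ h))⟩
        · rw [S.phi3 hy1 hy2]
    · have hno : ∀ w, ¬ A x w := fun w h => by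
        rcases S.hV x w h with h1 | h1
        · exact hxR h1
        · exact hxB h1
      exact iff_of_false (hno _) (hno _)

/-- The quotient after the swap contains no pattern. -/
theorem SwapData.pat {md : Bool} {s : V → V → Prop} (hs : Equivalence s)
    (hT : ∀ x ∉ T, ∀ y, s x y → x = y)
    (hc1 : ∀ x ∈ T, ∀ y ∉ T, XA md A s x y → (∃ t, (t ∈ T ∧ t ∈ R) ∧ A t y) ∨ y ∈ Y)
    {m : ℕ} (hm : 0 < m) {H : Fin (m + 1) → Fin (m + 1) → Prop} (hH : Cone H)
    (hob : ∀ h : Fin (m + 1) → V, (∀ i j, i ≠ j → h i ≠ h j ∧ (A (h i) (h j) ↔ H i j)) →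
      (∀ i, h i ∈ R) → ∀ i, h i ∈ Y)
    (hfree : ¬ Pat H (XA md A s) s) :
    ¬ Pat H (XA md A (fun x y => s (swp A R j v v' ι ι' x) (swp A R j v v' ι ι' y)))
      (fun x y => s (swp A R j v v' ι ι' x) (swp A R j v v' ι ι' y)) := by
  have hinR : ∀ y ∉ T, ∀ x, A x y → y ∈ R := by
    intro y hy x h
    rcases S.hV y x (S.hA _ _ h) with h1 | h1
    · exact h1
    · exact absurd (S.hBT y h1) hy
  refine swap_pat (T := T) (Z1 := {y | y ∈ R ∧ ((∃ t, (t ∈ T ∧ t ∈ R) ∧ A t y) ∨ y ∈ Y)})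
    (Zn := {y | ∃ z, ((z ∈ T ∧ z ∈ R) ∨ z ∈ Y) ∧ wd A R 2 z y}) S.hA hs S.invol hT
    (fun x hx y => S.adj hx y) ?_ ?_ ?_ hH ?_ hfree
  · rintro y ⟨hyR, ⟨t, ht, hty⟩ | hy⟩
    · exact ⟨t, Or.inl ht, wd_mono (by omega) (wd_step (wd_refl 0 t) hyR hty)⟩
    · exact ⟨y, Or.inr hy, wd_refl _ _⟩
  · intro x hx y hy h
    have h1 := hc1 x hx y hy h
    refine ⟨?_, h1⟩
    rcases h1 with ⟨t, _, hty⟩ | h1
    · exact hinR y hy t hty
    · exact S.hYR y h1
  · rintro x ⟨hxR, hx⟩ y hy hxy
    have hyR := hinR y hy x hxy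
    rcases hx with ⟨t, ht, htx⟩ | hx
    · exact ⟨t, Or.inl ht, wd_step (wd_step (wd_refl 0 t) hxR htx) hyR hxy⟩
    · exact ⟨x, Or.inr hx, wd_mono (by omega) (wd_step (wd_refl 0 x) hyR hxy)⟩
  · intro h hh hφ
    have hR : ∀ i, h i ∈ R := by
      intro i
      by_contra hi
      have h1 := hφ i
      rw [S.fixB hi] at h1
      obtain ⟨i', hi'⟩ : ∃ i', A (h i) (h i') := by
        by_cases h0 : i = 0
        · have h2 : (Fin.succ ⟨0, hm⟩ : Fin (m + 1)) ≠ 0 := Fin.succ_ne_zero _
          exact ⟨Fin.succ ⟨0, hm⟩, h0 ▸ ((hh 0 _ h2.symm).2).2 (hH _ h2).1⟩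
        · exact ⟨0, ((hh i 0 h0).2).2 (hH _ h0).2⟩
      rcases S.hV _ _ hi' with h3 | h3
      · exact hi h3
      · exact h1 (S.hBT _ h3)
    intro i
    exact S.fixY (hob h hh hR i)

end

end Pool.Agent.H633R2.Ctr
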